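import Mathlib

/-! A lemma on polymatroids. -/

set_option autoImplicit false

namespace Pool.Agent.K7.H3.ZC

variable {ι : Type} [DecidableEq ι] {t : Finset ι → ℕ}

theorem poly_le (hsub : ∀ A B, t (A ∩ B) + t (A ∪ B) ≤ t A + t B) (h0 : t ∅ = 0)
    (h2 : ∀ i, t {i} ≤ 2) (A : Finset ι) : t A ≤ 2 * A.card := by
  induction A using Finset.induction_on with
  | empty => simp [h0]
  | insert a A ha ih =>
    have h1 := hsub {a} A
    rw [← Finset.insert_eq] at h1
    have h3 := h2 a
    rw [Finset.card_insert_of_notMem ha]
    omega

theorem poly_ind (hsub : ∀ A B, t (A ∩ B) + t (A ∪ B) ≤ t A + t B) (h0 : t ∅ = 0)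
    (h2 : ∀ i, t {i} ≤ 2) (J : Finset ι) :
    ∃ T ⊆ J, t T = 2 * T.card ∧ t J ≤ J.card + T.card := by
  induction J using Finset.induction_on with
  | empty => exact ⟨∅, subset_rfl, by simp [h0], by simp [h0]⟩
  | insert a J ha ih =>
    obtain ⟨T, hTJ, hT, hJ⟩ := ih
    by_cases h : t (insert a J) ≤ t J + 1
    · refine ⟨T, hTJ.trans (Finset.subset_insert a J), hT, ?_⟩
      rw [Finset.card_insert_of_notMem ha]
      omega
    · push Not at h
      have haT : a ∉ T := fun h' => ha (hTJ h')
      have h1 := hsub {a} J
      rw [← Finset.insert_eq] at h1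
      have h3 := h2 a
      have h4 := hsub (insert a T) J
      have h5 : insert a T ∩ J = T := by
        ext x
        simp only [Finset.mem_inter, Finset.mem_insert]
        constructor
        · rintro ⟨rfl | hx, hxJ⟩
          · exact absurd hxJ ha
          · exact hx
        · intro hx
          exact ⟨Or.inr hx, hTJ hx⟩
      have h6 : insert a T ∪ J = insert a J := by
        ext x
        simp only [Finset.mem_union, Finset.mem_insert]
        constructor
        · rintro ((rfl | hx) | hx)
          · exact Or.inl rfl
          · exact Or.inr (hTJ hx)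
          · exact Or.inr hx
        · rintro (rfl | hx)
          · exact Or.inl (Or.inl rfl)
          · exact Or.inr hx
      rw [h5, h6] at h4
      have h7 := poly_le hsub h0 h2 (insert a T)
      rw [Finset.card_insert_of_notMem haT] at h7
      refine ⟨insert a T, Finset.insert_subset_insert a hTJ, ?_, ?_⟩
      · rw [Finset.card_insert_of_notMem haT]
        omega
      · rw [Finset.card_insert_of_notMem ha, Finset.card_insert_of_notMem haT]
        omega

/-- If the rank of a polymatroid with singletons of rank at most `2` is larger than the number of its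
elements, then there is an independent set whose complement has smaller rank. -/
theorem poly_lemma [Fintype ι] (hsub : ∀ A B, t (A ∩ B) + t (A ∪ B) ≤ t A + t B) (h0 : t ∅ = 0)
    (h2 : ∀ i, t {i} ≤ 2) (hn : Fintype.card ι < t Finset.univ) :
    ∃ I : Finset ι, t I = 2 * I.card ∧ t Iᶜ < t Finset.univ := by
  classical
  obtain ⟨I, hI, hmax⟩ := Finset.exists_max_image
    ((Finset.univ : Finset (Finset ι)).filter fun I => t I = 2 * I.card) Finset.card
    ⟨∅, by simp [h0]⟩
  rw [Finset.mem_filter] at hI
  refine ⟨I, hI.2, ?_⟩
  obtain ⟨T, -, hT, hJ⟩ := poly_ind hsub h0 h2 Iᶜ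
  have h1 := hmax T (by rw [Finset.mem_filter]; exact ⟨Finset.mem_univ _, hT⟩)
  have h3 := Finset.card_compl_add_card I
  omega

end Pool.Agent.K7.H3.ZC
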