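import Pool.Agent.K7.H3.ZC.Prod
import Pool.Agent.K7.H3.ZC.Poly

/-!
# Moving points of a closed subset of a product
-/

set_option autoImplicit false

open MvPolynomial

namespace Pool.Agent.K7.H3.ZC

variable {k : Type} [Field k] {K : Type} [Field K] [Algebra k K] {ι : Type} {r : ℕ}

theorem MultiHomogeneous.sub {R : Type} [CommRing R] {G H : MvPolynomial (ι × Fin (r + 1)) R}
    {d : ι → ℕ} (hG : MultiHomogeneous G d) (hH : MultiHomogeneous H d) :
    MultiHomogeneous (G - H) d := by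
  classical
  intro m hm
  rcases Finset.mem_union.1 (support_sub (ι × Fin (r + 1)) G H hm) with h | h
  · exact hG m h
  · exact hH m h

theorem MultiHomogeneous.C_mul {R : Type} [CommRing R] {G : MvPolynomial (ι × Fin (r + 1)) R}
    {d : ι → ℕ} (hG : MultiHomogeneous G d) (c : R) : MultiHomogeneous (C c * G) d := by
  intro m hm
  apply hG
  rw [mem_support_iff] at hm ⊢
  intro h
  rw [coeff_C_mul, h, mul_zero] at hm
  exact hm rfl

theorem multiHomogeneous_rename [DecidableEq ι] {R : Type} [CommRing R] (i : ι)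
    {h : MvPolynomial (Fin (r + 1)) R} {e : ℕ} (hh : h.IsHomogeneous e) :
    MultiHomogeneous (rename (fun j => (i, j)) h) (Pi.single i e) := by
  classical
  intro m hm i'
  rw [support_rename_of_injective (fun a b hab => (Prod.ext_iff.1 hab).2)] at hm
  obtain ⟨m', hm', rfl⟩ := Finset.mem_image.1 hm
  have h1 : m'.degree = e := by
    rw [Finsupp.degree_eq_weight_one]
    exact hh (mem_support_iff.1 hm')
  by_cases h2 : i' = i
  · subst h2
    rw [Pi.single_eq_same, ← h1, Finsupp.degree_eq_sum]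
    refine Finset.sum_congr rfl fun j _ => ?_
    exact Finsupp.mapDomain_apply (fun a b hab => (Prod.ext_iff.1 hab).2) m' j
  · rw [Pi.single_eq_of_ne h2]
    refine Finset.sum_eq_zero fun j _ => ?_
    apply Finsupp.mapDomain_of_notMem_range
    rintro ⟨j', hj'⟩
    exact h2 (Prod.ext_iff.1 hj').1.symm

theorem isAlgebraic_aeval {S : Set K} {σ : Type} {η : σ → K}
    (hη : ∀ s, IsAlgebraic (Algebra.adjoin k S) (η s)) (G : MvPolynomial σ k) :
    IsAlgebraic (Algebra.adjoin k S) (aeval η G) := by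
  have : (aeval η G : K) ∈ Subalgebra.algebraicClosure (Algebra.adjoin k S) K := by
    rw [aeval_def, eval₂_eq]
    refine sum_mem fun m _ => mul_mem ?_ (prod_mem fun i _ => pow_mem (hη i) _)
    exact isAlgebraic_algebraMap (R := Algebra.adjoin k S) (A := K)
      (algebraMap k (Algebra.adjoin k S) _)
  exact this

theorem isAlgebraic_mem {S : Set K} {x : K} (hx : x ∈ S) :
    IsAlgebraic (Algebra.adjoin k S) x :=
  isAlgebraic_algebraMap (R := Algebra.adjoin k S) (A := K) ⟨x, Algebra.subset_adjoin hx⟩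

/-- The ratios of the coordinates of the points with index in `S`. -/
theorem isAlgebraic_ratio {b : ι → Fin (r + 1)} {ξ : ι → Fin (r + 1) → K} {S : Finset ι} {i : ι}
    (hi : i ∈ S) (hb : ξ i (b i) ≠ 0) (j l : Fin (r + 1)) :
    IsAlgebraic (Algebra.adjoin k (ES b ξ S)) (ξ i j / ξ i l) := by
  by_cases hl : ξ i l = 0
  · rw [hl, div_zero]
    exact isAlgebraic_zero
  have h1 : ξ i j / ξ i l = (ξ i j / ξ i (b i)) * (ξ i l / ξ i (b i))⁻¹ := by
    field_simp
  rw [h1]
  have h2 : ∀ j, IsAlgebraic (Algebra.adjoin k (ES b ξ S)) (ξ i j / ξ i (b i)) := fun j =>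
    isAlgebraic_mem (S := ES b ξ S) ⟨i, hi, j, rfl⟩
  exact (h2 j).mul (h2 l).inv

theorem closure_le {S T : Set K} (h : ∀ x ∈ S, IsAlgebraic (Algebra.adjoin k T) x) :
    (AlgebraicIndependent.matroid k K).closure S ⊆ (AlgebraicIndependent.matroid k K).closure T := by
  have h1 : S ⊆ (AlgebraicIndependent.matroid k K).closure T := fun x hx => mem_closure.2 (h x hx)
  have h2 := (AlgebraicIndependent.matroid k K).closure_subset_closure h1
  rwa [Matroid.closure_closure] at h2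

theorem rk_le_of_isAlgebraic {S T : Set K} (h : ∀ x ∈ S, IsAlgebraic (Algebra.adjoin k T) x) :
    rk k S ≤ rk k T := by
  have h1 := closure_le h
  have h2 := (AlgebraicIndependent.matroid k K).eRk_mono h1
  rwa [Matroid.eRk_closure_eq, Matroid.eRk_closure_eq] at h2

theorem chart_closure {b b' : ι → Fin (r + 1)} {ξ : ι → Fin (r + 1) → K} {S : Finset ι}
    (hb : ∀ i ∈ S, ξ i (b i) ≠ 0) {x : K} (hx : IsAlgebraic (Algebra.adjoin k (ES b' ξ S)) x) :
    IsAlgebraic (Algebra.adjoin k (ES b ξ S)) x := by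
  have h1 : ∀ x ∈ ES b' ξ S, IsAlgebraic (Algebra.adjoin k (ES b ξ S)) x := by
    rintro x ⟨i, hi, j, rfl⟩
    exact isAlgebraic_ratio hi (hb i hi) j (b' i)
  exact mem_closure.1 (closure_le h1 (mem_closure.2 hx))

theorem chart_tt {b b' : ι → Fin (r + 1)} {ξ : ι → Fin (r + 1) → K} {S : Finset ι}
    (hb : ∀ i ∈ S, ξ i (b i) ≠ 0) : tt k b' ξ S ≤ tt k b ξ S := by
  have h1 : rk k (ES b' ξ S) ≤ rk k (ES b ξ S) := by
    apply rk_le_of_isAlgebraic
    rintro x ⟨i, hi, j, rfl⟩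
    exact isAlgebraic_ratio hi (hb i hi) j (b' i)
  rw [← coe_tt, ← coe_tt] at h1
  exact_mod_cast h1

/-- Extension of a homomorphism to a specialisation over `k`. -/
theorem exists_spz' [IsAlgClosed k] [Fintype ι] [DecidableEq ι] {A : Subalgebra k K}
    (ψ : A →ₐ[k] k) {ξ : ι → Fin (r + 1) → K} (hξ : ∀ i, ξ i ≠ 0) :
    ∃ v : ι → Fin (r + 1) → k, (∀ i, v i ≠ 0) ∧ Spz k ξ v ∧
      (∀ i (h : MvPolynomial (Fin (r + 1)) k) (e : ℕ), h.IsHomogeneous e →
        ∀ (l : Fin (r + 1)) (u : A), aeval (ξ i) h = u * ξ i l ^ e →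
          aeval (v i) h = ψ u * v i l ^ e) := by
  obtain ⟨v, hv, H⟩ := exists_spz ψ hξ
  have hψk : (ψ : A →+* k).comp (algebraMap k A) = RingHom.id k := by
    ext c
    exact ψ.commutes c
  refine ⟨v, hv, fun G d hG h0 => ?_, fun i h e hh l u hu => ?_⟩
  · have h1 := H (MvPolynomial.map (algebraMap k A) G) d (hG.map _) (by
      rw [aeval_map_algebraMap]; exact h0)
    rwa [MvPolynomial.map_map, hψk, MvPolynomial.map_id] at h1
  · have hhA : (MvPolynomial.map (algebraMap k A) h).IsHomogeneous e := hh.map _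
    have hXl : (X l ^ e : MvPolynomial (Fin (r + 1)) A).IsHomogeneous e := isHomogeneous_X_pow l e
    have h1 := H (rename (fun j => (i, j)) (MvPolynomial.map (algebraMap k A) h) -
      C u * rename (fun j => (i, j)) (X l ^ e)) (Pi.single i e)
      ((multiHomogeneous_rename i hhA).sub ((multiHomogeneous_rename i hXl).C_mul u)) (by
        rw [map_sub, aeval_rename, map_mul, aeval_C, aeval_rename]
        change aeval (ξ i) (MvPolynomial.map (algebraMap k A) h) -
          algebraMap A K u * aeval (ξ i) (X l ^ e) = 0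
        rw [aeval_map_algebraMap, map_pow, aeval_X, hu, sub_eq_zero]
        rfl)
    rw [map_sub, map_mul, map_C, map_rename, map_rename, map_sub, map_mul, aeval_C, aeval_rename,
      aeval_rename, MvPolynomial.map_map, hψk, MvPolynomial.map_id, map_pow, map_X] at h1
    have h2 : aeval (v i) h - ψ u * aeval (v i) (X l ^ e : MvPolynomial (Fin (r + 1)) k) = 0 := h1
    rw [map_pow, aeval_X, sub_eq_zero] at h2
    exact h2

/-- The special case of a coordinate. -/
theorem smul_of_ratio {A : Subalgebra k K} {ψ : A →ₐ[k] k} {ξ : ι → Fin (r + 1) → K}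
    {v : ι → Fin (r + 1) → k}
    (H : ∀ i (h : MvPolynomial (Fin (r + 1)) k) (e : ℕ), h.IsHomogeneous e →
        ∀ (l : Fin (r + 1)) (u : A), aeval (ξ i) h = u * ξ i l ^ e →
          aeval (v i) h = ψ u * v i l ^ e) {i : ι} {l : Fin (r + 1)} (hl : ξ i l ≠ 0)
    {a : Fin (r + 1) → k} (hA : ∀ j, ∃ u : A, (u : K) = ξ i j / ξ i l ∧ ψ u = a j / a l) :
    v i = (v i l / a l) • a := by
  funext j
  obtain ⟨u, hu, hψ⟩ := hA j
  have h1 := H i (X j) 1 (isHomogeneous_X k j) l u (by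
    rw [aeval_X, hu, pow_one, div_mul_cancel₀ _ hl])
  rw [aeval_X, pow_one, hψ] at h1
  rw [h1, Pi.smul_apply, smul_eq_mul]
  ring

/-- Points of a closed subset with given coordinates at independent places. -/
theorem extend_indep [IsAlgClosed k] [Fintype ι] [DecidableEq ι] {ξ : ι → Fin (r + 1) → K}
    (hξ : ∀ i, ξ i ≠ 0) {b : ι → Fin (r + 1)} {I : Finset ι} (hb : ∀ i ∈ I, ξ i (b i) ≠ 0)
    (hI : 2 * I.card ≤ tt k b ξ I) (h2 : ∀ i ∈ I, tt k b ξ {i} ≤ 2) {a : ι → Fin (r + 1) → k}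
    (ha : ∀ i ∈ I, a i ≠ 0) (hspz : ∀ i ∈ I, Spz k (fun _ : Fin 1 => ξ i) (fun _ => a i)) :
    ∃ v : ι → Fin (r + 1) → k, (∀ i, v i ≠ 0) ∧ Spz k ξ v ∧ ∀ i ∈ I, ∃ c : k, v i = c • a i := by
  have hch : ∀ i, ∃ l, i ∈ I → a i l ≠ 0 := by
    intro i
    by_cases hi : i ∈ I
    · obtain ⟨l, hl⟩ := Function.ne_iff.1 (ha i hi)
      exact ⟨l, fun _ => hl⟩
    · exact ⟨0, fun h => absurd h hi⟩
  choose c hc using hch
  have hcξ : ∀ i ∈ I, ξ i (c i) ≠ 0 := fun i hi => (hspz i hi).ne_zero (i := 0) (hc i hi)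
  obtain ⟨ψ, hψ⟩ := indep_points c ξ (fun i j => a i j / a i (c i)) I
    (hI.trans (chart_tt hcξ)) (fun i hi => (chart_tt (b := b) (fun i' hi' => by
      rw [Finset.mem_singleton] at hi'
      subst hi'
      exact hb i' hi)).trans (h2 i hi)) (by
      intro i hi g hg
      have h1 := (hspz i hi).aff (b := fun _ => c i) (fun _ => hc i hi)
        (rename (fun j => ((0 : Fin 1), j)) g) (by
          rw [aeval_rename]
          exact hg)
      rw [aeval_rename] at h1
      exact h1)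
  obtain ⟨v, hv, hv1, hv2⟩ := exists_spz' ψ hξ
  refine ⟨v, hv, hv1, fun i hi => ⟨_, smul_of_ratio hv2 (hcξ i hi) fun j => ?_⟩⟩
  exact ⟨⟨ξ i j / ξ i (c i), mem_adjoin_ES hi j⟩, rfl, hψ _ i hi j rfl⟩

/-- Cutting a family of points by a hypersurface. -/
theorem cut [IsAlgClosed k] [Fintype ι] [DecidableEq ι] {ξ : ι → Fin (r + 1) → K}
    (hξ : ∀ i, ξ i ≠ 0) {v : ι → Fin (r + 1) → k} (hv : ∀ i, v i ≠ 0) (hspz : Spz k ξ v)
    {J : Finset ι} {i : ι} {h : MvPolynomial (Fin (r + 1)) k} {e : ℕ} (he : 0 < e)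
    (hh : h.IsHomogeneous e) (hh0 : aeval (ξ i) h ≠ 0) {b : ι → Fin (r + 1)}
    (hb : ∀ j ∈ J, ξ j (b j) ≠ 0) {j l : Fin (r + 1)}
    (hjl : ¬ IsAlgebraic (Algebra.adjoin k (ES b ξ J)) (ξ i j / ξ i l)) :
    ∃ v' : ι → Fin (r + 1) → k, (∀ i, v' i ≠ 0) ∧ Spz k ξ v' ∧
      (∀ j ∈ J, ∃ c : k, v' j = c • v j) ∧ aeval (v' i) h = 0 := by
  obtain ⟨c, hc⟩ := exists_chart hv
  have hcξ : ∀ i, ξ i (c i) ≠ 0 := fun i => hspz.ne_zero (hc i)
  obtain ⟨l', hl', hw⟩ : ∃ l', ξ i l' ≠ 0 ∧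
      ¬ IsAlgebraic (Algebra.adjoin k (ES c ξ J)) (aeval (ξ i) h / ξ i l' ^ e) := by
    by_contra hcon
    push Not at hcon
    apply hjl
    have hl : ξ i l ≠ 0 := by
      intro h0
      rw [h0, div_zero] at hjl
      exact hjl isAlgebraic_zero
    have hj : ξ i j ≠ 0 := by
      intro h0
      rw [h0, zero_div] at hjl
      exact hjl isAlgebraic_zero
    have h1 := chart_closure (b := b) (b' := c) hb (hcon l hl)
    have h2 := chart_closure (b := b) (b' := c) hb (hcon j hj)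
    have h3 : (ξ i j / ξ i l) ^ e = (aeval (ξ i) h / ξ i l ^ e) * (aeval (ξ i) h / ξ i j ^ e)⁻¹ := by
      rw [div_pow]
      field_simp
    refine IsAlgebraic.of_pow he ?_
    rw [h3]
    exact h1.mul h2.inv
  -- the homomorphism given by `v`
  obtain ⟨φ, hφ⟩ := exists_hom (k := k) (K := K) (L := k) (R := k) (σ := ι × Fin (r + 1))
    (Algebra.ofId k K) (AlgHom.id k k) (η := aff c ξ) (α := aff c v) (fun G hG =>
      hspz.aff hc G hG) (Algebra.adjoin k (ES c ξ J)) (by
      intro x hx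
      induction hx using Algebra.adjoin_induction with
      | mem x hx =>
        obtain ⟨i, -, j, rfl⟩ := hx
        exact ⟨X (i, j), by rw [eval₂_X]; rfl⟩
      | algebraMap c => exact ⟨C c, by rw [eval₂_C]; rfl⟩
      | add x y _ _ hx hy =>
        obtain ⟨G, hG⟩ := hx
        obtain ⟨G', hG'⟩ := hy
        exact ⟨G + G', by rw [eval₂_add, hG, hG']⟩
      | mul x y _ _ hx hy =>
        obtain ⟨G, hG⟩ := hx
        obtain ⟨G', hG'⟩ := hy
        exact ⟨G * G', by rw [eval₂_mul, hG, hG']⟩)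
  set w : K := aeval (ξ i) h / ξ i l' ^ e with hwdef
  -- the extension to `w`
  have hwt : AlgebraicIndependent (Algebra.adjoin k (ES c ξ J)) (fun _ : Unit => w) :=
    algebraicIndependent_unique_type_iff.2 hw
  obtain ⟨φ', hφ'⟩ := exists_hom (σ := Unit) (Algebra.adjoin k (ES c ξ J)).val φ
    (η := fun _ => w) (α := fun _ => 0) (by
      intro G hG
      have h1 : G = 0 := (algebraicIndependent_iff.1 hwt) G hG
      rw [h1, eval₂_zero]) (Algebra.adjoin k (insert w (ES c ξ J))) (by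
      intro x hx
      induction hx using Algebra.adjoin_induction with
      | mem x hx =>
        rcases hx with rfl | hx
        · exact ⟨X (), by rw [eval₂_X]⟩
        · exact ⟨C ⟨x, Algebra.subset_adjoin hx⟩, by rw [eval₂_C]; rfl⟩
      | algebraMap c =>
        exact ⟨C (algebraMap k _ c), by rw [eval₂_C]; rfl⟩
      | add x y _ _ hx hy =>
        obtain ⟨G, hG⟩ := hx
        obtain ⟨G', hG'⟩ := hy
        exact ⟨G + G', by rw [eval₂_add, hG, hG']⟩
      | mul x y _ _ hx hy =>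
        obtain ⟨G, hG⟩ := hx
        obtain ⟨G', hG'⟩ := hy
        exact ⟨G * G', by rw [eval₂_mul, hG, hG']⟩)
  obtain ⟨v', hv', hv1, hv2⟩ := exists_spz' φ' hξ
  refine ⟨v', hv', hv1, fun j hj => ⟨_, smul_of_ratio hv2 (hcξ j) fun j' => ?_⟩, ?_⟩
  · refine ⟨⟨ξ j j' / ξ j (c j), Algebra.subset_adjoin (Or.inr ⟨j, hj, j', rfl⟩)⟩, rfl, ?_⟩
    rw [hφ' _ (C ⟨ξ j j' / ξ j (c j), mem_adjoin_ES hj j'⟩) (by rw [eval₂_C]; rfl), eval₂_C]
    have h1 := hφ ⟨ξ j j' / ξ j (c j), mem_adjoin_ES hj j'⟩ (X (j, j')) (by rw [eval₂_X]; rfl)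
    rw [eval₂_X] at h1
    exact h1
  · have h1 := hv2 i h e hh l' ⟨w, Algebra.subset_adjoin (Or.inl rfl)⟩ (by
      change aeval (ξ i) h = w * ξ i l' ^ e
      rw [hwdef, div_mul_cancel₀ _ (pow_ne_zero _ hl')])
    rw [h1, hφ' _ (X ()) (by rw [eval₂_X]), eval₂_X, zero_mul]

end Pool.Agent.K7.H3.ZC
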