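import Pool.Agent.K7.H3.ZC.Family

/-!
# The theorem on families in terms of closed subsets
-/

set_option autoImplicit false

open MvPolynomial FF
open scoped LinearAlgebra.Projectivization

namespace Pool.Agent.K7.H3.ZC

variable {k : Type} [Field k] {r : ℕ}

theorem IsVariety.surfaceData {X : Set (ℙ k (Fin (r + 1) → k))}
    (hX : IsVariety k {z : Fin 1 → ℙ k (Fin (r + 1) → k) | z 0 ∈ X} 2) :
    ∃ (K0 : Type) (_ : Field K0) (_ : Algebra k K0) (θ : Fin 1 → Fin (r + 1) → K0),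
      SurfaceData k X K0 θ := by
  obtain ⟨K0, _, _, θ, -, hgen, htr, hXθ⟩ := hX
  exact ⟨K0, inferInstance, inferInstance, θ, hgen, htr, fun x => hXθ (fun _ => x)⟩

/-- If all points over `k` of a closed subset are in `X`, then also the coordinates of the generic
point are points of `X`. -/
theorem SurfaceData.spz_of_forall [IsAlgClosed k] {X : Set (ℙ k (Fin (r + 1) → k))} {K0 : Type}
    [Field K0] [Algebra k K0] {θ : Fin 1 → Fin (r + 1) → K0} (hX : SurfaceData k X K0 θ)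
    {K : Type} [Field K] [Algebra k K] {ι : Type} [Fintype ι] {ξ : ι → Fin (r + 1) → K}
    (hξ : ∀ i, ξ i ≠ 0)
    (hsub : ∀ (v : ι → Fin (r + 1) → k) (hv : ∀ i, v i ≠ 0), Spz k ξ v →
      ∀ i, Projectivization.mk k (v i) (hv i) ∈ X) (i : ι) : Spz k θ (fun _ => ξ i) := by
  classical
  rw [spz_one]
  intro g d hg h0
  by_contra hne
  obtain ⟨v, hv, hv1, hv2⟩ := exists_point hξ (multiHomogeneous_rename i hg) (by
    rw [aeval_rename]; exact hne)
  rw [aeval_rename] at hv2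
  apply hv2
  have h3 := (hX.mem _).1 (hsub v hv hv1 i)
  have h4 := spz_one.1 h3 g d hg h0
  exact (aeval_rep_eq_zero hg (hv i)).1 h4

/-- The curve is not the surface. -/
theorem exists_not_mem_curve [IsAlgClosed k] {X : Set (ℙ k (Fin (r + 1) → k))}
    (hX : IsVariety k {z : Fin 1 → ℙ k (Fin (r + 1) → k) | z 0 ∈ X} 2)
    {h : MvPolynomial (Fin (r + 1)) k}
    (hC : IsVariety k {z : Fin 1 → ℙ k (Fin (r + 1) → k) | z 0 ∈ X ∧ aeval (z 0).rep h = 0} 1) :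
    ∃ x ∈ X, aeval x.rep h ≠ 0 := by
  by_contra hcon
  push Not at hcon
  have h1 : {z : Fin 1 → ℙ k (Fin (r + 1) → k) | z 0 ∈ X ∧ aeval (z 0).rep h = 0} =
      {z : Fin 1 → ℙ k (Fin (r + 1) → k) | z 0 ∈ X} := by
    ext z
    exact ⟨fun hz => hz.1, fun hz => ⟨hz, hcon _ hz⟩⟩
  rw [h1] at hC
  exact absurd (hX.dim_unique hC) (by omega)

/-- **Families of large orbits.** -/
theorem main_families [IsAlgClosed k] [CharZero k] {X : Set (ℙ k (Fin (r + 1) → k))}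
    (hX : IsVariety k {z : Fin 1 → ℙ k (Fin (r + 1) → k) | z 0 ∈ X} 2)
    {h : MvPolynomial (Fin (r + 1)) k} {e : ℕ} (he : 0 < e) (hh : h.IsHomogeneous e)
    (hC : IsVariety k {z : Fin 1 → ℙ k (Fin (r + 1) → k) | z 0 ∈ X ∧ aeval (z 0).rep h = 0} 1)
    {n D f : ℕ} {Z : Set (Fin n → ℙ k (Fin (r + 1) → k))} (hZ : IsVariety k Z D)
    (hZX : ∀ z ∈ Z, ∀ i, z i ∈ X) (hf : 2 * n < D + f)
    (horb : ∀ z ∈ Z, ∃ (W : Set (Fin n → ℙ k (Fin (r + 1) → k))) (m : ℕ), IsVariety k W m ∧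
      f ≤ m ∧ (∀ w ∈ W, ∀ i, w i ∈ X) ∧ ∀ w ∈ W, cycle z - cycle w ∈ ratEquiv X) :
    IsFiniteDimensional X := by
  classical
  obtain ⟨K0, _, _, θ, hXθ⟩ := hX.surfaceData
  obtain ⟨K, _, _, ξ, hξ, hgen, htr, hZξ⟩ := hZ
  obtain ⟨b, hb⟩ := exists_chart hξ
  have hmem : ∀ (v : Fin n → Fin (r + 1) → k) (hv : ∀ i, v i ≠ 0), Spz k ξ v →
      (fun i => Projectivization.mk k (v i) (hv i)) ∈ Z := fun v hv hv1 =>
    (hZξ _).2 (hv1.rep hv)
  refine family_core hXθ he hh hC (exists_not_mem_curve hX hC) hb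
    (hXθ.spz_of_forall hξ fun v hv hv1 i => hZX _ (hmem v hv hv1) i) (f := f) ?_ ?_
  · rw [tt_univ hgen htr hb, Fintype.card_fin]
    exact hf
  · intro v hv hv1
    obtain ⟨W, m, hW, hfm, hWX, hWR⟩ := horb _ (hmem v hv hv1)
    obtain ⟨K', _, _, ζ, hζ, hgen', htr', hWζ⟩ := hW
    obtain ⟨b', hb'⟩ := exists_chart hζ
    have hmem' : ∀ (w : Fin n → Fin (r + 1) → k) (hw : ∀ i, w i ≠ 0), Spz k ζ w →
        (fun i => Projectivization.mk k (w i) (hw i)) ∈ W := fun w hw hw1 =>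
      (hWζ _).2 (hw1.rep hw)
    refine ⟨K', inferInstance, inferInstance, ζ, b', hb',
      hXθ.spz_of_forall hζ fun w hw hw1 i => hWX _ (hmem' w hw hw1) i, ?_, ?_⟩
    · rw [tt_univ hgen' htr' hb']
      exact hfm
    · intro w hw hw1
      exact hWR _ (hmem' w hw hw1)

end Pool.Agent.K7.H3.ZC
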