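import Pool.Agent.K7.H3.ZC.Rado

/-! Two constructions of sets of indices from submodular functions. -/

set_option autoImplicit false

namespace Pool.Agent.K7.H3.ZC

variable {ι : Type} [DecidableEq ι] {t : Finset ι → ℕ}

/-- The rank function of the matroid induced by a polymatroid. -/
noncomputable def indRank (t : Finset ι → ℕ) (U : Finset ι) : ℕ :=
  U.powerset.inf' ⟨∅, Finset.empty_mem_powerset U⟩ fun B => t B + (U \ B).card

theorem indRank_le {U B : Finset ι} (hB : B ⊆ U) : indRank t U ≤ t B + (U \ B).card :=
  Finset.inf'_le _ (Finset.mem_powerset.2 hB)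

theorem exists_indRank (U : Finset ι) : ∃ B ⊆ U, indRank t U = t B + (U \ B).card := by
  obtain ⟨B, hB, h⟩ := Finset.exists_mem_eq_inf' (s := U.powerset)
    ⟨∅, Finset.empty_mem_powerset U⟩ fun B => t B + (U \ B).card
  exact ⟨B, Finset.mem_powerset.1 hB, h⟩

/-- A large set of indices with the condition of Rado. -/
theorem exists_transversal_set [Fintype ι] (hmono : ∀ A B, A ⊆ B → t A ≤ t B)
    (hsub : ∀ A B, t (A ∩ B) + t (A ∪ B) ≤ t A + t B) (h0 : t ∅ = 0) {f : ℕ}
    (hf : ∀ B : Finset ι, f + B.card ≤ t B + Fintype.card ι) :
    ∃ A : Finset ι, f ≤ A.card ∧ ∀ B ⊆ A, B.card ≤ t B := by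
  obtain ⟨A, -, hA1, hA2⟩ := exists_basis (ρ := indRank t)
    (by
      intro U V hUV
      obtain ⟨B, hB, h⟩ := exists_indRank (t := t) V
      have h1 := indRank_le (t := t) (U := U) (B := B ∩ U) Finset.inter_subset_right
      have h2 := hmono (B ∩ U) B Finset.inter_subset_left
      have h3 : (U \ (B ∩ U)).card ≤ (V \ B).card := by
        refine Finset.card_le_card fun x hx => ?_
        rw [Finset.mem_sdiff, Finset.mem_inter] at hx
        rw [Finset.mem_sdiff]
        exact ⟨hUV hx.1, fun h => hx.2 ⟨h, hx.1⟩⟩
      omega)
    (by
      intro U V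
      obtain ⟨B, hB, h⟩ := exists_indRank (t := t) U
      obtain ⟨B', hB', h'⟩ := exists_indRank (t := t) V
      have h1 := indRank_le (t := t) (U := U ∩ V) (B := B ∩ B') (Finset.inter_subset_inter hB hB')
      have h2 := indRank_le (t := t) (U := U ∪ V) (B := B ∪ B') (Finset.union_subset_union hB hB')
      have h3 := hsub B B'
      have h4 := Finset.card_sdiff_add_card_eq_card hB
      have h5 := Finset.card_sdiff_add_card_eq_card hB'
      have h6 := Finset.card_sdiff_add_card_eq_card (Finset.inter_subset_inter hB hB')
      have h7 := Finset.card_sdiff_add_card_eq_card (Finset.union_subset_union hB hB')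
      have h8 := Finset.card_union_add_card_inter U V
      have h9 := Finset.card_union_add_card_inter B B'
      omega)
    (by
      have h1 := indRank_le (t := t) (U := ∅) (B := ∅) subset_rfl
      simp [h0] at h1
      exact h1)
    (by
      intro i
      have h1 := indRank_le (t := t) (U := {i}) (B := ∅) (Finset.empty_subset _)
      simp [h0] at h1
      exact h1) Finset.univ
  refine ⟨A, ?_, fun B hB => ?_⟩
  · obtain ⟨B, hB, h⟩ := exists_indRank (t := t) (Finset.univ : Finset ι)
    have h1 := hf B
    have h2 := Finset.card_sdiff_add_card_eq_card hB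
    rw [Finset.card_univ] at h2
    omega
  · have h1 := indRank_le (t := t) hB
    have h2 := Finset.card_sdiff_add_card_eq_card hB
    omega

/-- The rank function with respect to the closures of sets. -/
noncomputable def supRank [Fintype ι] (t : Finset ι → ℕ) (L A : Finset ι) : ℕ :=
  (Finset.univ.filter fun B : Finset ι => L ∪ A ⊆ B).inf'
    ⟨Finset.univ, Finset.mem_filter.2 ⟨Finset.mem_univ _, Finset.subset_univ _⟩⟩
    fun B => (t B + L.card) - (B.card + t L)

theorem supRank_le [Fintype ι] {L A B : Finset ι} (hB : L ∪ A ⊆ B) :
    supRank t L A ≤ (t B + L.card) - (B.card + t L) :=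
  Finset.inf'_le _ (Finset.mem_filter.2 ⟨Finset.mem_univ _, hB⟩)

theorem exists_supRank [Fintype ι] (L A : Finset ι) :
    ∃ B, L ∪ A ⊆ B ∧ supRank t L A = (t B + L.card) - (B.card + t L) := by
  obtain ⟨B, hB, h⟩ := Finset.exists_mem_eq_inf'
    (s := Finset.univ.filter fun B : Finset ι => L ∪ A ⊆ B)
    ⟨Finset.univ, Finset.mem_filter.2 ⟨Finset.mem_univ _, Finset.subset_univ _⟩⟩
    fun B => (t B + L.card) - (B.card + t L)
  exact ⟨B, (Finset.mem_filter.1 hB).2, h⟩

/-- The sets `L` and `S`. -/
theorem exists_fix_free [Fintype ι]
    (hsub : ∀ A B, t (A ∩ B) + t (A ∪ B) ≤ t A + t B) (h0 : t ∅ = 0) (h2 : ∀ i, t {i} ≤ 2) :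
    ∃ L S : Finset ι, Disjoint L S ∧ t Finset.univ ≤ Fintype.card ι + S.card ∧
      ∀ B, L ∪ S ⊆ B → B.card + S.card + t L ≤ t B + L.card := by
  obtain ⟨L, -, hL⟩ := Finset.exists_min_image (Finset.univ : Finset (Finset ι))
    (fun A => (t A : ℤ) - A.card) ⟨∅, Finset.mem_univ _⟩
  have hmin : ∀ A, A.card + t L ≤ t A + L.card := by
    intro A
    have := hL A (Finset.mem_univ _)
    omega
  obtain ⟨S, -, hS1, hS2⟩ := exists_basis (ρ := supRank t L)
    (by
      intro A B hAB
      obtain ⟨B', hB', h⟩ := exists_supRank (t := t) L B
      have h1 := supRank_le (t := t) (L := L) (A := A) (B := B')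
        ((Finset.union_subset_union_right hAB).trans hB')
      omega)
    (by
      intro A B
      obtain ⟨A', hA', h⟩ := exists_supRank (t := t) L A
      obtain ⟨B', hB', h'⟩ := exists_supRank (t := t) L B
      have h1 := supRank_le (t := t) (L := L) (A := A ∩ B) (B := A' ∩ B') (by
        refine Finset.subset_inter ?_ ?_
        · exact (Finset.union_subset_union_right Finset.inter_subset_left).trans hA'
        · exact (Finset.union_subset_union_right Finset.inter_subset_right).trans hB')
      have h3 := supRank_le (t := t) (L := L) (A := A ∪ B) (B := A' ∪ B') (by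
        intro x hx
        rcases Finset.mem_union.1 hx with hx | hx
        · exact Finset.mem_union_left _ (hA' (Finset.mem_union_left _ hx))
        · rcases Finset.mem_union.1 hx with hx | hx
          · exact Finset.mem_union_left _ (hA' (Finset.mem_union_right _ hx))
          · exact Finset.mem_union_right _ (hB' (Finset.mem_union_right _ hx)))
      have h4 := hsub A' B'
      have h5 := Finset.card_union_add_card_inter A' B'
      have h6 := hmin A'
      have h7 := hmin B'
      have h8 := hmin (A' ∪ B')
      have h9 := hmin (A' ∩ B')
      omega)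
    (by
      have h1 := supRank_le (t := t) (L := L) (A := ∅) (B := L) (by simp)
      omega)
    (by
      intro i
      have h1 := supRank_le (t := t) (L := L) (A := {i}) (B := L ∪ {i}) subset_rfl
      have h3 := hsub L {i}
      have h4 := h2 i
      by_cases hi : i ∈ L
      · have h5 : L ∪ {i} = L := by
          rw [Finset.union_eq_left, Finset.singleton_subset_iff]
          exact hi
        rw [h5] at h1
        omega
      · have h5 : (L ∪ {i}).card = L.card + 1 := by
          rw [Finset.union_comm, ← Finset.insert_eq, Finset.card_insert_of_notMem hi]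
        omega) Finset.univ
  refine ⟨L, S, ?_, ?_, fun B hB => ?_⟩
  · rw [Finset.disjoint_left]
    intro i hiL hiS
    obtain ⟨B', hB', h⟩ := exists_supRank (t := t) L (S.erase i)
    have h3 : L ∪ S ⊆ B' := by
      intro x hx
      rcases Finset.mem_union.1 hx with hx | hx
      · exact hB' (Finset.mem_union_left _ hx)
      · by_cases hxi : x = i
        · subst hxi
          exact hB' (Finset.mem_union_left _ hiL)
        · exact hB' (Finset.mem_union_right _ (Finset.mem_erase.2 ⟨hxi, hx⟩))
    have h4 := supRank_le (t := t) h3
    have h5 : supRank t L (S.erase i) ≤ (S.erase i).card := by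
      refine rank_le_card (ρ := supRank t L) ?_ ?_ ?_ _
      · intro A B
        obtain ⟨A', hA', h⟩ := exists_supRank (t := t) L A
        obtain ⟨B', hB', h'⟩ := exists_supRank (t := t) L B
        have h1 := supRank_le (t := t) (L := L) (A := A ∩ B) (B := A' ∩ B') (by
          refine Finset.subset_inter ?_ ?_
          · exact (Finset.union_subset_union_right Finset.inter_subset_left).trans hA'
          · exact (Finset.union_subset_union_right Finset.inter_subset_right).trans hB')
        have h3 := supRank_le (t := t) (L := L) (A := A ∪ B) (B := A' ∪ B') (by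
          intro x hx
          rcases Finset.mem_union.1 hx with hx | hx
          · exact Finset.mem_union_left _ (hA' (Finset.mem_union_left _ hx))
          · rcases Finset.mem_union.1 hx with hx | hx
            · exact Finset.mem_union_left _ (hA' (Finset.mem_union_right _ hx))
            · exact Finset.mem_union_right _ (hB' (Finset.mem_union_right _ hx)))
        have h4 := hsub A' B'
        have h5 := Finset.card_union_add_card_inter A' B'
        have h6 := hmin A'
        have h7 := hmin B'
        have h8 := hmin (A' ∪ B')
        have h9 := hmin (A' ∩ B')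
        omega
      · have h1 := supRank_le (t := t) (L := L) (A := ∅) (B := L) (by simp)
        omega
      · intro j
        have h1 := supRank_le (t := t) (L := L) (A := {j}) (B := L ∪ {j}) subset_rfl
        have h3 := hsub L {j}
        have h4 := h2 j
        by_cases hj : j ∈ L
        · have h5 : L ∪ {j} = L := by
            rw [Finset.union_eq_left, Finset.singleton_subset_iff]
            exact hj
          rw [h5] at h1
          omega
        · have h5 : (L ∪ {j}).card = L.card + 1 := by
            rw [Finset.union_comm, ← Finset.insert_eq, Finset.card_insert_of_notMem hj]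
          omega
    rw [Finset.card_erase_of_mem hiS] at h5
    have h6 : 0 < S.card := Finset.card_pos.2 ⟨i, hiS⟩
    omega
  · obtain ⟨B, hB, h⟩ := exists_supRank (t := t) L (Finset.univ : Finset ι)
    have h1 : B = Finset.univ := by
      rw [← Finset.univ_subset_iff]
      exact Finset.subset_union_right.trans hB
    subst h1
    have h3 := hmin ∅
    have h4 := hmin Finset.univ
    rw [Finset.card_univ] at *
    simp only [Finset.card_empty, h0] at h3
    omega
  · have h1 := supRank_le (t := t) hB
    have h3 := hmin B
    omega

end Pool.Agent.K7.H3.ZC
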