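import Pool.Agent.K7.H3.ZC.Curve

/-!
# Riemann's theorem for zero-cycles on a curve
-/

set_option autoImplicit false

open MvPolynomial FF
open scoped LinearAlgebra.Projectivization

namespace Pool.Agent.K7.H3.ZC

variable {k : Type} [Field k] {r : ℕ}

/-- The cycle of a multiset of points. -/
noncomputable def cyM {A : Type} (S : Multiset A) : A →₀ ℤ :=
  (S.map fun p => Finsupp.single p (1 : ℤ)).sum

theorem cyM_zero {A : Type} : cyM (0 : Multiset A) = 0 := by simp [cyM]

theorem cyM_add {A : Type} (S T : Multiset A) : cyM (S + T) = cyM S + cyM T := by simp [cyM]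

theorem cyM_cons {A : Type} (a : A) (S : Multiset A) :
    cyM (a ::ₘ S) = Finsupp.single a 1 + cyM S := by simp [cyM]

theorem cyM_singleton {A : Type} (a : A) : cyM ({a} : Multiset A) = Finsupp.single a 1 := by
  simp [cyM]

theorem cyM_replicate {A : Type} (n : ℕ) (a : A) :
    cyM (Multiset.replicate n a) = Finsupp.single a (n : ℤ) := by
  simp [cyM]

theorem cyM_nsmul {A : Type} (n : ℕ) (S : Multiset A) : cyM (n • S) = n • cyM S := by
  induction n with
  | zero => rw [zero_smul, zero_smul, cyM_zero]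
  | succ n ih => rw [succ_nsmul, succ_nsmul, cyM_add, ih]

theorem mapDomain_cyM {A B : Type} (c : A → B) (S : Multiset A) :
    Finsupp.mapDomain c (cyM S) = cyM (S.map c) := by
  induction S using Multiset.induction_on with
  | empty => simp [cyM]
  | cons a S ih => rw [cyM_cons, Multiset.map_cons, cyM_cons, Finsupp.mapDomain_add, ih,
      Finsupp.mapDomain_single]

section curve

variable {L : Type} [Field L] [Algebra k L] [IsAlgClosed k] [CharZero k] [IsFF k L]

theorem ddeg_cyM (S : Multiset (Place k L)) : ddeg (cyM S) = S.card := by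
  induction S using Multiset.induction_on with
  | empty => rw [cyM_zero, ddeg_zero]; simp
  | cons a S ih =>
    rw [cyM_cons, ddeg_add, ddeg_single, ih, deg_eq_one, Multiset.card_cons]
    push_cast
    ring

omit [IsAlgClosed k] in
theorem nd_eq_cyM (F : Place k L →₀ ℕ) : nd F = cyM (Finsupp.toMultiset F) := by
  induction F using Finsupp.induction_linear with
  | zero => simp [cyM]
  | add F G hF hG => rw [map_add, map_add, cyM_add, hF, hG]
  | single P n => rw [nd_single, Finsupp.toMultiset_single, cyM_nsmul, cyM_singleton]; simp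

/-- A divisor of degree larger than the constant of Riemann's theorem is equivalent to an effective
one. -/
theorem exists_effective {γ : ℤ} (hγ : ∀ D : Place k L →₀ ℤ, ddeg D - γ ≤ ell D)
    (D : Place k L →₀ ℤ) (hD : γ < ddeg D) :
    ∃ f : L, f ≠ 0 ∧ ∃ T : Multiset (Place k L), divisor k f + D = cyM T ∧
      (T.card : ℤ) = ddeg D := by
  obtain ⟨f, hf, hf0⟩ := exists_ne_zero_of_ell_pos (D := D) (by have := hγ D; omega)
  rw [mem_LL' hf0] at hf
  obtain ⟨F, hF⟩ := exists_nd hf
  rw [zero_add, nd_eq_cyM] at hF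
  refine ⟨f, hf0, Finsupp.toMultiset F, hF, ?_⟩
  rw [← ddeg_cyM, ← hF, ddeg_add, ddeg_divisor, zero_add]

end curve

/-- The effective zero-cycles on a curve. -/
theorem riemann_cycles [IsAlgClosed k] [CharZero k] {X C : Set (ℙ k (Fin (r + 1) → k))}
    (hC : IsVariety k {z : Fin 1 → ℙ k (Fin (r + 1) → k) | z 0 ∈ C} 1) (hCX : C ⊆ X) :
    ∃ (g : ℕ) (c0 : ℙ k (Fin (r + 1) → k)), c0 ∈ C ∧
      ∀ S : Multiset (ℙ k (Fin (r + 1) → k)), (∀ p ∈ S, p ∈ C) → g ≤ S.card →
        ∃ T : Multiset (ℙ k (Fin (r + 1) → k)), T.card = g ∧ (∀ p ∈ T, p ∈ C) ∧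
          cyM S - cyM (T + Multiset.replicate (S.card - g) c0) ∈ ratEquiv X := by
  classical
  obtain ⟨L, _, _, θ, hθ, hgen, htr, hCθ⟩ := hC
  have htr' : Algebra.trdeg k L = 1 := by rw [htr]; simp
  have hFF : IsFF k L := isFF_of_gen hgen htr'
  obtain ⟨γ, N, hγ, -⟩ := riemann k L
  have hplace : ∀ p : ℙ k (Fin (r + 1) → k), ∃ P : Place k L, p ∈ C → HasCentre P (θ 0) p := by
    intro p
    by_cases hp : p ∈ C
    · obtain ⟨P, hP⟩ := exists_place_of_point hgen htr' ((hCθ (fun _ => p)).1 hp)
      exact ⟨P, fun _ => hP⟩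
    · obtain ⟨P, -⟩ := exists_place (k := k) (K := L)
      exact ⟨P, fun h => absurd h hp⟩
  choose Q hQ using hplace
  have hcentre : ∀ P : Place k L, ∃ p, HasCentre P (θ 0) p ∧ p ∈ C := by
    intro P
    obtain ⟨p, hp⟩ := exists_centre P (hθ 0)
    refine ⟨p, hp, (hCθ (fun _ => p)).2 ?_⟩
    have h1 := hp.spz
    have h2 : θ = fun _ => θ 0 := by
      funext i
      rw [Subsingleton.elim i 0]
    have h3 : Spz k θ (fun _ : Fin 1 => p.rep) := by
      rw [h2]
      exact h1
    exact h3
  choose c hc hcC using hcentre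
  obtain ⟨P0, -⟩ := exists_place (k := k) (K := L)
  refine ⟨(γ + 1).toNat, c P0, hcC P0, fun S hS hg => ?_⟩
  set g := (γ + 1).toNat with hgdef
  have hg1 : γ + 1 ≤ g := Int.self_le_toNat _
  obtain ⟨f, hf0, T, hT, hTcard⟩ := exists_effective hγ
    (cyM (S.map Q) - cyM (Multiset.replicate (S.card - g) P0)) (by
      rw [ddeg_sub, ddeg_cyM, ddeg_cyM, Multiset.card_map, Multiset.card_replicate]
      omega)
  rw [ddeg_sub, ddeg_cyM, ddeg_cyM, Multiset.card_map, Multiset.card_replicate] at hTcard
  refine ⟨T.map c, by rw [Multiset.card_map]; omega, fun p hp => ?_, ?_⟩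
  · obtain ⟨P, -, rfl⟩ := Multiset.mem_map.1 hp
    exact hcC P
  · have h1 : Finsupp.mapDomain c (divisor k f) ∈ ratEquiv X :=
      AddSubgroup.subset_closure ⟨L, _, _, hFF, θ 0, f, c, hf0, fun P => ⟨hc P, hCX (hcC P)⟩, rfl⟩
    have h2 : divisor k f = cyM T - (cyM (S.map Q) - cyM (Multiset.replicate (S.card - g) P0)) := by
      rw [← hT]
      abel
    have h3 : (S.map Q).map c = S := by
      rw [Multiset.map_map]
      conv_rhs => rw [← Multiset.map_id S]
      refine Multiset.map_congr rfl fun p hp => ?_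
      exact (hc (Q p)).unique (hQ p (hS p hp))
    have h4 : Finsupp.mapDomain c (divisor k f) =
        cyM (T.map c) - (cyM S - cyM (Multiset.replicate (S.card - g) (c P0))) := by
      rw [h2]
      have h5 : ∀ A B : Place k L →₀ ℤ, Finsupp.mapDomain c (A - B) =
          Finsupp.mapDomain c A - Finsupp.mapDomain c B := fun A B =>
        map_sub (Finsupp.mapDomain.addMonoidHom c) A B
      rw [h5, h5, mapDomain_cyM, mapDomain_cyM, mapDomain_cyM, h3, Multiset.map_replicate]
    rw [h4] at h1
    have h5 := neg_mem h1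
    convert h5 using 1
    rw [cyM_add]
    abel

end Pool.Agent.K7.H3.ZC
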