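import Pool.Agent.K7.H3.ZC.Orbit
import Pool.Agent.K7.H3.ZC.Riem

/-!
# Finite-dimensionality
-/

set_option autoImplicit false

open MvPolynomial FF
open scoped LinearAlgebra.Projectivization

namespace Pool.Agent.K7.H3.ZC

/-- Multisets of a given cardinality. -/
theorem exists_fin_map {A : Type} (S : Multiset A) {n : ℕ} (h : S.card = n) :
    ∃ a : Fin n → A, S = Finset.univ.val.map a := by
  subst h
  induction S using Quotient.inductionOn with
  | h l =>
    refine ⟨fun i => l.get i, ?_⟩
    change (l : Multiset A) = _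
    rw [Fin.univ_val_map]
    simp

theorem cyM_map {A B : Type} (I : Finset B) (a : B → A) :
    cyM (I.val.map a) = ∑ i ∈ I, Finsupp.single (a i) (1 : ℤ) := by
  rw [cyM, Multiset.map_map]
  rfl

/-- Multisets and families. -/
theorem exists_finset_map {A B : Type} [Nonempty A] (I : Finset B) (S : Multiset A)
    (h : S.card = I.card) : ∃ a : B → A, S = I.val.map a := by
  classical
  induction I using Finset.induction_on generalizing S with
  | empty =>
    rw [Finset.card_empty, Multiset.card_eq_zero] at h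
    exact ⟨fun _ => Classical.arbitrary A, by rw [h]; rfl⟩
  | insert b I hb ih =>
    rw [Finset.card_insert_of_notMem hb] at h
    obtain ⟨x, T, rfl⟩ := Multiset.card_pos_iff_exists_mem.1 (show 0 < S.card by omega) |>.imp
      fun x hx => Multiset.exists_cons_of_mem hx
    rw [Multiset.card_cons] at h
    obtain ⟨a, ha⟩ := ih T (by omega)
    refine ⟨Function.update a b x, ?_⟩
    rw [Finset.insert_val_of_notMem hb, Multiset.map_cons, Function.update_self]
    congr 1
    rw [ha]
    refine Multiset.map_congr rfl fun c hc => ?_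
    rw [Function.update_of_ne]
    rintro rfl
    exact hb hc

/-- Reduction of effective cycles. -/
theorem reduce {A : Type} [Nonempty A] {B : Type} {I : Finset B} {X C : Set A}
    {R : AddSubgroup (A →₀ ℤ)}
    (H : ∀ a : B → A, (∀ i ∈ I, a i ∈ X) → ∃ v : B → A, (∀ i ∈ I, v i ∈ X) ∧
      (∃ i ∈ I, v i ∈ C) ∧ ∑ i ∈ I, Finsupp.single (a i) (1 : ℤ) -
        ∑ i ∈ I, Finsupp.single (v i) (1 : ℤ) ∈ R) (N : ℕ) :
    ∀ S : Multiset A, (∀ p ∈ S, p ∈ X) → S.card = N →
      ∃ Y Z : Multiset A, Y.card ≤ I.card ∧ (∀ p ∈ Y, p ∈ X) ∧ (∀ p ∈ Z, p ∈ C) ∧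
        Y.card + Z.card = N ∧ cyM S - cyM (Y + Z) ∈ R := by
  classical
  induction N with
  | zero =>
    intro S _ hS
    rw [Multiset.card_eq_zero] at hS
    subst hS
    exact ⟨0, 0, by simp, by simp, by simp, by simp, by simp [cyM]⟩
  | succ N ih =>
    intro S hSX hS
    by_cases hle : S.card ≤ I.card
    · exact ⟨S, 0, hle, hSX, by simp, by simpa using hS, by simp⟩
    push Not at hle
    obtain ⟨T, hTS, hT⟩ : ∃ T ≤ S, T.card = I.card := by
      have h1 : 0 < (Multiset.powersetCard I.card S).card := by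
        rw [Multiset.card_powersetCard]
        exact Nat.choose_pos hle.le
      obtain ⟨T, hT⟩ := Multiset.card_pos_iff_exists_mem.1 h1
      exact ⟨T, (Multiset.mem_powersetCard.1 hT).1, (Multiset.mem_powersetCard.1 hT).2⟩
    obtain ⟨U, rfl⟩ := Multiset.le_iff_exists_add.1 hTS
    obtain ⟨a, ha⟩ := exists_finset_map I T hT
    obtain ⟨v, hvX, ⟨i, hi, hiC⟩, hv⟩ := H a (fun i hi => hSX _ (by
      rw [Multiset.mem_add]
      left
      rw [ha]
      exact Multiset.mem_map_of_mem a hi))
    have hI : 0 < I.card := Finset.card_pos.2 ⟨i, hi⟩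
    obtain ⟨Y, Z, h1, h2, h3, h4, h5⟩ := ih ((I.erase i).val.map v + U) (by
      intro p hp
      rcases Multiset.mem_add.1 hp with hp | hp
      · obtain ⟨j, hj, rfl⟩ := Multiset.mem_map.1 hp
        exact hvX j (Finset.mem_of_mem_erase hj)
      · exact hSX p (Multiset.mem_add.2 (Or.inr hp))) (by
      rw [Multiset.card_add] at hS ⊢
      rw [Multiset.card_map, Finset.card_val, Finset.card_erase_of_mem hi]
      omega)
    refine ⟨Y, v i ::ₘ Z, h1, h2, fun p hp => ?_, ?_, ?_⟩
    · rcases Multiset.mem_cons.1 hp with rfl | hp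
      · exact hiC
      · exact h3 p hp
    · rw [Multiset.card_cons]
      omega
    · have h6 := add_mem hv h5
      convert h6 using 1
      rw [ha, cyM_add, cyM_add, cyM_cons, cyM_add, cyM_add, cyM_map, cyM_map,
        ← Finset.add_sum_erase I _ hi, ← Finset.add_sum_erase I (fun i => Finsupp.single (v i) (1 : ℤ)) hi]
      abel

theorem cyM_apply {A : Type} [DecidableEq A] (S : Multiset A) (p : A) :
    cyM S p = (S.count p : ℤ) := by
  induction S using Multiset.induction_on with
  | empty => simp [cyM]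
  | cons a S ih =>
    rw [cyM_cons, Finsupp.add_apply, ih, Multiset.count_cons, Finsupp.single_apply]
    by_cases h : a = p
    · subst h
      simp
      ring
    · rw [if_neg h, if_neg (fun h' => h h'.symm)]
      simp

theorem sum_cyM {A : Type} (S : Multiset A) : ((cyM S).sum fun _ a => a) = (S.card : ℤ) := by
  classical
  induction S using Multiset.induction_on with
  | empty => simp [cyM]
  | cons a S ih =>
    rw [cyM_cons, Finsupp.sum_add_index' (fun _ => rfl) (fun _ _ _ => rfl),
      Finsupp.sum_single_index rfl, ih, Multiset.card_cons]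
    push_cast
    ring

/-- A zero-cycle of degree zero is the difference of two effective cycles of the same degree. -/
theorem exists_diff {A : Type} {X : Set A} {Z : A →₀ ℤ} (hZ : ∀ p ∈ Z.support, p ∈ X)
    (h0 : (Z.sum fun _ a => a) = 0) : ∃ S T : Multiset A, (∀ p ∈ S, p ∈ X) ∧ (∀ p ∈ T, p ∈ X) ∧
      S.card = T.card ∧ Z = cyM S - cyM T := by
  classical
  have h1 : Z = cyM (Finsupp.toMultiset (Z.mapRange Int.toNat rfl)) -
      cyM (Finsupp.toMultiset ((-Z).mapRange Int.toNat rfl)) := by
    ext p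
    rw [Finsupp.sub_apply, cyM_apply, cyM_apply, Finsupp.count_toMultiset,
      Finsupp.count_toMultiset, Finsupp.mapRange_apply, Finsupp.mapRange_apply,
      Finsupp.neg_apply]
    omega
  refine ⟨Finsupp.toMultiset (Z.mapRange Int.toNat rfl),
    Finsupp.toMultiset ((-Z).mapRange Int.toNat rfl), ?_, ?_, ?_, h1⟩
  · intro p hp
    apply hZ
    rw [Finsupp.mem_toMultiset, Finsupp.mem_support_iff, Finsupp.mapRange_apply] at hp
    rw [Finsupp.mem_support_iff]
    intro h
    rw [h] at hp
    exact hp rfl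
  · intro p hp
    apply hZ
    rw [Finsupp.mem_toMultiset, Finsupp.mem_support_iff, Finsupp.mapRange_apply] at hp
    rw [Finsupp.mem_support_iff]
    intro h
    rw [Finsupp.neg_apply, h] at hp
    exact hp rfl
  · rw [h1, Finsupp.sum_sub_index (fun _ _ _ => rfl), sum_cyM, sum_cyM] at h0
    omega

/-- The main theorem. -/
theorem main {k : Type} [Field k] [IsAlgClosed k] [CharZero k] {r : ℕ}
    {X : Set (ℙ k (Fin (r + 1) → k))}
    (hX : IsVariety k {z : Fin 1 → ℙ k (Fin (r + 1) → k) | z 0 ∈ X} 2)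
    {h : MvPolynomial (Fin (r + 1)) k} {e : ℕ} (he : 0 < e) (hh : h.IsHomogeneous e)
    (hC : IsVariety k {z : Fin 1 → ℙ k (Fin (r + 1) → k) | z 0 ∈ X ∧ aeval (z 0).rep h = 0} 1)
    {n m : ℕ} {F : Set (Fin n → ℙ k (Fin (r + 1) → k))}
    (hF : IsVariety k F m) (hm : n < m) (hFX : ∀ z ∈ F, ∀ i, z i ∈ X)
    (hconst : ∀ z ∈ F, ∀ z' ∈ F, cycle z - cycle z' ∈ ratEquiv X) :
    IsFiniteDimensional X := by
  classical
  -- the curve is not the surface
  have hne : ∃ x ∈ X, aeval x.rep h ≠ 0 := by
    by_contra hcon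
    push Not at hcon
    have h1 : {z : Fin 1 → ℙ k (Fin (r + 1) → k) | z 0 ∈ X ∧ aeval (z 0).rep h = 0} =
        {z : Fin 1 → ℙ k (Fin (r + 1) → k) | z 0 ∈ X} := by
      ext z
      exact ⟨fun hz => hz.1, fun hz => ⟨hz, hcon _ hz⟩⟩
    rw [h1] at hC
    exact absurd (hX.dim_unique hC) (by omega)
  obtain ⟨I, hI⟩ := move hX he hh hne hF hm hFX hconst
  obtain ⟨g, c0, hc0, hg⟩ := riemann_cycles (X := X) (C := {x | x ∈ X ∧ aeval x.rep h = 0}) hC
    (fun x hx => hx.1)
  -- each effective cycle of large degree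
  have key : ∀ S : Multiset (ℙ k (Fin (r + 1) → k)), (∀ p ∈ S, p ∈ X) →
      I.card + g ≤ S.card → ∃ T : Multiset (ℙ k (Fin (r + 1) → k)), (∀ p ∈ T, p ∈ X) ∧
        T.card = I.card + g ∧
        cyM S - cyM (T + Multiset.replicate (S.card - (I.card + g)) c0) ∈ ratEquiv X := by
    intro S hS hcard
    have : Nonempty (ℙ k (Fin (r + 1) → k)) := ⟨c0⟩
    obtain ⟨Y, Z, h1, h2, h3, h4, h5⟩ := reduce (X := X)
      (C := {x : ℙ k (Fin (r + 1) → k) | x ∈ X ∧ aeval x.rep h = 0}) (I := I)
      (R := ratEquiv X) (fun a ha => by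
        obtain ⟨v, hv1, ⟨i, hi, hi'⟩, hv3⟩ := hI a ha
        exact ⟨v, hv1, ⟨i, hi, hv1 i hi, hi'⟩, hv3⟩) S.card S hS rfl
    obtain ⟨T, hT1, hT2, hT3⟩ := hg Z h3 (by omega)
    refine ⟨Y + T + Multiset.replicate (I.card - Y.card) c0, ?_, ?_, ?_⟩
    · intro p hp
      rcases Multiset.mem_add.1 hp with hp | hp
      · rcases Multiset.mem_add.1 hp with hp | hp
        · exact h2 p hp
        · exact (hT2 p hp).1
      · rw [Multiset.eq_of_mem_replicate hp]
        exact hc0.1
    · rw [Multiset.card_add, Multiset.card_add, Multiset.card_replicate]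
      omega
    · have h6 := add_mem h5 hT3
      convert h6 using 1
      have h7 : Z.card - g = (I.card - Y.card) + (S.card - (I.card + g)) := by omega
      rw [h7, Multiset.replicate_add]
      simp only [cyM_add]
      abel
  refine ⟨I.card + g, fun Z hZ h0 => ?_⟩
  obtain ⟨S, T, hS, hT, hcard, hZST⟩ := exists_diff hZ h0
  obtain ⟨S', hS1, hS2, hS3⟩ := key (S + Multiset.replicate (I.card + g) c0) (by
    intro p hp
    rcases Multiset.mem_add.1 hp with hp | hp
    · exact hS p hp
    · rw [Multiset.eq_of_mem_replicate hp]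
      exact hc0.1) (by rw [Multiset.card_add, Multiset.card_replicate]; omega)
  obtain ⟨T', hT1, hT2, hT3⟩ := key (T + Multiset.replicate (I.card + g) c0) (by
    intro p hp
    rcases Multiset.mem_add.1 hp with hp | hp
    · exact hT p hp
    · rw [Multiset.eq_of_mem_replicate hp]
      exact hc0.1) (by rw [Multiset.card_add, Multiset.card_replicate]; omega)
  obtain ⟨x, hx⟩ := exists_fin_map S' hS2
  obtain ⟨y, hy⟩ := exists_fin_map T' hT2
  refine ⟨x, y, fun i => hS1 _ ?_, fun i => hT1 _ ?_, ?_⟩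
  · rw [hx]
    exact Multiset.mem_map_of_mem x (Finset.mem_univ i)
  · rw [hy]
    exact Multiset.mem_map_of_mem y (Finset.mem_univ i)
  · have h1 := sub_mem hS3 hT3
    convert h1 using 1
    have h2 : cycle x = cyM S' := by rw [hx, cyM_map]; rfl
    have h3 : cycle y = cyM T' := by rw [hy, cyM_map]; rfl
    rw [h2, h3, hZST]
    simp only [cyM_add, Multiset.card_add, Multiset.card_replicate, hcard]
    abel

end Pool.Agent.K7.H3.ZC
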