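import Pool.Agent.K7.H3.ZC.Rel
import Pool.Agent.K7.H3.ZC.Fin

/-!
# Constant cycle families, in terms of generic points
-/

set_option autoImplicit false

open MvPolynomial FF
open scoped LinearAlgebra.Projectivization

namespace Pool.Agent.K7.H3.ZC

section poly

variable {ι : Type} [DecidableEq ι] {t : Finset ι → ℕ}

theorem poly_ind' (hsub : ∀ A B, t (A ∩ B) + t (A ∪ B) ≤ t A + t B) (h0 : t ∅ = 0)
    (h2 : ∀ i, t {i} ≤ 2) (J : Finset ι) :
    ∃ T ⊆ J, t T = 2 * T.card ∧ t J ≤ (J.filter fun i => t {i} ≠ 0).card + T.card := by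
  induction J using Finset.induction_on with
  | empty => exact ⟨∅, subset_rfl, by simp [h0], by simp [h0]⟩
  | insert a J ha ih =>
    obtain ⟨T, hTJ, hT, hJ⟩ := ih
    have h1 := hsub {a} J
    rw [← Finset.insert_eq] at h1
    by_cases hz : t {a} = 0
    · refine ⟨T, hTJ.trans (Finset.subset_insert a J), hT, ?_⟩
      rw [Finset.filter_insert, if_neg (by simpa using hz)]
      omega
    · have hcard : ((insert a J).filter fun i => t {i} ≠ 0).card =
          (J.filter fun i => t {i} ≠ 0).card + 1 := by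
        rw [Finset.filter_insert, if_pos hz, Finset.card_insert_of_notMem]
        exact fun h => ha (Finset.mem_of_mem_filter a h)
      rw [hcard]
      by_cases h : t (insert a J) ≤ t J + 1
      · exact ⟨T, hTJ.trans (Finset.subset_insert a J), hT, by omega⟩
      · push Not at h
        have haT : a ∉ T := fun h' => ha (hTJ h')
        have h3 := h2 a
        have h4 := hsub (insert a T) J
        have h5 : insert a T ∩ J = T := by
          ext x
          simp only [Finset.mem_inter, Finset.mem_insert]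
          constructor
          · rintro ⟨rfl | hx, hxJ⟩
            · exact absurd hxJ ha
            · exact hx
          · intro hx
            exact ⟨Or.inr hx, hTJ hx⟩
        have h6 : insert a T ∪ J = insert a J := by
          ext x
          simp only [Finset.mem_union, Finset.mem_insert]
          constructor
          · rintro ((rfl | hx) | hx)
            · exact Or.inl rfl
            · exact Or.inr (hTJ hx)
            · exact Or.inr hx
          · rintro (rfl | hx)
            · exact Or.inl (Or.inl rfl)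
            · exact Or.inr hx
        rw [h5, h6] at h4
        have h7 := poly_le hsub h0 h2 (insert a T)
        rw [Finset.card_insert_of_notMem haT] at h7
        refine ⟨insert a T, Finset.insert_subset_insert a hTJ, ?_, ?_⟩
        · rw [Finset.card_insert_of_notMem haT]
          omega
        · rw [Finset.card_insert_of_notMem haT]
          omega

theorem poly_lemma' [Fintype ι] (hsub : ∀ A B, t (A ∩ B) + t (A ∪ B) ≤ t A + t B) (h0 : t ∅ = 0)
    (h2 : ∀ i, t {i} ≤ 2)
    (hn : ((Finset.univ : Finset ι).filter fun i => t {i} ≠ 0).card < t Finset.univ) :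
    ∃ I : Finset ι, t I = 2 * I.card ∧ t Iᶜ < t Finset.univ := by
  classical
  obtain ⟨I, hI, hmax⟩ := Finset.exists_max_image
    ((Finset.univ : Finset (Finset ι)).filter fun I => t I = 2 * I.card) Finset.card
    ⟨∅, by simp [h0]⟩
  rw [Finset.mem_filter] at hI
  refine ⟨I, hI.2, ?_⟩
  obtain ⟨T, -, hT, hJ⟩ := poly_ind' hsub h0 h2 Iᶜ
  have h1 := hmax T (by rw [Finset.mem_filter]; exact ⟨Finset.mem_univ _, hT⟩)
  have h3 : I ⊆ (Finset.univ : Finset ι).filter fun i => t {i} ≠ 0 := by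
    intro i hi
    rw [Finset.mem_filter]
    refine ⟨Finset.mem_univ _, fun h => ?_⟩
    have h4 := hsub {i} (I.erase i)
    rw [← Finset.insert_eq, Finset.insert_erase hi] at h4
    have h5 := poly_le hsub h0 h2 (I.erase i)
    rw [Finset.card_erase_of_mem hi] at h5
    have h6 : 0 < I.card := Finset.card_pos.2 ⟨i, hi⟩
    omega
  have h4 : ((Iᶜ).filter fun i => t {i} ≠ 0) ∪ I ⊆
      (Finset.univ : Finset ι).filter fun i => t {i} ≠ 0 := by
    refine Finset.union_subset ?_ h3
    exact Finset.filter_subset_filter _ (Finset.subset_univ _)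
  have h5 : Disjoint ((Iᶜ).filter fun i => t {i} ≠ 0) I := by
    rw [Finset.disjoint_left]
    intro i hi hi'
    exact (Finset.mem_compl.1 (Finset.mem_of_mem_filter i hi)) hi'
  have h6 := Finset.card_le_card h4
  rw [Finset.card_union_of_disjoint h5] at h6
  omega

end poly

variable {k : Type} [Field k] {r : ℕ}

/-- The data of a surface: a generic point. -/
structure SurfaceData (k : Type) [Field k] {r : ℕ} (X : Set (ℙ k (Fin (r + 1) → k))) (K0 : Type)
    [Field K0] [Algebra k K0] (θ : Fin 1 → Fin (r + 1) → K0) : Prop where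
  gen : IntermediateField.adjoin k {x | ∃ i j l, x = θ i j / θ i l} = ⊤
  tr : Algebra.trdeg k K0 = (2 : ℕ)
  mem : ∀ x : ℙ k (Fin (r + 1) → k), x ∈ X ↔ Spz k θ (fun _ => x.rep)

theorem Spz.single {K L : Type} [Field K] [Algebra k K] [Field L] [Algebra k L] {ι : Type}
    {ξ : ι → Fin (r + 1) → K} {a : ι → Fin (r + 1) → L} (h : Spz k ξ a) (i : ι) :
    Spz k (fun _ : Fin 1 => ξ i) (fun _ => a i) := by
  classical
  rw [spz_one]
  intro g d hg h0
  have h1 := h (rename (fun j => (i, j)) g) (Pi.single i d) (multiHomogeneous_rename i hg) (by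
    rw [aeval_rename]; exact h0)
  rw [aeval_rename] at h1
  exact h1

variable {X : Set (ℙ k (Fin (r + 1) → k))} {K0 : Type} [Field K0] [Algebra k K0]
  {θ : Fin 1 → Fin (r + 1) → K0}

theorem SurfaceData.mem_of_spz (hX : SurfaceData k X K0 θ) {K : Type} [Field K] [Algebra k K]
    {ι : Type} {ξ : ι → Fin (r + 1) → K} (hspz : ∀ i, Spz k θ (fun _ => ξ i))
    {v : ι → Fin (r + 1) → k} (hv : ∀ i, v i ≠ 0) (h : Spz k ξ v) (i : ι) :
    Projectivization.mk k (v i) (hv i) ∈ X := by
  rw [hX.mem]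
  have h1 := (hspz i).trans (h.single i)
  exact h1.rep (fun _ => hv i)

/-- The condition that all specialisations of `ξ` over `k` have the same class. -/
def ConstClass (R : AddSubgroup (ℙ k (Fin (r + 1) → k) →₀ ℤ)) {K : Type} [Field K] [Algebra k K]
    {ι : Type} [Fintype ι] (ξ : ι → Fin (r + 1) → K) : Prop :=
  ∀ (v v' : ι → Fin (r + 1) → k) (hv : ∀ i, v i ≠ 0) (hv' : ∀ i, v' i ≠ 0),
    Spz k ξ v → Spz k ξ v' →
      ∑ i, Finsupp.single (Projectivization.mk k (v i) (hv i)) (1 : ℤ) -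
        ∑ i, Finsupp.single (Projectivization.mk k (v' i) (hv' i)) (1 : ℤ) ∈ R

theorem mk_eq_of_smul {v a : Fin (r + 1) → k} (hv : v ≠ 0) (ha : a ≠ 0) {c : k} (h : v = c • a) :
    Projectivization.mk k v hv = Projectivization.mk k a ha := by
  rw [Projectivization.mk_eq_mk_iff']
  exact ⟨c, h.symm⟩

/-- **Moving lemma** for constant cycle families of large dimension. -/
theorem move_core [IsAlgClosed k] (hX : SurfaceData k X K0 θ)
    {h : MvPolynomial (Fin (r + 1)) k} {e : ℕ} (he : 0 < e) (hh : h.IsHomogeneous e)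
    (hC : ∃ x ∈ X, aeval x.rep h ≠ 0) {ι : Type} [Fintype ι] [DecidableEq ι]
    {K : Type} [Field K] [Algebra k K] {ξ : ι → Fin (r + 1) → K} {b : ι → Fin (r + 1)}
    (hb : ∀ i, ξ i (b i) ≠ 0) (hspz : ∀ i, Spz k θ (fun _ => ξ i))
    (hlarge : ((Finset.univ : Finset ι).filter fun i => tt k b ξ {i} ≠ 0).card <
      tt k b ξ Finset.univ) {R : AddSubgroup (ℙ k (Fin (r + 1) → k) →₀ ℤ)}
    (hconst : ConstClass R ξ) :
    ∃ I : Finset ι, ∀ a : ι → ℙ k (Fin (r + 1) → k), (∀ i ∈ I, a i ∈ X) →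
      ∃ v : ι → ℙ k (Fin (r + 1) → k), (∀ i ∈ I, v i ∈ X) ∧
        (∃ i ∈ I, aeval (v i).rep h = 0) ∧
        ∑ i ∈ I, Finsupp.single (a i) (1 : ℤ) - ∑ i ∈ I, Finsupp.single (v i) (1 : ℤ) ∈ R := by
  have hξ : ∀ i, ξ i ≠ 0 := fun i h0 => hb i (congrFun h0 (b i))
  have hle : ∀ i, tt k b ξ {i} ≤ 2 := fun i => (rank_point hX.gen hX.tr (hspz i) (hb i)).1
  obtain ⟨I, hI, hIc⟩ := poly_lemma' (tt_submod (k := k) b ξ) (tt_empty b ξ) hle hlarge
  -- the points with index in `I` are generic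
  have hgenI : ∀ i ∈ I, Spz k (fun _ : Fin 1 => ξ i) θ := by
    intro i hi
    apply (rank_point hX.gen hX.tr (hspz i) (hb i)).2
    have h1 := tt_submod (k := k) b ξ {i} (I.erase i)
    rw [← Finset.insert_eq, Finset.insert_erase hi] at h1
    have h2 := poly_le (tt_submod (k := k) b ξ) (tt_empty b ξ) hle (I.erase i)
    rw [Finset.card_erase_of_mem hi] at h2
    have h3 : 0 < I.card := Finset.card_pos.2 ⟨i, hi⟩
    omega
  -- the form `h` does not vanish in the generic points
  have hhI : ∀ i ∈ I, aeval (ξ i) h ≠ 0 := by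
    intro i hi h0
    obtain ⟨x, hxX, hx⟩ := hC
    apply hx
    have h1 := (hX.mem x).1 hxX
    exact spz_one.1 ((hgenI i hi).trans h1) h e hh h0
  -- a coordinate which is not algebraic over the others
  obtain ⟨i, hi, j, hij⟩ : ∃ i ∈ I, ∃ j, ¬ IsAlgebraic (Algebra.adjoin k (ES b ξ Iᶜ))
      (ξ i j / ξ i (b i)) := by
    by_contra hcon
    push Not at hcon
    have h1 : rk k (ES b ξ Finset.univ) ≤ rk k (ES b ξ Iᶜ) := by
      apply rk_le_of_isAlgebraic
      rintro x ⟨i, -, j, rfl⟩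
      by_cases hi : i ∈ I
      · exact hcon i hi j
      · exact isAlgebraic_mem ⟨i, Finset.mem_compl.2 hi, j, rfl⟩
    rw [← coe_tt, ← coe_tt] at h1
    have h2 : tt k b ξ Finset.univ ≤ tt k b ξ Iᶜ := by exact_mod_cast h1
    omega
  refine ⟨I, fun a ha => ?_⟩
  obtain ⟨v, hv, hv1, hv2⟩ := extend_indep hξ (I := I) (b := b) (fun i _ => hb i) hI.ge
    (fun i _ => hle i) (a := fun i => (a i).rep) (fun i _ => (a i).rep_nonzero) (by
      intro i hi
      exact (hgenI i hi).trans ((hX.mem (a i)).1 (ha i hi)))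
  obtain ⟨v', hv', hv1', hv2', hv3'⟩ := cut hξ hv hv1 (J := Iᶜ) he hh (hhI i hi)
    (fun j _ => hb j) hij
  have heqI : ∀ i ∈ I, Projectivization.mk k (v i) (hv i) = a i := by
    intro i hi
    obtain ⟨c, hc⟩ := hv2 i hi
    rw [← (a i).mk_rep]
    exact mk_eq_of_smul _ _ hc
  have heqJ : ∀ j ∈ Iᶜ, Projectivization.mk k (v' j) (hv' j) = Projectivization.mk k (v j) (hv j) := by
    intro j hj
    obtain ⟨c, hc⟩ := hv2' j hj
    exact mk_eq_of_smul _ _ hc
  refine ⟨fun i => Projectivization.mk k (v' i) (hv' i),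
    fun i _ => hX.mem_of_spz hspz hv' hv1' i,
    ⟨i, hi, (aeval_rep_eq_zero hh (hv' i)).2 hv3'⟩, ?_⟩
  have h1 := hconst v v' hv hv' hv1 hv1'
  have e1 : ∑ i ∈ I, Finsupp.single (Projectivization.mk k (v i) (hv i)) (1 : ℤ) =
      ∑ i ∈ I, Finsupp.single (a i) (1 : ℤ) :=
    Finset.sum_congr rfl fun i hi => by rw [heqI i hi]
  have e2 : ∑ i ∈ Iᶜ, Finsupp.single (Projectivization.mk k (v' i) (hv' i)) (1 : ℤ) =
      ∑ i ∈ Iᶜ, Finsupp.single (Projectivization.mk k (v i) (hv i)) (1 : ℤ) :=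
    Finset.sum_congr rfl fun i hi => by rw [heqJ i hi]
  rw [← Finset.sum_add_sum_compl I, ← Finset.sum_add_sum_compl I, e1, e2,
    add_sub_add_right_eq_sub] at h1
  exact h1

/-- Finite-dimensionality from a moving lemma. -/
theorem finite_of_move [IsAlgClosed k] [CharZero k] {h : MvPolynomial (Fin (r + 1)) k}
    (hC : IsVariety k {z : Fin 1 → ℙ k (Fin (r + 1) → k) | z 0 ∈ X ∧ aeval (z 0).rep h = 0} 1)
    {ι : Type} {I : Finset ι}
    (hI : ∀ a : ι → ℙ k (Fin (r + 1) → k), (∀ i ∈ I, a i ∈ X) →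
      ∃ v : ι → ℙ k (Fin (r + 1) → k), (∀ i ∈ I, v i ∈ X) ∧
        (∃ i ∈ I, aeval (v i).rep h = 0) ∧
        ∑ i ∈ I, Finsupp.single (a i) (1 : ℤ) - ∑ i ∈ I, Finsupp.single (v i) (1 : ℤ) ∈
          ratEquiv X) : IsFiniteDimensional X := by
  classical
  obtain ⟨g, c0, hc0, hg⟩ := riemann_cycles (X := X) (C := {x | x ∈ X ∧ aeval x.rep h = 0}) hC
    (fun x hx => hx.1)
  have key : ∀ S : Multiset (ℙ k (Fin (r + 1) → k)), (∀ p ∈ S, p ∈ X) →
      I.card + g ≤ S.card → ∃ T : Multiset (ℙ k (Fin (r + 1) → k)), (∀ p ∈ T, p ∈ X) ∧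
        T.card = I.card + g ∧
        cyM S - cyM (T + Multiset.replicate (S.card - (I.card + g)) c0) ∈ ratEquiv X := by
    intro S hS hcard
    have : Nonempty (ℙ k (Fin (r + 1) → k)) := ⟨c0⟩
    obtain ⟨Y, Z, h1, h2, h3, h4, h5⟩ := reduce (X := X)
      (C := {x : ℙ k (Fin (r + 1) → k) | x ∈ X ∧ aeval x.rep h = 0}) (I := I)
      (R := ratEquiv X) (fun a ha => by
        obtain ⟨v, hv1, ⟨i, hi, hi'⟩, hv3⟩ := hI a ha
        exact ⟨v, hv1, ⟨i, hi, hv1 i hi, hi'⟩, hv3⟩) S.card S hS rfl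
    obtain ⟨T, hT1, hT2, hT3⟩ := hg Z h3 (by omega)
    refine ⟨Y + T + Multiset.replicate (I.card - Y.card) c0, ?_, ?_, ?_⟩
    · intro p hp
      rcases Multiset.mem_add.1 hp with hp | hp
      · rcases Multiset.mem_add.1 hp with hp | hp
        · exact h2 p hp
        · exact (hT2 p hp).1
      · rw [Multiset.eq_of_mem_replicate hp]
        exact hc0.1
    · rw [Multiset.card_add, Multiset.card_add, Multiset.card_replicate]
      omega
    · have h6 := add_mem h5 hT3
      convert h6 using 1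
      have h7 : Z.card - g = (I.card - Y.card) + (S.card - (I.card + g)) := by omega
      rw [h7, Multiset.replicate_add]
      simp only [cyM_add]
      abel
  refine ⟨I.card + g, fun Z hZ h0 => ?_⟩
  obtain ⟨S, T, hS, hT, hcard, hZST⟩ := exists_diff hZ h0
  obtain ⟨S', hS1, hS2, hS3⟩ := key (S + Multiset.replicate (I.card + g) c0) (by
    intro p hp
    rcases Multiset.mem_add.1 hp with hp | hp
    · exact hS p hp
    · rw [Multiset.eq_of_mem_replicate hp]
      exact hc0.1) (by rw [Multiset.card_add, Multiset.card_replicate]; omega)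
  obtain ⟨T', hT1, hT2, hT3⟩ := key (T + Multiset.replicate (I.card + g) c0) (by
    intro p hp
    rcases Multiset.mem_add.1 hp with hp | hp
    · exact hT p hp
    · rw [Multiset.eq_of_mem_replicate hp]
      exact hc0.1) (by rw [Multiset.card_add, Multiset.card_replicate]; omega)
  obtain ⟨x, hx⟩ := exists_fin_map S' hS2
  obtain ⟨y, hy⟩ := exists_fin_map T' hT2
  refine ⟨x, y, fun i => hS1 _ ?_, fun i => hT1 _ ?_, ?_⟩
  · rw [hx]
    exact Multiset.mem_map_of_mem x (Finset.mem_univ i)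
  · rw [hy]
    exact Multiset.mem_map_of_mem y (Finset.mem_univ i)
  · have h1 := sub_mem hS3 hT3
    convert h1 using 1
    have h2 : cycle x = cyM S' := by rw [hx, cyM_map]; rfl
    have h3 : cycle y = cyM T' := by rw [hy, cyM_map]; rfl
    rw [h2, h3, hZST]
    simp only [cyM_add, Multiset.card_add, Multiset.card_replicate, hcard]
    abel

/-- **The bound for the ranks** of constant cycle families, if `X` is infinite-dimensional. -/
theorem rank_bound [IsAlgClosed k] [CharZero k] (hX : SurfaceData k X K0 θ)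
    {h : MvPolynomial (Fin (r + 1)) k} {e : ℕ} (he : 0 < e) (hh : h.IsHomogeneous e)
    (hC : IsVariety k {z : Fin 1 → ℙ k (Fin (r + 1) → k) | z 0 ∈ X ∧ aeval (z 0).rep h = 0} 1)
    (hC' : ∃ x ∈ X, aeval x.rep h ≠ 0) (hinf : ¬ IsFiniteDimensional X)
    {ι : Type} [Fintype ι] [DecidableEq ι]
    {K : Type} [Field K] [Algebra k K] {ξ : ι → Fin (r + 1) → K} {b : ι → Fin (r + 1)}
    (hb : ∀ i, ξ i (b i) ≠ 0) (hspz : ∀ i, Spz k θ (fun _ => ξ i))
    (hconst : ConstClass (ratEquiv X) ξ) (B : Finset ι) :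
    tt k b ξ Finset.univ + B.card ≤ tt k b ξ B + Fintype.card ι := by
  classical
  by_contra hcon
  push Not at hcon
  apply hinf
  obtain ⟨κ, _, _, ρ, hρ, hρspz, hρB, hρtt⟩ := exists_fibre (k := k) hb B
  have hspz' : ∀ i, Spz k θ (fun _ => ρ i) := fun i => (hspz i).trans (hρspz.single i)
  have hcard : ((Finset.univ : Finset ι).filter fun i => tt k b ρ {i} ≠ 0).card + B.card ≤
      Fintype.card ι := by
    have h1 : Disjoint ((Finset.univ : Finset ι).filter fun i => tt k b ρ {i} ≠ 0) B := by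
      rw [Finset.disjoint_left]
      intro i hi hiB
      exact (Finset.mem_filter.1 hi).2 (hρB i hiB)
    rw [← Finset.card_union_of_disjoint h1]
    exact Finset.card_le_univ _
  obtain ⟨I, hI⟩ := move_core hX he hh hC' hρ hspz' (by omega) (R := ratEquiv X)
    (fun v v' hv hv' h1 h2 => hconst v v' hv hv' (hρspz.trans h1) (hρspz.trans h2))
  exact finite_of_move hC hI

/-- Constant cycle families meet the products of the curve, if `X` is infinite-dimensional. -/
theorem exists_on_curve [IsAlgClosed k] [CharZero k] (hX : SurfaceData k X K0 θ)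
    {h : MvPolynomial (Fin (r + 1)) k} {e : ℕ} (he : 0 < e) (hh : h.IsHomogeneous e)
    (hC : IsVariety k {z : Fin 1 → ℙ k (Fin (r + 1) → k) | z 0 ∈ X ∧ aeval (z 0).rep h = 0} 1)
    (hC' : ∃ x ∈ X, aeval x.rep h ≠ 0) (hinf : ¬ IsFiniteDimensional X)
    {ι : Type} [Fintype ι] [DecidableEq ι]
    {K : Type} [Field K] [Algebra k K] {ξ : ι → Fin (r + 1) → K} {b : ι → Fin (r + 1)}
    (hb : ∀ i, ξ i (b i) ≠ 0) (hspz : ∀ i, Spz k θ (fun _ => ξ i))
    (hconst : ConstClass (ratEquiv X) ξ) {f : ℕ} (hf : f ≤ tt k b ξ Finset.univ) :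
    ∃ v : ι → Fin (r + 1) → k, (∀ i, v i ≠ 0) ∧ Spz k ξ v ∧ ∃ A : Finset ι, A.card = f ∧
      ∀ i ∈ A, aeval (v i) h = 0 := by
  classical
  obtain ⟨A0, hA0, hA0'⟩ := exists_transversal_set (t := tt k b ξ) (f := f)
    (fun _ _ => tt_mono) (tt_submod (k := k) b ξ) (tt_empty b ξ) (fun B => by
      have := rank_bound hX he hh hC hC' hinf hb hspz hconst B
      omega)
  obtain ⟨A, hAA0, hA⟩ := Finset.exists_subset_card_eq hA0
  obtain ⟨φ, -⟩ := exists_hom_ne_zero (k := k) (K := K) (S := ∅) Set.finite_empty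
    (c := 1) one_ne_zero
  obtain ⟨v, hv, hv1, -, hv3⟩ := exists_put hb Set.finite_empty φ he hh (A := A) (by
    intro B hB
    have h1 := hA0' B (hB.trans hAA0)
    rw [Set.empty_union]
    have h2 : rk k (∅ : Set K) = 0 := Matroid.eRk_empty _
    rw [h2, add_zero, ← coe_tt]
    exact_mod_cast h1)
  exact ⟨v, hv, hv1, A, hA, hv3⟩

end Pool.Agent.K7.H3.ZC
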