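import Pool.Agent.K7.H3.ZC.Geo
import Pool.Agent.W585.RG.DOM

/-!
# Zero-cycles on a curve
-/

set_option autoImplicit false

open MvPolynomial FF
open scoped LinearAlgebra.Projectivization

namespace Pool.Agent.K7.H3.ZC

variable {k : Type} [Field k] {L : Type} [Field L] [Algebra k L] {r : ℕ}

section value

variable {P : Place k L}

theorem hasValue_iff {f : L} {w : k} : HasValue P f w ↔ P.Reg f ∧ P.red f = algebraMap k P.RF w := by
  constructor
  · intro h
    have hreg : P.Reg (f - algebraMap k L w) := by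
      rcases h with h | h
      · exact Or.inl h
      · exact Or.inr (by omega)
    have h1 : P.Reg f := by
      have := P.reg_add hreg (P.reg_const w)
      rwa [sub_add_cancel] at this
    refine ⟨h1, ?_⟩
    rw [Place.algebraMap_RF, ← sub_eq_zero, ← P.red_sub h1 (P.reg_const w), P.red_eq_zero_iff hreg]
    rcases h with h | h
    · exact Or.inl h
    · exact Or.inr (by omega)
  · rintro ⟨h1, h2⟩
    have hreg : P.Reg (f - algebraMap k L w) := by
      rw [sub_eq_add_neg]
      exact P.reg_add h1 (P.reg_neg (P.reg_const w))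
    rw [Place.algebraMap_RF, ← sub_eq_zero, ← P.red_sub h1 (P.reg_const w),
      P.red_eq_zero_iff hreg] at h2
    rcases h2 with h2 | h2
    · exact Or.inl h2
    · exact Or.inr (by omega)

theorem HasValue.unique {f : L} {w w' : k} (h : HasValue P f w) (h' : HasValue P f w') : w = w' := by
  have h1 := (hasValue_iff.1 h).2
  have h2 := (hasValue_iff.1 h').2
  exact (algebraMap k P.RF).injective (h1.symm.trans h2)

theorem HasValue.mul {f g : L} {w w' : k} (h : HasValue P f w) (h' : HasValue P g w') :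
    HasValue P (f * g) (w * w') := by
  rw [hasValue_iff] at *
  exact ⟨P.reg_mul h.1 h'.1, by rw [P.red_mul h.1 h'.1, h.2, h'.2, map_mul]⟩

theorem HasValue.add {f g : L} {w w' : k} (h : HasValue P f w) (h' : HasValue P g w') :
    HasValue P (f + g) (w + w') := by
  rw [hasValue_iff] at *
  exact ⟨P.reg_add h.1 h'.1, by rw [P.red_add h.1 h'.1, h.2, h'.2, map_add]⟩

theorem hasValue_const (w : k) : HasValue P (algebraMap k L w) w := Or.inl (sub_self _)

theorem HasValue.inv {f : L} {w : k} (h : HasValue P f w) (hw : w ≠ 0) :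
    HasValue P f⁻¹ w⁻¹ := by
  have hf : f ≠ 0 := by
    rintro rfl
    exact hw (h.unique (by simpa using hasValue_const (P := P) (0 : k)))
  have h1 := (hasValue_iff.1 h)
  have h2 : P.ord f = 0 := by
    have h3 : 0 ≤ P.ord f := (P.reg_iff hf).1 h1.1
    by_contra h4
    have h5 : P.red f = 0 := (P.red_eq_zero_iff h1.1).2 (Or.inr (by omega))
    rw [h1.2] at h5
    exact hw ((map_eq_zero _).1 h5)
  have hreg : P.Reg f⁻¹ := Or.inr (by rw [P.ord_inv, h2]; simp)
  rw [hasValue_iff]
  refine ⟨hreg, ?_⟩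
  have h3 : P.red f * P.red f⁻¹ = 1 := by
    rw [← P.red_mul h1.1 hreg, mul_inv_cancel₀ hf, P.red_one]
  rw [h1.2] at h3
  rw [map_inv₀]
  exact eq_inv_of_mul_eq_one_right h3

theorem HasValue.aeval {σ : Type} {y : σ → L} {w : σ → k} (h : ∀ s, HasValue P (y s) (w s))
    (G : MvPolynomial σ k) : HasValue P (aeval y G) (aeval w G) := by
  induction G using MvPolynomial.induction_on with
  | C a =>
    rw [aeval_C, aeval_C]
    exact hasValue_const a
  | add p q hp hq =>
    rw [map_add, map_add]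
    exact hp.add hq
  | mul_X p i hp =>
    rw [map_mul, map_mul, aeval_X, aeval_X]
    exact hp.mul (h i)

theorem exists_hasValue [IsAlgClosed k] [CharZero k] [IsFF k L] {f : L} (hf : P.Reg f) :
    ∃ w, HasValue P f w := by
  obtain ⟨w, hw⟩ := (IsAlgClosed.algebraMap_bijective_of_isIntegral (k := k) (K := P.RF)).2 (P.red f)
  exact ⟨w, hasValue_iff.2 ⟨hf, hw.symm⟩⟩

theorem deg_eq_one [IsAlgClosed k] [CharZero k] [IsFF k L] (P : Place k L) : P.deg = 1 := by
  have h1 : Function.Bijective (algebraMap k P.RF) :=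
    IsAlgClosed.algebraMap_bijective_of_isIntegral
  have h2 := (LinearEquiv.ofBijective (Algebra.linearMap k P.RF) h1).finrank_eq
  rw [Module.finrank_self] at h2
  exact h2.symm

/-- Each place has a centre. -/
theorem exists_centre [IsAlgClosed k] [CharZero k] [IsFF k L] (P : Place k L)
    {x : Fin (r + 1) → L} (hx : x ≠ 0) : ∃ p, HasCentre P x p := by
  classical
  obtain ⟨j, hj, hmin⟩ := Finset.exists_min_image (Finset.univ.filter fun j => x j ≠ 0)
    (fun j => P.ord (x j)) (by
      obtain ⟨j, hj⟩ := Function.ne_iff.1 hx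
      exact ⟨j, Finset.mem_filter.2 ⟨Finset.mem_univ _, hj⟩⟩)
  have hj0 : x j ≠ 0 := (Finset.mem_filter.1 hj).2
  have hreg : ∀ i, P.Reg ((x j)⁻¹ * x i) := by
    intro i
    by_cases hi : x i = 0
    · rw [hi, mul_zero]; exact P.reg_zero
    · right
      rw [P.ord_mul (inv_ne_zero hj0) hi, P.ord_inv]
      have := hmin i (Finset.mem_filter.2 ⟨Finset.mem_univ _, hi⟩)
      omega
  choose w hw using fun i => exists_hasValue (hreg i)
  have hwj : w j = 1 := by
    have h1 := hw j
    rw [inv_mul_cancel₀ hj0] at h1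
    have h2 : HasValue P (1 : L) (1 : k) := by simpa using hasValue_const (P := P) (1 : k)
    exact h1.unique h2
  have hw0 : w ≠ 0 := by
    intro h0
    rw [h0] at hwj
    exact zero_ne_one hwj
  obtain ⟨a, ha⟩ := Projectivization.exists_smul_eq_mk_rep k w hw0
  refine ⟨Projectivization.mk k w hw0, algebraMap k L a * (x j)⁻¹, fun i => ?_⟩
  rw [← ha, mul_assoc]
  exact (hasValue_const (a : k)).mul (hw i)

/-- The centre is unique. -/
theorem HasCentre.unique {x : Fin (r + 1) → L} {p q : ℙ k (Fin (r + 1) → k)}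
    (hp : HasCentre P x p) (hq : HasCentre P x q) : p = q := by
  obtain ⟨c, hc⟩ := hp
  obtain ⟨d, hd⟩ := hq
  obtain ⟨j, hj⟩ := Function.ne_iff.1 p.rep_nonzero
  have h1 := (hc j).inv hj
  have hcx : c * x j ≠ 0 := by
    intro h0
    have h2 := hc j
    rw [h0] at h2
    exact hj (h2.unique (by simpa using hasValue_const (P := P) (0 : k)))
  have h2 : ∀ i, HasValue P (d * x i) (q.rep j * (p.rep j)⁻¹ * p.rep i) := by
    intro i
    have h3 := ((hd j).mul h1).mul (hc i)
    have h4 : d * x j * (c * x j)⁻¹ * (c * x i) = d * x i := by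
      have hx : x j ≠ 0 := right_ne_zero_of_mul hcx
      have hc0 : c ≠ 0 := left_ne_zero_of_mul hcx
      field_simp
    rwa [h4] at h3
  have h3 : ∀ i, q.rep i = q.rep j * (p.rep j)⁻¹ * p.rep i := fun i => (hd i).unique (h2 i)
  rw [← p.mk_rep, ← q.mk_rep, eq_comm, Projectivization.mk_eq_mk_iff']
  refine ⟨q.rep j * (p.rep j)⁻¹, ?_⟩
  funext i
  rw [Pi.smul_apply, smul_eq_mul, ← h3 i]

/-- The centre satisfies the homogeneous equations of the point. -/
theorem HasCentre.spz {x : Fin (r + 1) → L} {p : ℙ k (Fin (r + 1) → k)}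
    (hp : HasCentre P x p) : Spz k (fun _ : Fin 1 => x) (fun _ => p.rep) := by
  rw [spz_one]
  intro h e hh h0
  obtain ⟨c, hc⟩ := hp
  have hc0 : c ≠ 0 := by
    rintro rfl
    apply p.rep_nonzero
    funext j
    have h1 := hc j
    rw [zero_mul] at h1
    exact h1.unique (by simpa using hasValue_const (P := P) (0 : k))
  have h1 : HasValue P (MvPolynomial.aeval (c • x) h) (MvPolynomial.aeval p.rep h) :=
    HasValue.aeval (fun j => hc j) h
  rw [(aeval_smul_eq_zero hh hc0).2 h0] at h1
  exact h1.unique (by simpa using hasValue_const (P := P) (0 : k))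

/-- The function field of a curve. -/
theorem isFF_of_gen {n : ℕ} {θ : Fin n → Fin (r + 1) → L}
    (hgen : IntermediateField.adjoin k {x | ∃ i j l, x = θ i j / θ i l} = ⊤)
    (htr : Algebra.trdeg k L = 1) : IsFF k L := by
  refine ⟨?_, htr⟩
  have hfin : {x : L | ∃ i j l, x = θ i j / θ i l}.Finite := by
    have h1 : {x : L | ∃ i j l, x = θ i j / θ i l} =
        Set.range (fun p : Fin n × Fin (r + 1) × Fin (r + 1) => θ p.1 p.2.1 / θ p.1 p.2.2) := by
      ext x
      constructor
      · rintro ⟨i, j, l, rfl⟩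
        exact ⟨(i, j, l), rfl⟩
      · rintro ⟨⟨i, j, l⟩, rfl⟩
        exact ⟨i, j, l, rfl⟩
    rw [h1]
    exact Set.finite_range _
  have h2 : (⊤ : IntermediateField k L).FG := ⟨hfin.toFinset, by rw [hfin.coe_toFinset]; exact hgen⟩
  have h3 := IntermediateField.essFiniteType_iff.2 h2
  exact Algebra.EssFiniteType.of_surjective (IntermediateField.topEquiv (F := k) (E := L)).toAlgHom
    (IntermediateField.topEquiv (F := k) (E := L)).surjective

/-- Each point of a curve is the centre of a place. -/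
theorem exists_place_of_point [IsAlgClosed k] [CharZero k] [IsFF k L]
    {θ : Fin 1 → Fin (r + 1) → L}
    (hgen : IntermediateField.adjoin k {x | ∃ i j l, x = θ i j / θ i l} = ⊤)
    (htr : Algebra.trdeg k L = 1) {p : ℙ k (Fin (r + 1) → k)}
    (hp : Spz k θ (fun _ => p.rep)) : ∃ P : Place k L, HasCentre P (θ 0) p := by
  obtain ⟨l, hl⟩ := Function.ne_iff.1 p.rep_nonzero
  have hθ : ∀ i, θ i l ≠ 0 := fun i => hp.ne_zero (i := i) hl
  obtain ⟨φ, hφ⟩ := exists_hom (k := k) (K := L) (L := k) (R := k) (σ := Fin 1 × Fin (r + 1))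
    (Algebra.ofId k L) (AlgHom.id k k) (η := aff (fun _ => l) θ)
    (α := aff (fun _ => l) (fun _ => p.rep)) (fun G hG =>
      hp.aff (fun _ => hl) G hG) (Algebra.adjoin k (ES (fun _ => l) θ Finset.univ)) (by
      intro x hx
      induction hx using Algebra.adjoin_induction with
      | mem x hx =>
        obtain ⟨i, -, j, rfl⟩ := hx
        exact ⟨X (i, j), by rw [eval₂_X]; rfl⟩
      | algebraMap c => exact ⟨C c, by rw [eval₂_C]; rfl⟩
      | add x y _ _ hx hy =>
        obtain ⟨G, hG⟩ := hx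
        obtain ⟨G', hG'⟩ := hy
        exact ⟨G + G', by rw [eval₂_add, hG, hG']⟩
      | mul x y _ _ hx hy =>
        obtain ⟨G, hG⟩ := hx
        obtain ⟨G', hG'⟩ := hy
        exact ⟨G * G', by rw [eval₂_mul, hG, hG']⟩)
  have hA : ∀ j, θ 0 j / θ 0 l ∈ Algebra.adjoin k (ES (fun _ => l) θ Finset.univ) := fun j =>
    mem_adjoin_ES (b := fun _ => l) (Finset.mem_univ 0) j
  have hφj : ∀ j, φ ⟨θ 0 j / θ 0 l, hA j⟩ = p.rep j / p.rep l := by
    intro j
    have h1 := hφ ⟨θ 0 j / θ 0 l, hA j⟩ (X (0, j)) (by rw [eval₂_X]; rfl)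
    rw [eval₂_X] at h1
    exact h1
  obtain ⟨V, hV1, hV2⟩ := exists_valuation_hom
    (A := (Algebra.adjoin k (ES (fun _ => l) θ Finset.univ)).toSubring)
    (φ : Algebra.adjoin k (ES (fun _ => l) θ Finset.univ) →+* k)
  have hsub : ∀ j, θ 0 j / θ 0 l - algebraMap k L (p.rep j / p.rep l) ∈ V.nonunits := by
    intro j
    have h1 := (hV2 (⟨θ 0 j / θ 0 l, hA j⟩ - algebraMap k _ (p.rep j / p.rep l) :
      Algebra.adjoin k (ES (fun _ => l) θ Finset.univ))).2 (by
        change φ (⟨θ 0 j / θ 0 l, hA j⟩ - algebraMap k _ (p.rep j / p.rep l)) = 0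
        rw [map_sub, hφj, AlgHom.commutes]
        exact sub_self _)
    exact h1
  -- a nonconstant coordinate
  obtain ⟨j, hj⟩ : ∃ j, θ 0 j / θ 0 l - algebraMap k L (p.rep j / p.rep l) ≠ 0 := by
    by_contra hcon
    push Not at hcon
    have h1 := tt_univ hgen (m := 1) (by rw [htr]; simp) hθ
    have h2 : rk k (ES (fun _ => l) θ Finset.univ) ≤ rk k (∅ : Set L) := by
      apply rk_le_of_isAlgebraic
      rintro x ⟨i, -, j, rfl⟩
      rw [Subsingleton.elim i 0, sub_eq_zero.1 (hcon j)]
      exact isAlgebraic_algebraMap (R := Algebra.adjoin k (∅ : Set L)) (A := L)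
        (algebraMap k _ _)
    rw [← coe_tt, h1, rk, Matroid.eRk_empty] at h2
    exact absurd h2 (by simp)
  obtain ⟨P, hP1, hP2⟩ := Pool.Agent.W585.RG.DOM.exists_place V (fun c => by
    rw [V.valuation_le_one_iff]
    exact hV1 (algebraMap k (Algebra.adjoin k (ES (fun _ => l) θ Finset.univ)) c).2) _ hj
    (by rw [← ValuationSubring.mem_nonunits_iff]; exact hsub j)
  refine ⟨P, algebraMap k L (p.rep l) * (θ 0 l)⁻¹, fun i => ?_⟩
  have h1 : HasValue P (θ 0 i / θ 0 l) (p.rep i / p.rep l) := by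
    by_cases h0 : θ 0 i / θ 0 l - algebraMap k L (p.rep i / p.rep l) = 0
    · exact Or.inl h0
    · right
      have h2 := hP2 _ h0 (by rw [← ValuationSubring.mem_nonunits_iff]; exact hsub i)
      omega
  have h2 := (hasValue_const (P := P) (p.rep l)).mul h1
  have h3 : p.rep l * (p.rep i / p.rep l) = p.rep i := by
    have : p.rep l ≠ 0 := hl
    field_simp
  rw [h3] at h2
  convert h2 using 1
  rw [div_eq_mul_inv]
  ring

end value

end Pool.Agent.K7.H3.ZC
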