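import Pool.Agent.K7.H3.ZC.Move
import Pool.Agent.Helper386.D5V.Helper386_FF_Riemann

/-!
# Varieties, zero-cycles and rational equivalence
-/

set_option autoImplicit false

open MvPolynomial FF
open scoped LinearAlgebra.Projectivization

namespace Pool.Agent.K7.H3.ZC

/-- The set `F` of points of `(ℙ^r)^n` over `k` is an irreducible closed subset of dimension `m`: there
is a generic point `ξ` in homogeneous coordinates, over the function field `K`, which is generated by
the ratios of the coordinates and has transcendence degree `m`, and `F` is the set of the points in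
which all multihomogeneous polynomials vanish which vanish in `ξ`. -/
def IsVariety (k : Type) [Field k] {n r : ℕ} (F : Set (Fin n → ℙ k (Fin (r + 1) → k)))
    (m : ℕ) : Prop :=
  ∃ (K : Type) (_ : Field K) (_ : Algebra k K) (ξ : Fin n → Fin (r + 1) → K),
    (∀ i, ξ i ≠ 0) ∧
    IntermediateField.adjoin k {x | ∃ i j l, x = ξ i j / ξ i l} = ⊤ ∧
    Algebra.trdeg k K = m ∧
    ∀ z, z ∈ F ↔ ∀ (G : MvPolynomial (Fin n × Fin (r + 1)) k) (d : Fin n → ℕ),
      MultiHomogeneous G d → aeval (fun p => ξ p.1 p.2) G = 0 →
        aeval (fun p => (z p.1).rep p.2) G = 0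

/-- The function `f` has the value `w` at the place `P`. -/
def HasValue {k L : Type} [Field k] [Field L] [Algebra k L] (P : Place k L) (f : L) (w : k) : Prop :=
  f - algebraMap k L w = 0 ∨ 1 ≤ P.ord (f - algebraMap k L w)

/-- The point `p` is the centre of the place `P`: the value at `P` of the point `x` of the projective
space over `L`. -/
def HasCentre {k L : Type} [Field k] [Field L] [Algebra k L] {r : ℕ} (P : Place k L)
    (x : Fin (r + 1) → L) (p : ℙ k (Fin (r + 1) → k)) : Prop :=
  ∃ c : L, ∀ j, HasValue P (c * x j) (p.rep j)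

/-- The zero-cycles on `X` which are rationally equivalent to zero: the group generated by the direct
images of the divisors of rational functions `h ≠ 0` on smooth projective curves (with the function
field `L`) under maps to `X` (given by points `x` over `L`; `c P` is the image of the point `P`). -/
noncomputable def ratEquiv {k : Type} [Field k] [CharZero k] {r : ℕ}
    (X : Set (ℙ k (Fin (r + 1) → k))) : AddSubgroup (ℙ k (Fin (r + 1) → k) →₀ ℤ) :=
  AddSubgroup.closure {Z | ∃ (L : Type) (_ : Field L) (_ : Algebra k L) (_ : IsFF k L)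
    (x : Fin (r + 1) → L) (h : L) (c : Place k L → ℙ k (Fin (r + 1) → k)),
    h ≠ 0 ∧ (∀ P, HasCentre P x (c P) ∧ c P ∈ X) ∧ Z = Finsupp.mapDomain c (divisor k h)}

/-- The zero-cycle `∑ [z i]`. -/
noncomputable def cycle {k : Type} [Field k] {n r : ℕ} (z : Fin n → ℙ k (Fin (r + 1) → k)) :
    ℙ k (Fin (r + 1) → k) →₀ ℤ :=
  ∑ i, Finsupp.single (z i) 1

/-- The group of the classes of zero-cycles on `X` is finite-dimensional in the sense of Mumford: for
some `M`, each zero-cycle of degree zero is rationally equivalent to the difference of two sums of `M`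
points, that is, the map from `S^M(X) × S^M(X)` to the group of the classes of degree zero is
surjective. -/
def IsFiniteDimensional {k : Type} [Field k] [CharZero k] {r : ℕ}
    (X : Set (ℙ k (Fin (r + 1) → k))) : Prop :=
  ∃ M : ℕ, ∀ Z : ℙ k (Fin (r + 1) → k) →₀ ℤ, (∀ p ∈ Z.support, p ∈ X) →
    (Z.sum fun _ a => a) = 0 → ∃ x y : Fin M → ℙ k (Fin (r + 1) → k),
      (∀ i, x i ∈ X) ∧ (∀ i, y i ∈ X) ∧ Z - (cycle x - cycle y) ∈ ratEquiv X

end Pool.Agent.K7.H3.ZC
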