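import Mathlib

/-!
# Specialisations of points of products of projective spaces
-/

set_option autoImplicit false

open MvPolynomial

namespace Pool.Agent.K7.H3.ZC

/-- `G` is homogeneous of degree `d i` in the `i`-th group of variables, for all `i`. -/
def MultiHomogeneous {ι : Type} {r : ℕ} {R : Type} [CommSemiring R]
    (G : MvPolynomial (ι × Fin (r + 1)) R) (d : ι → ℕ) : Prop :=
  ∀ m ∈ G.support, ∀ i, ∑ j, m (i, j) = d i

section scaling

variable {ι : Type} [Fintype ι] {r : ℕ}

theorem MultiHomogeneous.eval₂_smul {R S : Type} [CommSemiring R] [CommSemiring S] (f : R →+* S)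
    {G : MvPolynomial (ι × Fin (r + 1)) R} {d : ι → ℕ} (hG : MultiHomogeneous G d)
    (c : ι → S) (x : ι × Fin (r + 1) → S) :
    eval₂ f (fun p => c p.1 * x p) G = (∏ i, c i ^ d i) * eval₂ f x G := by
  classical
  rw [eval₂_eq', eval₂_eq', Finset.mul_sum]
  refine Finset.sum_congr rfl fun m hm => ?_
  have h1 : ∏ p : ι × Fin (r + 1), (c p.1 * x p) ^ m p =
      (∏ i, c i ^ d i) * ∏ p : ι × Fin (r + 1), x p ^ m p := by
    rw [Finset.prod_congr rfl fun p _ => mul_pow (c p.1) (x p) (m p), Finset.prod_mul_distrib]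
    congr 1
    rw [Fintype.prod_prod_type]
    refine Finset.prod_congr rfl fun i _ => ?_
    change ∏ j, c i ^ m (i, j) = _
    rw [Finset.prod_pow_eq_pow_sum, hG m hm i]
  rw [h1]
  ring

omit [Fintype ι] in
theorem MultiHomogeneous.map {R S : Type} [CommSemiring R] [CommSemiring S] (f : R →+* S)
    {G : MvPolynomial (ι × Fin (r + 1)) R} {d : ι → ℕ} (hG : MultiHomogeneous G d) :
    MultiHomogeneous (MvPolynomial.map f G) d := fun m hm =>
  hG m (support_map_subset f G hm)

/-- The homogenisation of a polynomial, where `b i` is the variable at infinity. -/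
noncomputable def homog {R : Type} [CommSemiring R] (b : ι → Fin (r + 1)) (D : ℕ)
    (g : MvPolynomial (ι × Fin (r + 1)) R) : MvPolynomial (ι × Fin (r + 1)) R :=
  ∑ m ∈ g.support, monomial (m + ∑ i, Finsupp.single (i, b i) (D - ∑ j, m (i, j))) (coeff m g)

theorem sum_block [DecidableEq ι] (b : ι → Fin (r + 1)) (e : ι → ℕ) (i : ι) :
    ∑ j, (∑ i', Finsupp.single (i', b i') (e i')) (i, j) = e i := by
  have h1 : ∀ j, (∑ i', Finsupp.single (i', b i') (e i')) (i, j) = if j = b i then e i else 0 := by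
    intro j
    rw [Finsupp.finsetSum_apply, Finset.sum_eq_single i]
    · rw [Finsupp.single_apply]
      by_cases h : j = b i
      · rw [if_pos h, if_pos (by rw [h])]
      · rw [if_neg h, if_neg (fun h' => h (by simpa using (Prod.ext_iff.1 h').2.symm))]
    · intro i' _ hne
      rw [Finsupp.single_apply, if_neg]
      intro h
      exact hne (Prod.ext_iff.1 h).1
    · intro h
      exact absurd (Finset.mem_univ i) h
  rw [Finset.sum_congr rfl fun j _ => h1 j, Finset.sum_ite_eq' Finset.univ (b i) (fun _ => e i),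
    if_pos (Finset.mem_univ _)]

theorem homog_multiHomogeneous {R : Type} [CommSemiring R] (b : ι → Fin (r + 1)) (D : ℕ)
    (g : MvPolynomial (ι × Fin (r + 1)) R) (hD : ∀ m ∈ g.support, ∀ i, ∑ j, m (i, j) ≤ D) :
    MultiHomogeneous (homog b D g) fun _ => D := by
  classical
  intro m' hm' i
  have h1 := Finset.mem_biUnion.1 (support_sum hm')
  obtain ⟨m, hm, h2⟩ := h1
  have h3 := Finset.mem_singleton.1 (support_monomial_subset h2)
  rw [h3]
  have h4 : ∑ j, (m + ∑ i, Finsupp.single (i, b i) (D - ∑ j, m (i, j))) (i, j) =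
      ∑ j, m (i, j) + (D - ∑ j, m (i, j)) := by
    rw [← sum_block b (fun i => D - ∑ j, m (i, j)) i, ← Finset.sum_add_distrib]
    rfl
  rw [h4]
  have := hD m hm i
  change _ = D
  omega

theorem homog_eval₂ {R S : Type} [CommSemiring R] [Field S] (f : R →+* S) (b : ι → Fin (r + 1))
    (D : ℕ) (g : MvPolynomial (ι × Fin (r + 1)) R) (hD : ∀ m ∈ g.support, ∀ i, ∑ j, m (i, j) ≤ D)
    (x : ι × Fin (r + 1) → S) (hx : ∀ i, x (i, b i) ≠ 0) :
    eval₂ f x (homog b D g) = (∏ i, x (i, b i) ^ D) * eval₂ f (fun p => x p / x (p.1, b p.1)) g := by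
  classical
  rw [homog, eval₂_sum, eval₂_eq' f _ g, Finset.mul_sum]
  refine Finset.sum_congr rfl fun m hm => ?_
  rw [eval₂_monomial, Finsupp.prod_add_index' (fun a => pow_zero _) (fun a b c => pow_add _ _ _),
    Finsupp.prod_fintype m _ (fun i => pow_zero _), Finsupp.prod_fintype _ _ (fun i => pow_zero _)]
  have h1 : ∏ p : ι × Fin (r + 1), x p ^ (∑ i, Finsupp.single (i, b i) (D - ∑ j, m (i, j))) p =
      ∏ i, x (i, b i) ^ (D - ∑ j, m (i, j)) := by
    rw [Fintype.prod_prod_type]
    refine Finset.prod_congr rfl fun i _ => ?_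
    rw [Finset.prod_eq_single (b i)]
    · congr 1
      rw [Finsupp.finsetSum_apply, Finset.sum_eq_single i]
      · rw [Finsupp.single_apply, if_pos rfl]
      · intro i' _ hne
        rw [Finsupp.single_apply, if_neg]
        intro h
        exact hne (Prod.ext_iff.1 h).1
      · intro h
        exact absurd (Finset.mem_univ i) h
    · intro j _ hj
      have : (∑ i, Finsupp.single (i, b i) (D - ∑ j, m (i, j))) (i, j) = 0 := by
        rw [Finsupp.finsetSum_apply]
        refine Finset.sum_eq_zero fun i' _ => ?_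
        rw [Finsupp.single_apply, if_neg]
        intro h
        have h2 : i' = i ∧ b i' = j := Prod.ext_iff.1 h
        refine hj ?_
        rw [← h2.2, ← h2.1]
      rw [this, pow_zero]
    · intro h
      exact absurd (Finset.mem_univ _) h
  have h2 : ∏ p : ι × Fin (r + 1), (x p / x (p.1, b p.1)) ^ m p =
      (∏ p : ι × Fin (r + 1), x p ^ m p) * ∏ i, (x (i, b i) ^ (∑ j, m (i, j)))⁻¹ := by
    rw [Finset.prod_congr rfl fun p _ => div_pow (x p) (x (p.1, b p.1)) (m p),
      Finset.prod_congr rfl fun p _ => div_eq_mul_inv _ _, Finset.prod_mul_distrib]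
    congr 1
    rw [Fintype.prod_prod_type]
    refine Finset.prod_congr rfl fun i _ => ?_
    change ∏ j, (x (i, b i) ^ m (i, j))⁻¹ = _
    rw [Finset.prod_inv_distrib, Finset.prod_pow_eq_pow_sum]
  rw [h1, h2]
  have h3 : ∏ i, x (i, b i) ^ (D - ∑ j, m (i, j)) =
      (∏ i, x (i, b i) ^ D) * ∏ i, (x (i, b i) ^ (∑ j, m (i, j)))⁻¹ := by
    rw [← Finset.prod_mul_distrib]
    refine Finset.prod_congr rfl fun i _ => ?_
    rw [pow_sub₀ _ (hx i) (hD m hm i)]
  rw [h3]
  ring

theorem exists_bound {R : Type} [CommSemiring R] (g : MvPolynomial (ι × Fin (r + 1)) R) :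
    ∃ D : ℕ, ∀ m ∈ g.support, ∀ i, ∑ j, m (i, j) ≤ D := by
  classical
  refine ⟨∑ m ∈ g.support, ∑ i, ∑ j, m (i, j), fun m hm i => ?_⟩
  calc ∑ j, m (i, j) ≤ ∑ i, ∑ j, m (i, j) :=
        Finset.single_le_sum (f := fun i => ∑ j, m (i, j)) (fun _ _ => Nat.zero_le _)
          (Finset.mem_univ i)
    _ ≤ _ := Finset.single_le_sum (f := fun m : ι × Fin (r + 1) →₀ ℕ => ∑ i, ∑ j, m (i, j))
          (fun _ _ => Nat.zero_le _) hm

end scaling

end Pool.Agent.K7.H3.ZC
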