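import Pool.Agent.K7.H3.ZC.Move

/-!
# The dimension of a general fibre
-/

set_option autoImplicit false

open MvPolynomial

namespace Pool.Agent.K7.H3.ZC

variable {k : Type} [Field k] {K : Type} [Field K] [Algebra k K] {ι : Type} {r : ℕ}

theorem exists_hom_ne_zero [IsAlgClosed k] {S : Set K} (hS : S.Finite) {c : Algebra.adjoin k S}
    (hc : c ≠ 0) : ∃ φ : Algebra.adjoin k S →ₐ[k] k, φ c ≠ 0 := by
  have hfin : Finite S := hS
  have hsurj : ∀ x ∈ Algebra.adjoin k S, ∃ G : MvPolynomial S k,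
      aeval (fun s : S => (s : K)) G = x := by
    intro x hx
    have h1 : Set.range (fun s : S => (s : K)) = S := Subtype.range_coe
    rw [← h1, Algebra.adjoin_range_eq_range_aeval] at hx
    exact hx
  obtain ⟨g, hg⟩ := hsurj c c.2
  have hprime : (RingHom.ker (aeval (fun s : S => (s : K)) : MvPolynomial S k →ₐ[k] K)).IsPrime :=
    RingHom.ker_isPrime _
  have hgn : g ∉ RingHom.ker (aeval (fun s : S => (s : K)) : MvPolynomial S k →ₐ[k] K) := by
    rw [RingHom.mem_ker, hg]
    intro h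
    exact hc (Subtype.ext h)
  obtain ⟨v, hv, hv0⟩ := exists_zero _ hgn
  obtain ⟨φ, hφ⟩ := exists_hom (k := k) (K := K) (L := k) (R := k) (σ := S)
    (Algebra.ofId k K) (AlgHom.id k k) (η := fun s => (s : K)) (α := v) (fun G hG =>
      hv G (RingHom.mem_ker.2 hG)) (Algebra.adjoin k S) hsurj
  refine ⟨φ, ?_⟩
  rw [hφ c g hg]
  exact hv0

/-- Residues of the points over the fields. -/
theorem exists_fibre [IsAlgClosed k] [Fintype ι] [DecidableEq ι] {ξ : ι → Fin (r + 1) → K}
    {b : ι → Fin (r + 1)} (hb : ∀ i, ξ i (b i) ≠ 0) (B : Finset ι) :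
    ∃ (κ : Type) (_ : Field κ) (_ : Algebra k κ) (ρ : ι → Fin (r + 1) → κ),
      (∀ i, ρ i (b i) ≠ 0) ∧ Spz k ξ ρ ∧ (∀ i ∈ B, tt k b ρ {i} = 0) ∧
      tt k b ξ Finset.univ ≤ tt k b ξ B + tt k b ρ Finset.univ := by
  classical
  set S := ES b ξ B with hSdef
  set T := ES b ξ Finset.univ with hTdef
  have hST : S ⊆ T := ES_mono (Finset.subset_univ B)
  set M := AlgebraicIndependent.matroid k K with hM
  obtain ⟨B0, hB0⟩ := M.exists_isBasis S
  obtain ⟨B1, hB1, hB01⟩ := hB0.indep.subset_isBasis_of_subset (hB0.subset.trans hST)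
  have hTfin : T.Finite := ES_finite b ξ Finset.univ
  have hB1fin : B1.Finite := hTfin.subset hB1.subset
  set Y := B1 \ B0 with hYdef
  have hYfin : Y.Finite := hB1fin.subset Set.sdiff_subset
  have hYfin' : Finite Y := hYfin
  have hcard : Y.encard + B0.encard = B1.encard := Set.encard_sdiff_add_encard_of_subset hB01
  have hrk1 : B1.encard = rk k T := hB1.encard_eq_eRk
  have hrk0 : B0.encard = rk k S := hB0.encard_eq_eRk
  have hYind : M.Indep Y := hB1.indep.subset Set.sdiff_subset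
  have hind : AlgebraicIndependent (Algebra.adjoin k S) (fun y : Y => (y : K)) := by
    refine indep_over (T := Y) (rk_ne_top (ES_finite b ξ B)) (rk_ne_top hYfin) ?_ hYind.isBasis_self
    have h1 : rk k Y = Y.encard := hYind.eRk_eq_encard
    have h2 : rk k B1 = B1.encard := hB1.indep.eRk_eq_encard
    rw [h1, ← hrk0, add_comm, hcard, ← h2]
    apply rk_mono
    intro x hx
    by_cases h : x ∈ B0
    · exact Or.inl (hB0.subset h)
    · exact Or.inr ⟨hx, h⟩
  -- the elements of `T` are algebraic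
  have halg : ∀ z ∈ T, IsAlgebraic (Algebra.adjoin k (S ∪ Y)) z := by
    intro z hz
    have h1 : z ∈ M.closure B1 := by
      rw [hB1.closure_eq_closure]
      exact M.mem_closure_of_mem hz
    have h2 : B1 ⊆ S ∪ Y := by
      intro x hx
      by_cases h : x ∈ B0
      · exact Or.inl (hB0.subset h)
      · exact Or.inr ⟨hx, h⟩
    exact mem_closure.1 (M.closure_subset_closure h2 h1)
  choose! p hp0 hp using halg
  -- the product of the leading coefficients
  obtain ⟨q, hq⟩ : ∃ q : Algebra.adjoin k (S ∪ Y),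
      q = ∏ z ∈ hTfin.toFinset, (p z).leadingCoeff := ⟨_, rfl⟩
  have hq0 : q ≠ 0 := by
    rw [hq, Finset.prod_ne_zero_iff]
    intro z hz
    rw [Ne, Polynomial.leadingCoeff_eq_zero]
    exact hp0 z (hTfin.mem_toFinset.1 hz)
  -- elements of the ring as polynomials in `Y` over `A`
  have hsurj : ∀ x ∈ Algebra.adjoin k (S ∪ Y), ∃ G : MvPolynomial Y (Algebra.adjoin k S),
      aeval (fun y : Y => (y : K)) G = x := by
    intro x hx
    induction hx using Algebra.adjoin_induction with
    | mem x hx =>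
      rcases hx with hx | hx
      · exact ⟨C ⟨x, Algebra.subset_adjoin hx⟩, by rw [aeval_C]; rfl⟩
      · exact ⟨X ⟨x, hx⟩, by rw [aeval_X]⟩
    | algebraMap c => exact ⟨C (algebraMap k _ c), by rw [aeval_C]; rfl⟩
    | add x y _ _ hx hy =>
      obtain ⟨G, hG⟩ := hx
      obtain ⟨G', hG'⟩ := hy
      exact ⟨G + G', by rw [map_add, hG, hG']⟩
    | mul x y _ _ hx hy =>
      obtain ⟨G, hG⟩ := hx
      obtain ⟨G', hG'⟩ := hy
      exact ⟨G * G', by rw [map_mul, hG, hG']⟩
  obtain ⟨Q, hQ⟩ := hsurj q q.2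
  have hQ0 : Q ≠ 0 := by
    rintro rfl
    rw [map_zero] at hQ
    exact hq0 (Subtype.ext hQ.symm)
  obtain ⟨m, hm⟩ := MvPolynomial.ne_zero_iff.1 hQ0
  obtain ⟨φ, hφ⟩ := exists_hom_ne_zero (ES_finite b ξ B) hm
  have hQφ : MvPolynomial.map (φ : Algebra.adjoin k S →+* k) Q ≠ 0 := by
    rw [MvPolynomial.ne_zero_iff]
    exact ⟨m, by rw [coeff_map]; exact hφ⟩
  -- the valuation ring
  let A1 : Subring K := (aeval (fun y : Y => (y : K)) :
    MvPolynomial Y (Algebra.adjoin k S) →ₐ[Algebra.adjoin k S] K).toRingHom.range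
  let e : MvPolynomial Y (Algebra.adjoin k S) ≃+* A1 :=
    RingEquiv.ofBijective (aeval (fun y : Y => (y : K)) :
      MvPolynomial Y (Algebra.adjoin k S) →ₐ[Algebra.adjoin k S] K).toRingHom.rangeRestrict
      ⟨fun a b h => hind (congrArg Subtype.val h), RingHom.rangeRestrict_surjective _⟩
  let ψ1 : A1 →+* MvPolynomial Y k :=
    (MvPolynomial.map (φ : Algebra.adjoin k S →+* k)).comp (e.symm : A1 →+* _)
  obtain ⟨V, hV1, hV2⟩ := exists_valuation_hom ψ1
  have he : ∀ g : MvPolynomial Y (Algebra.adjoin k S),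
      ((e g : A1) : K) = aeval (fun y : Y => (y : K)) g := fun g => rfl
  have hψ1 : ∀ g : MvPolynomial Y (Algebra.adjoin k S),
      ψ1 (e g) = MvPolynomial.map (φ : Algebra.adjoin k S →+* k) g := by
    intro g
    change MvPolynomial.map (φ : Algebra.adjoin k S →+* k) (e.symm (e g)) = _
    rw [e.symm_apply_apply]
  have hRV : ∀ x ∈ Algebra.adjoin k (S ∪ Y), x ∈ V := by
    intro x hx
    obtain ⟨G, hG⟩ := hsurj x hx
    rw [← hG, ← he]
    exact hV1 (e G).2
  have hmul : ∀ {a c : K}, a ∈ V.nonunits → c ∈ V → a * c ∈ V.nonunits := by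
    intro a c ha hc
    rw [ValuationSubring.mem_nonunits_iff] at ha ⊢
    rw [map_mul]
    exact mul_lt_one_of_lt_of_le ha ((V.valuation_le_one_iff _).2 hc)
  have hqV : (q : K) ∉ V.nonunits := by
    rw [← hQ, ← he, hV2, hψ1]
    exact hQφ
  have hlcV : ∀ z ∈ T, ((p z).leadingCoeff : K) ∉ V.nonunits := by
    intro z hz h
    apply hqV
    have h1 := Finset.mul_prod_erase hTfin.toFinset (fun z => (p z).leadingCoeff)
      (hTfin.mem_toFinset.2 hz)
    rw [hq, ← h1]
    have h2 : (((p z).leadingCoeff * ∏ x ∈ hTfin.toFinset.erase z, (p x).leadingCoeff :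
        Algebra.adjoin k (S ∪ Y)) : K) = ((p z).leadingCoeff : K) *
        ((∏ x ∈ hTfin.toFinset.erase z, (p x).leadingCoeff : Algebra.adjoin k (S ∪ Y)) : K) := rfl
    rw [h2]
    exact hmul h (hRV _ (Subtype.prop _))
  have hTV : ∀ z ∈ T, z ∈ V := by
    intro z hz
    let f : Algebra.adjoin k (S ∪ Y) →+* V := {
      toFun := fun a => ⟨a, hRV a a.2⟩
      map_one' := rfl
      map_mul' := fun _ _ => rfl
      map_zero' := rfl
      map_add' := fun _ _ => rfl }
    have hlc : ((p z).leadingCoeff : K) ≠ 0 := by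
      intro h
      exact hp0 z hz (Polynomial.leadingCoeff_eq_zero.1 (Subtype.ext h))
    have hlcinv : ((p z).leadingCoeff : K)⁻¹ ∈ V := by
      have h1 := hlcV z hz
      rw [ValuationSubring.mem_nonunits_iff, not_lt] at h1
      rw [← V.valuation_le_one_iff, map_inv₀]
      exact inv_le_one_of_one_le₀ h1
    have hint : IsIntegral V z := by
      refine ⟨Polynomial.C ⟨((p z).leadingCoeff : K)⁻¹, hlcinv⟩ * (p z).map f, ?_, ?_⟩
      · have hinj : Function.Injective f := fun a b h =>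
          Subtype.ext (congrArg (fun x : V => (x : K)) h)
        rw [Polynomial.Monic, Polynomial.leadingCoeff_mul, Polynomial.leadingCoeff_C,
          Polynomial.leadingCoeff_map_of_injective hinj]
        apply Subtype.ext
        exact inv_mul_cancel₀ hlc
      · rw [Polynomial.eval₂_mul, Polynomial.eval₂_map]
        have h1 : Polynomial.eval₂ ((algebraMap V K).comp f) z (p z) = 0 := hp z hz
        rw [h1, mul_zero]
    obtain ⟨y, hy⟩ := (IsIntegrallyClosed.isIntegral_iff (R := V) (K := K)).1 hint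
    rw [← hy]
    exact y.2
  -- the residue field
  have hAV : ∀ a : Algebra.adjoin k S, (a : K) ∈ V := fun a =>
    hRV _ (Algebra.adjoin_mono Set.subset_union_left a.2)
  let fA : Algebra.adjoin k S →+* V := {
    toFun := fun a => ⟨a, hAV a⟩
    map_one' := rfl
    map_mul' := fun _ _ => rfl
    map_zero' := rfl
    map_add' := fun _ _ => rfl }
  let fk : k →+* V := fA.comp (algebraMap k (Algebra.adjoin k S))
  let κ := IsLocalRing.ResidueField V
  let res : V →+* κ := IsLocalRing.residue V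
  let algκ : Algebra k κ := (res.comp fk).toAlgebra
  have hTj : ∀ i j, ξ i j / ξ i (b i) ∈ V := fun i j => hTV _ ⟨i, Finset.mem_univ i, j, rfl⟩
  let ρ : ι → Fin (r + 1) → κ := fun i j => res ⟨ξ i j / ξ i (b i), hTj i j⟩
  have hρb : ∀ i, ρ i (b i) = 1 := by
    intro i
    have h3 : (⟨ξ i (b i) / ξ i (b i), hTj i (b i)⟩ : V) = 1 := Subtype.ext (div_self (hb i))
    change res ⟨ξ i (b i) / ξ i (b i), hTj i (b i)⟩ = 1
    rw [h3, map_one]
  have haff : ∀ p : ι × Fin (r + 1), aff b ρ p = ρ p.1 p.2 := by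
    intro p
    change ρ p.1 p.2 / ρ p.1 (b p.1) = _
    rw [hρb, div_one]
  have heval : ∀ {σ : Type} (η : σ → V) (G : MvPolynomial σ k),
      aeval (fun s => (res (η s) : κ)) G = res (eval₂ fk η G) ∧
      ((eval₂ fk η G : V) : K) = aeval (fun s => (η s : K)) G := by
    intro σ η G
    refine ⟨?_, ?_⟩
    · exact (MvPolynomial.hom_eval₂ G fk res η).symm
    · exact MvPolynomial.hom_eval₂ G fk V.subtype η
  refine ⟨κ, inferInstance, algκ, ρ, fun i => by rw [hρb]; exact one_ne_zero, ?_, ?_, ?_⟩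
  · refine Spz.of_aff (b := b) hb (fun i => by rw [hρb]; exact one_ne_zero) fun g hg => ?_
    have h1 : aff b ρ = fun p : ι × Fin (r + 1) =>
        (res (⟨ξ p.1 p.2 / ξ p.1 (b p.1), hTj p.1 p.2⟩ : V) : κ) := by
      funext p
      exact haff p
    rw [h1]
    obtain ⟨h2, h3⟩ := heval (fun p : ι × Fin (r + 1) =>
      (⟨ξ p.1 p.2 / ξ p.1 (b p.1), hTj p.1 p.2⟩ : V)) g
    rw [h2]
    have h4 : eval₂ fk (fun p : ι × Fin (r + 1) =>
        (⟨ξ p.1 p.2 / ξ p.1 (b p.1), hTj p.1 p.2⟩ : V)) g = 0 := Subtype.ext (h3.trans hg)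
    rw [h4, map_zero]
  · intro i hi
    have h1 : ∀ j, ∃ c : k, ρ i j = algebraMap k κ c := by
      intro j
      have hmem : ξ i j / ξ i (b i) ∈ Algebra.adjoin k S := mem_adjoin_ES hi j
      refine ⟨φ ⟨ξ i j / ξ i (b i), hmem⟩, ?_⟩
      change res ⟨ξ i j / ξ i (b i), hTj i j⟩ = res (fk (φ ⟨ξ i j / ξ i (b i), hmem⟩))
      rw [← sub_eq_zero, ← map_sub]
      change IsLocalRing.residue V _ = 0
      rw [IsLocalRing.residue_eq_zero_iff]
      have h2 := (hV2 (e (C (⟨ξ i j / ξ i (b i), hmem⟩ -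
        algebraMap k _ (φ ⟨ξ i j / ξ i (b i), hmem⟩))))).2 (by
          rw [hψ1, map_C]
          simp)
      rw [he, aeval_C, ValuationSubring.mem_nonunits_iff_exists_mem_maximalIdeal] at h2
      obtain ⟨h3, h4⟩ := h2
      exact h4
    have h2 : rk k (ES b ρ {i}) ≤ rk k (∅ : Set κ) := by
      apply rk_le_of_isAlgebraic
      rintro x ⟨i', hi', j, rfl⟩
      rw [Finset.mem_singleton] at hi'
      subst hi'
      obtain ⟨c, hc⟩ := h1 j
      rw [hρb, div_one, hc]
      exact isAlgebraic_algebraMap (R := Algebra.adjoin k (∅ : Set κ)) (A := κ)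
        (algebraMap k _ _)
    rw [← coe_tt, rk, Matroid.eRk_empty] at h2
    have h3 : ((tt k b ρ {i} : ℕ) : ℕ∞) = 0 := le_antisymm h2 zero_le
    exact_mod_cast h3
  · -- the residues of `Y` are algebraically independent
    have hYV : ∀ y : Y, (y : K) ∈ V := fun y => hTV _ (hB1.subset y.2.1)
    have hYres : AlgebraicIndependent k (fun y : Y => (res ⟨(y : K), hYV y⟩ : κ)) := by
      rw [algebraicIndependent_iff]
      intro P hP
      obtain ⟨h2, h3⟩ := heval (fun y : Y => (⟨(y : K), hYV y⟩ : V)) P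
      rw [h2] at hP
      have h4 : (aeval (fun y : Y => (y : K)) P : K) ∈ V.nonunits := by
        rw [← h3, ValuationSubring.mem_nonunits_iff_exists_mem_maximalIdeal]
        refine ⟨Subtype.prop _, ?_⟩
        rw [← IsLocalRing.residue_eq_zero_iff]
        exact hP
      have h5 : (aeval (fun y : Y => (y : K)) P : K) =
          ((e (MvPolynomial.map (algebraMap k (Algebra.adjoin k S)) P) : A1) : K) := by
        rw [he, aeval_map_algebraMap]
      rw [h5, hV2, hψ1, MvPolynomial.map_map] at h4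
      have h6 : (φ : Algebra.adjoin k S →+* k).comp (algebraMap k (Algebra.adjoin k S)) =
          RingHom.id k := by
        ext c
        exact φ.commutes c
      rw [h6, MvPolynomial.map_id] at h4
      exact h4
    have h1 : Set.range (fun y : Y => (res ⟨(y : K), hYV y⟩ : κ)) ⊆ ES b ρ Finset.univ := by
      rintro _ ⟨⟨y, hy⟩, rfl⟩
      obtain ⟨i, hi, j, rfl⟩ := hB1.subset hy.1
      refine ⟨i, hi, j, ?_⟩
      rw [hρb, div_one]
    have h2 : (AlgebraicIndependent.matroid k κ).Indep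
        (Set.range (fun y : Y => (res ⟨(y : K), hYV y⟩ : κ))) := hYres.coe_range
    have h3 := h2.encard_le_eRk_of_subset h1
    have h4 : (Set.range (fun y : Y => (res ⟨(y : K), hYV y⟩ : κ))).encard = Y.encard := by
      rw [← Set.image_univ, hYres.injective.encard_image, Set.encard_univ, ENat.card_coe_set_eq]
    rw [h4] at h3
    have h5 : rk k T ≤ rk k S + rk k (ES b ρ Finset.univ) := by
      rw [← hrk1, ← hrk0, ← hcard, add_comm]
      exact add_le_add_right h3 _
    rw [hTdef, hSdef, ← coe_tt, ← coe_tt, ← coe_tt] at h5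
    exact_mod_cast h5

end Pool.Agent.K7.H3.ZC
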