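import Pool.Agent.K7.H3.ZC.Defs

/-!
# Generic points
-/

set_option autoImplicit false

open MvPolynomial FF
open scoped LinearAlgebra.Projectivization

namespace Pool.Agent.K7.H3.ZC

variable {k : Type} [Field k] {K : Type} [Field K] [Algebra k K] {L : Type} [Field L] [Algebra k L]
  {ι : Type} {r : ℕ}

theorem Spz.smul [Fintype ι] {ξ : ι → Fin (r + 1) → K} {a : ι → Fin (r + 1) → L}
    (h : Spz k ξ a) (c : ι → L) : Spz k ξ (fun i => c i • a i) := by
  intro G d hG h0
  have h1 := hG.aeval_smul c (fun p => a p.1 p.2)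
  rw [h G d hG h0, mul_zero] at h1
  exact h1

theorem Spz.of_smul [Fintype ι] {ξ : ι → Fin (r + 1) → K} {a : ι → Fin (r + 1) → L}
    {c : ι → L} (hc : ∀ i, c i ≠ 0) (h : Spz k ξ (fun i => c i • a i)) : Spz k ξ a := by
  have h1 := h.smul (fun i => (c i)⁻¹)
  have h2 : (fun i => (c i)⁻¹ • c i • a i) = a := by
    funext i
    rw [smul_smul, inv_mul_cancel₀ (hc i), one_smul]
  rwa [h2] at h1

theorem Spz.rep [Fintype ι] {ξ : ι → Fin (r + 1) → K} {v : ι → Fin (r + 1) → k}
    (h : Spz k ξ v) (hv : ∀ i, v i ≠ 0) :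
    Spz k ξ (fun i => (Projectivization.mk k (v i) (hv i)).rep) := by
  have h1 : ∀ i, ∃ a : kˣ, a • v i = (Projectivization.mk k (v i) (hv i)).rep := fun i =>
    Projectivization.exists_smul_eq_mk_rep k (v i) (hv i)
  choose a ha using h1
  have h2 := h.smul (fun i => (a i : k))
  convert h2 using 2 with i
  exact (ha i).symm

/-- A homogeneous polynomial vanishes at a representative if and only if it vanishes at another. -/
theorem aeval_smul_eq_zero {h : MvPolynomial (Fin (r + 1)) k} {e : ℕ} (hh : h.IsHomogeneous e)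
    {c : K} (hc : c ≠ 0) {v : Fin (r + 1) → K} : aeval (c • v) h = 0 ↔ aeval v h = 0 := by
  have h1 : aeval (c • v) h = c ^ e * aeval v h := by
    rw [aeval_def, aeval_def, eval₂_eq', eval₂_eq', Finset.mul_sum]
    refine Finset.sum_congr rfl fun m hm => ?_
    have h2 : ∏ i, (c • v) i ^ m i = c ^ e * ∏ i, v i ^ m i := by
      have h3 : ∑ i, m i = e := by
        rw [← Finsupp.degree_eq_sum, Finsupp.degree_eq_weight_one]
        exact hh (mem_support_iff.1 hm)
      rw [← h3, ← Finset.prod_pow_eq_pow_sum, ← Finset.prod_mul_distrib]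
      refine Finset.prod_congr rfl fun i _ => ?_
      rw [Pi.smul_apply, smul_eq_mul, mul_pow]
    rw [h2]
    ring
  rw [h1, mul_eq_zero, or_iff_right (pow_ne_zero _ hc)]

theorem aeval_rep_eq_zero {h : MvPolynomial (Fin (r + 1)) k} {e : ℕ} (hh : h.IsHomogeneous e)
    {v : Fin (r + 1) → k} (hv : v ≠ 0) :
    aeval (Projectivization.mk k v hv).rep h = 0 ↔ aeval v h = 0 := by
  obtain ⟨a, ha⟩ := Projectivization.exists_smul_eq_mk_rep k v hv
  rw [← ha]
  exact aeval_smul_eq_zero hh a.ne_zero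

/-- The specialisations of one point, by homogeneous polynomials. -/
theorem spz_one {θ : Fin 1 → Fin (r + 1) → K} {a : Fin (r + 1) → L} :
    Spz k θ (fun _ => a) ↔ ∀ (h : MvPolynomial (Fin (r + 1)) k) (e : ℕ), h.IsHomogeneous e →
      aeval (θ 0) h = 0 → aeval a h = 0 := by
  classical
  constructor
  · intro H h e hh h0
    have h1 := H (rename (fun j => ((0 : Fin 1), j)) h) (Pi.single 0 e)
      (multiHomogeneous_rename 0 hh) (by rw [aeval_rename]; exact h0)
    rw [aeval_rename] at h1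
    exact h1
  · intro H G d hG h0
    have h1 : (rename Prod.snd G : MvPolynomial (Fin (r + 1)) k).IsHomogeneous (d 0) := by
      intro m hm
      have hinj : Function.Injective (Prod.snd : Fin 1 × Fin (r + 1) → Fin (r + 1)) := by
        rintro ⟨a, b⟩ ⟨a', b'⟩ hab
        exact Prod.ext (Subsingleton.elim _ _) hab
      have hm' := mem_support_iff.2 hm
      rw [support_rename_of_injective hinj] at hm'
      obtain ⟨m', hm'', rfl⟩ := Finset.mem_image.1 hm'
      have h2 := hG m' hm'' 0
      have h3 : (Finsupp.weight 1) (Finsupp.mapDomain Prod.snd m') =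
          (Finsupp.mapDomain Prod.snd m' : Fin (r + 1) →₀ ℕ).degree := by
        rw [Finsupp.degree_eq_weight_one]
        rfl
      rw [h3, Finsupp.degree_eq_sum, ← h2]
      refine Finset.sum_congr rfl fun j _ => ?_
      exact Finsupp.mapDomain_apply hinj m' (0, j)
    have h2 : ∀ (M : Type) [Field M] [Algebra k M] (a : Fin (r + 1) → M),
        aeval a (rename Prod.snd G : MvPolynomial (Fin (r + 1)) k) =
        aeval (fun p : Fin 1 × Fin (r + 1) => a p.2) G := by
      intro M _ _ a
      rw [aeval_rename]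
      rfl
    have h3 : (fun p : Fin 1 × Fin (r + 1) => θ 0 p.2) = fun p => θ p.1 p.2 := by
      funext p
      rw [Subsingleton.elim p.1 0]
    have h4 := H _ _ h1 (by rw [h2, h3]; exact h0)
    rw [h2] at h4
    exact h4

/-- The rank of the coordinates of a generic point is the dimension. -/
theorem tt_univ {n : ℕ} {ξ : Fin n → Fin (r + 1) → K} {m : ℕ}
    (hgen : IntermediateField.adjoin k {x | ∃ i j l, x = ξ i j / ξ i l} = ⊤)
    (htr : Algebra.trdeg k K = m) {b : Fin n → Fin (r + 1)} (hb : ∀ i, ξ i (b i) ≠ 0) :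
    tt k b ξ Finset.univ = m := by
  have halg : Algebra.IsAlgebraic (Algebra.adjoin k (ES b ξ Finset.univ)) K := by
    refine ⟨fun x => ?_⟩
    have hx : x ∈ IntermediateField.adjoin k {x | ∃ i j l, x = ξ i j / ξ i l} := by
      rw [hgen]; trivial
    induction hx using IntermediateField.adjoin_induction with
    | mem x hx =>
      obtain ⟨i, j, l, rfl⟩ := hx
      exact isAlgebraic_ratio (Finset.mem_univ i) (hb i) j l
    | algebraMap c =>
      exact isAlgebraic_algebraMap (R := Algebra.adjoin k (ES b ξ Finset.univ)) (A := K)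
        (algebraMap k (Algebra.adjoin k (ES b ξ Finset.univ)) c)
    | add x y _ _ hx hy => exact hx.add hy
    | inv x _ hx => exact hx.inv
    | mul x y _ _ hx hy => exact hx.mul hy
  have h1 := AlgebraicIndependent.matroid_spanning_iff.2 halg
  have h2 := h1.eRk_eq
  rw [← Matroid.toENat_cRank_eq, AlgebraicIndependent.matroid_cRank_eq, htr] at h2
  rw [tt, rk, h2]
  simp

theorem ES_singleton (b : ι → Fin (r + 1)) (ξ : ι → Fin (r + 1) → K) (i : ι) :
    ES b ξ {i} = Set.range fun j => ξ i j / ξ i (b i) := by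
  ext x
  constructor
  · rintro ⟨i', hi', j, rfl⟩
    rw [Finset.mem_singleton] at hi'
    subst hi'
    exact ⟨j, rfl⟩
  · rintro ⟨j, rfl⟩
    exact ⟨i, Finset.mem_singleton_self i, j, rfl⟩

/-- The rank of a point of `X` is at most the dimension of `X`, with equality for generic points. -/
theorem rank_point {θ : Fin 1 → Fin (r + 1) → L} {m : ℕ}
    (hgen : IntermediateField.adjoin k {x | ∃ i j l, x = θ i j / θ i l} = ⊤)
    (htr : Algebra.trdeg k L = m) {ξ : ι → Fin (r + 1) → K} {i : ι}
    (hspz : Spz k θ (fun _ => ξ i)) {b : ι → Fin (r + 1)} (hb : ξ i (b i) ≠ 0) :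
    tt k b ξ {i} ≤ m ∧ (m ≤ tt k b ξ {i} → Spz k (fun _ : Fin 1 => ξ i) θ) := by
  have hθ : ∀ i', θ i' (b i) ≠ 0 := fun i' => hspz.ne_zero (i := i') hb
  have h1 : tt k (fun _ => b i) θ Finset.univ = m := tt_univ hgen htr hθ
  have h2 : rk k (Set.range (aff (fun _ => b i) θ)) = m := by
    rw [← h1, coe_tt]
    congr 1
    ext x
    constructor
    · rintro ⟨p, rfl⟩
      exact ⟨p.1, Finset.mem_univ _, p.2, rfl⟩
    · rintro ⟨i', -, j, rfl⟩
      exact ⟨(i', j), rfl⟩
  have h3 : rk k (Set.range (aff (fun _ : Fin 1 => b i) (fun _ => ξ i))) = tt k b ξ {i} := by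
    rw [coe_tt, ES_singleton]
    congr 1
    ext x
    constructor
    · rintro ⟨p, rfl⟩
      exact ⟨p.2, rfl⟩
    · rintro ⟨j, rfl⟩
      exact ⟨(0, j), rfl⟩
  have H := fun G => hspz.aff (b := fun _ => b i) (fun _ => hb) G
  refine ⟨?_, fun hle => ?_⟩
  · have h4 := rk_le_of_spz H
    rw [h2, h3] at h4
    exact_mod_cast h4
  · have h4 := spz_symm H (by rw [h2, h3]; exact_mod_cast hle) (by
      rw [h2]; exact ENat.natCast_ne_top m)
    exact Spz.of_aff (fun _ => hb) hθ h4

/-- The function field determines the dimension. -/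
theorem IsVariety.dim_unique [IsAlgClosed k] {n : ℕ} {F : Set (Fin n → ℙ k (Fin (r + 1) → k))}
    {m m' : ℕ} (h : IsVariety k F m) (h' : IsVariety k F m') : m ≤ m' := by
  obtain ⟨K, _, _, ξ, hξ, hgen, htr, hF⟩ := h
  obtain ⟨K', _, _, ξ', hξ', hgen', htr', hF'⟩ := h'
  obtain ⟨b, hb⟩ := exists_chart hξ
  have hspz : Spz k ξ' ξ := by
    intro G d hG h0
    by_contra hne
    obtain ⟨v, hv, hv1, hv2⟩ := exists_point hξ hG hne
    apply hv2
    have h1 : (fun i => Projectivization.mk k (v i) (hv i)) ∈ F := (hF _).2 (hv1.rep hv)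
    have h2 := (hF' _).1 h1 G d hG h0
    have h3 : ∀ i, ∃ a : kˣ, a • v i = (Projectivization.mk k (v i) (hv i)).rep := fun i =>
      Projectivization.exists_smul_eq_mk_rep k (v i) (hv i)
    choose a ha using h3
    have h4 := hG.aeval_smul (fun i => (a i : k)) (fun p => v p.1 p.2)
    have h5 : (fun p : Fin n × Fin (r + 1) => (a p.1 : k) * v p.1 p.2) =
        fun p => (Projectivization.mk k (v p.1) (hv p.1)).rep p.2 := by
      funext p
      rw [← ha p.1]
      rfl
    rw [h5, h2] at h4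
    exact (mul_eq_zero.1 h4.symm).resolve_left
      (Finset.prod_ne_zero_iff.2 fun i _ => pow_ne_zero _ (a i).ne_zero)
  have hb' : ∀ i, ξ' i (b i) ≠ 0 := fun i => hspz.ne_zero (hb i)
  have H := fun G => hspz.aff hb G
  have h4 := rk_le_of_spz H
  have h5 : ∀ {K : Type} [Field K] [Algebra k K] (ξ : Fin n → Fin (r + 1) → K),
      Set.range (aff b ξ) = ES b ξ Finset.univ := by
    intro K _ _ ξ
    ext x
    constructor
    · rintro ⟨p, rfl⟩
      exact ⟨p.1, Finset.mem_univ _, p.2, rfl⟩
    · rintro ⟨i', -, j, rfl⟩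
      exact ⟨(i', j), rfl⟩
  rw [h5, h5, ← coe_tt, ← coe_tt, tt_univ hgen htr hb, tt_univ hgen' htr' hb'] at h4
  exact_mod_cast h4

end Pool.Agent.K7.H3.ZC
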