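import Pool.Agent.K7.H3.ZC.Geo

/-!
# Constant cycle subvarieties of large dimension
-/

set_option autoImplicit false

open MvPolynomial FF
open scoped LinearAlgebra.Projectivization

namespace Pool.Agent.K7.H3.ZC

variable {k : Type} [Field k] {r : ℕ}

/-- If a constant cycle subvariety `F` of `X ^ n` has dimension larger than `n`, then there is a number
`s` such that each sum of `s` points of `X` is equivalent to a sum of `s` points of which one is on the
given hypersurface section. -/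
theorem move [IsAlgClosed k] {X : Set (ℙ k (Fin (r + 1) → k))}
    (hX : IsVariety k {z : Fin 1 → ℙ k (Fin (r + 1) → k) | z 0 ∈ X} 2)
    {h : MvPolynomial (Fin (r + 1)) k} {e : ℕ} (he : 0 < e) (hh : h.IsHomogeneous e)
    (hC : ∃ x ∈ X, aeval x.rep h ≠ 0) {n m : ℕ} {F : Set (Fin n → ℙ k (Fin (r + 1) → k))}
    (hF : IsVariety k F m) (hm : n < m) (hFX : ∀ z ∈ F, ∀ i, z i ∈ X)
    {R : AddSubgroup (ℙ k (Fin (r + 1) → k) →₀ ℤ)}
    (hconst : ∀ z ∈ F, ∀ z' ∈ F, cycle z - cycle z' ∈ R) :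
    ∃ I : Finset (Fin n), ∀ a : Fin n → ℙ k (Fin (r + 1) → k), (∀ i ∈ I, a i ∈ X) →
      ∃ v : Fin n → ℙ k (Fin (r + 1) → k), (∀ i ∈ I, v i ∈ X) ∧
        (∃ i ∈ I, aeval (v i).rep h = 0) ∧
        ∑ i ∈ I, Finsupp.single (a i) (1 : ℤ) - ∑ i ∈ I, Finsupp.single (v i) (1 : ℤ) ∈ R := by
  obtain ⟨K0, _, _, θ, hθ, hgenθ, htrθ, hXθ⟩ := hX
  obtain ⟨K, _, _, ξ, hξ, hgen, htr, hFξ⟩ := hF
  -- the coordinates of the generic point of `F` are points of `X`
  have hspz : ∀ i, Spz k θ (fun _ => ξ i) := by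
    intro i
    rw [spz_one]
    intro g d hg h0
    by_contra hne
    obtain ⟨v, hv, hv1, hv2⟩ := exists_point hξ (multiHomogeneous_rename i hg) (by
      rw [aeval_rename]; exact hne)
    rw [aeval_rename] at hv2
    apply hv2
    have h1 : (fun i => Projectivization.mk k (v i) (hv i)) ∈ F := (hFξ _).2 (hv1.rep hv)
    have h2 := hFX _ h1 i
    have h3 := (hXθ (fun _ => Projectivization.mk k (v i) (hv i))).1 h2
    have h4 := spz_one.1 h3 g d hg h0
    exact (aeval_rep_eq_zero hg (hv i)).1 h4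
  obtain ⟨b, hb⟩ := exists_chart hξ
  have hle : ∀ i, tt k b ξ {i} ≤ 2 := fun i => (rank_point hgenθ htrθ (hspz i) (hb i)).1
  have huniv := tt_univ hgen htr hb
  obtain ⟨I, hI, hIc⟩ := poly_lemma (tt_submod (k := k) b ξ) (tt_empty b ξ) hle (by
    rw [huniv, Fintype.card_fin]; exact hm)
  -- the points with index in `I` are generic
  have hgenI : ∀ i ∈ I, Spz k (fun _ : Fin 1 => ξ i) θ := by
    intro i hi
    apply (rank_point hgenθ htrθ (hspz i) (hb i)).2
    have h1 := tt_submod (k := k) b ξ {i} (I.erase i)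
    rw [← Finset.insert_eq, Finset.insert_erase hi] at h1
    have h2 := poly_le (tt_submod (k := k) b ξ) (tt_empty b ξ) hle (I.erase i)
    rw [Finset.card_erase_of_mem hi] at h2
    have h3 : 0 < I.card := Finset.card_pos.2 ⟨i, hi⟩
    omega
  -- the form `h` does not vanish in the generic points
  have hhI : ∀ i ∈ I, aeval (ξ i) h ≠ 0 := by
    intro i hi h0
    obtain ⟨x, hxX, hx⟩ := hC
    apply hx
    have h1 := (hXθ (fun _ => x)).1 hxX
    exact spz_one.1 ((hgenI i hi).trans h1) h e hh h0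
  -- a coordinate which is not algebraic over the others
  obtain ⟨i, hi, j, hij⟩ : ∃ i ∈ I, ∃ j, ¬ IsAlgebraic (Algebra.adjoin k (ES b ξ Iᶜ))
      (ξ i j / ξ i (b i)) := by
    by_contra hcon
    push Not at hcon
    have h1 : rk k (ES b ξ Finset.univ) ≤ rk k (ES b ξ Iᶜ) := by
      apply rk_le_of_isAlgebraic
      rintro x ⟨i, -, j, rfl⟩
      by_cases hi : i ∈ I
      · exact hcon i hi j
      · exact isAlgebraic_mem ⟨i, Finset.mem_compl.2 hi, j, rfl⟩
    rw [← coe_tt, ← coe_tt] at h1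
    have h2 : tt k b ξ Finset.univ ≤ tt k b ξ Iᶜ := by exact_mod_cast h1
    omega
  refine ⟨I, fun a ha => ?_⟩
  -- the point of `F` with the coordinates `a`
  obtain ⟨v, hv, hv1, hv2⟩ := extend_indep hξ (I := I) (b := b) (fun i _ => hb i) hI.ge
    (fun i _ => hle i) (a := fun i => (a i).rep) (fun i _ => (a i).rep_nonzero) (by
      intro i hi
      exact (hgenI i hi).trans ((hXθ (fun _ => a i)).1 (ha i hi)))
  -- the point of `F` with a coordinate on the hypersurface
  obtain ⟨v', hv', hv1', hv2', hv3'⟩ := cut hξ hv hv1 (J := Iᶜ) he hh (hhI i hi)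
    (fun j _ => hb j) hij
  have hmem : (fun i => Projectivization.mk k (v i) (hv i)) ∈ F := (hFξ _).2 (hv1.rep hv)
  have hmem' : (fun i => Projectivization.mk k (v' i) (hv' i)) ∈ F := (hFξ _).2 (hv1'.rep hv')
  have heqI : ∀ i ∈ I, Projectivization.mk k (v i) (hv i) = a i := by
    intro i hi
    obtain ⟨c, hc⟩ := hv2 i hi
    rw [← (a i).mk_rep, Projectivization.mk_eq_mk_iff']
    exact ⟨c, hc.symm⟩
  have heqJ : ∀ j ∈ Iᶜ, Projectivization.mk k (v' j) (hv' j) = Projectivization.mk k (v j) (hv j) := by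
    intro j hj
    obtain ⟨c, hc⟩ := hv2' j hj
    rw [Projectivization.mk_eq_mk_iff']
    exact ⟨c, hc.symm⟩
  refine ⟨fun i => Projectivization.mk k (v' i) (hv' i), fun i _ => hFX _ hmem' i,
    ⟨i, hi, (aeval_rep_eq_zero hh (hv' i)).2 hv3'⟩, ?_⟩
  have h1 := hconst _ hmem _ hmem'
  unfold cycle at h1
  have e1 : ∑ i ∈ I, Finsupp.single (Projectivization.mk k (v i) (hv i)) (1 : ℤ) =
      ∑ i ∈ I, Finsupp.single (a i) (1 : ℤ) :=
    Finset.sum_congr rfl fun i hi => by rw [heqI i hi]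
  have e2 : ∑ i ∈ Iᶜ, Finsupp.single (Projectivization.mk k (v' i) (hv' i)) (1 : ℤ) =
      ∑ i ∈ Iᶜ, Finsupp.single (Projectivization.mk k (v i) (hv i)) (1 : ℤ) :=
    Finset.sum_congr rfl fun i hi => by rw [heqJ i hi]
  rw [← Finset.sum_add_sum_compl I, ← Finset.sum_add_sum_compl I, e1, e2,
    add_sub_add_right_eq_sub] at h1
  exact h1

end Pool.Agent.K7.H3.ZC
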