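import Pool.Agent.K7.H3.ZC.Spz

/-!
# Independent points
-/

set_option autoImplicit false

open MvPolynomial

namespace Pool.Agent.K7.H3.ZC

variable {k : Type} [Field k] {K : Type} [Field K] [Algebra k K] {ι : Type} {r : ℕ}

/-- The affine coordinates of the points with index in `S`. -/
def ES (b : ι → Fin (r + 1)) (ξ : ι → Fin (r + 1) → K) (S : Finset ι) : Set K :=
  {x | ∃ i ∈ S, ∃ j, x = ξ i j / ξ i (b i)}

theorem ES_mono {b : ι → Fin (r + 1)} {ξ : ι → Fin (r + 1) → K} {S T : Finset ι} (h : S ⊆ T) :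
    ES b ξ S ⊆ ES b ξ T := by
  rintro x ⟨i, hi, j, hx⟩
  exact ⟨i, h hi, j, hx⟩

theorem ES_union [DecidableEq ι] (b : ι → Fin (r + 1)) (ξ : ι → Fin (r + 1) → K)
    (S T : Finset ι) : ES b ξ (S ∪ T) = ES b ξ S ∪ ES b ξ T := by
  ext x
  constructor
  · rintro ⟨i, hi, j, hx⟩
    rcases Finset.mem_union.1 hi with hi | hi
    · exact Or.inl ⟨i, hi, j, hx⟩
    · exact Or.inr ⟨i, hi, j, hx⟩
  · rintro (⟨i, hi, j, hx⟩ | ⟨i, hi, j, hx⟩)
    · exact ⟨i, Finset.mem_union_left _ hi, j, hx⟩
    · exact ⟨i, Finset.mem_union_right _ hi, j, hx⟩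

theorem ES_finite (b : ι → Fin (r + 1)) (ξ : ι → Fin (r + 1) → K) (S : Finset ι) :
    (ES b ξ S).Finite := by
  have : ES b ξ S ⊆ ⋃ i ∈ S, Set.range fun j => ξ i j / ξ i (b i) := by
    rintro x ⟨i, hi, j, hx⟩
    exact Set.mem_iUnion₂.2 ⟨i, hi, j, hx.symm⟩
  exact (S.finite_toSet.biUnion fun i _ => Set.finite_range _).subset this

theorem rk_ne_top {S : Set K} (hS : S.Finite) : rk k S ≠ ⊤ := by
  intro h
  have h1 := (AlgebraicIndependent.matroid k K).eRk_le_encard S
  rw [show (AlgebraicIndependent.matroid k K).eRk S = ⊤ from h, top_le_iff] at h1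
  exact (Set.encard_ne_top_iff.2 hS) h1

/-- The rank function as a function with values in the natural numbers. -/
noncomputable def tt (k : Type) [Field k] {K : Type} [Field K] [Algebra k K] (b : ι → Fin (r + 1))
    (ξ : ι → Fin (r + 1) → K) (S : Finset ι) : ℕ := (rk k (ES b ξ S)).toNat

theorem coe_tt (b : ι → Fin (r + 1)) (ξ : ι → Fin (r + 1) → K) (S : Finset ι) :
    ((tt k b ξ S : ℕ) : ℕ∞) = rk k (ES b ξ S) :=
  ENat.natCast_toNat (rk_ne_top (ES_finite b ξ S))

theorem tt_mono {b : ι → Fin (r + 1)} {ξ : ι → Fin (r + 1) → K} {S T : Finset ι} (h : S ⊆ T) :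
    tt k b ξ S ≤ tt k b ξ T := by
  have := rk_mono (k := k) (ES_mono (b := b) (ξ := ξ) h)
  rw [← coe_tt, ← coe_tt] at this
  exact_mod_cast this

theorem tt_submod [DecidableEq ι] (b : ι → Fin (r + 1)) (ξ : ι → Fin (r + 1) → K)
    (S T : Finset ι) : tt k b ξ (S ∩ T) + tt k b ξ (S ∪ T) ≤ tt k b ξ S + tt k b ξ T := by
  have h1 := rk_submod (k := k) (ES b ξ S) (ES b ξ T)
  rw [← ES_union] at h1
  have h2 : rk k (ES b ξ (S ∩ T)) ≤ rk k (ES b ξ S ∩ ES b ξ T) :=
    rk_mono (Set.subset_inter (ES_mono Finset.inter_subset_left) (ES_mono Finset.inter_subset_right))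
  have h3 := (add_le_add_left h2 (rk k (ES b ξ (S ∪ T)))).trans h1
  rw [← coe_tt, ← coe_tt, ← coe_tt, ← coe_tt] at h3
  exact_mod_cast h3

theorem tt_empty (b : ι → Fin (r + 1)) (ξ : ι → Fin (r + 1) → K) : tt k b ξ ∅ = 0 := by
  have h : ES b ξ ∅ = ∅ := by
    ext x
    simp [ES]
  rw [tt, h, rk, Matroid.eRk_empty]
  rfl

/-- Each polynomial in affine coordinates. -/
theorem mem_adjoin_ES {b : ι → Fin (r + 1)} {ξ : ι → Fin (r + 1) → K} {S : Finset ι} {i : ι}
    (hi : i ∈ S) (j : Fin (r + 1)) : ξ i j / ξ i (b i) ∈ Algebra.adjoin k (ES b ξ S) :=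
  Algebra.subset_adjoin ⟨i, hi, j, rfl⟩

/-- **Independent generic points.** -/
theorem indep_points [DecidableEq ι] (b : ι → Fin (r + 1)) (ξ : ι → Fin (r + 1) → K)
    (α : ι → Fin (r + 1) → k) (I : Finset ι) (hI : 2 * I.card ≤ tt k b ξ I)
    (h2 : ∀ i ∈ I, tt k b ξ {i} ≤ 2)
    (hα : ∀ i ∈ I, ∀ g : MvPolynomial (Fin (r + 1)) k,
      aeval (fun j => ξ i j / ξ i (b i)) g = 0 → aeval (α i) g = 0) :
    ∃ ψ : Algebra.adjoin k (ES b ξ I) →ₐ[k] k, ∀ x : Algebra.adjoin k (ES b ξ I), ∀ i ∈ I, ∀ j,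
      (x : K) = ξ i j / ξ i (b i) → ψ x = α i j := by
  induction I using Finset.induction_on with
  | empty =>
    have h : Algebra.adjoin k (ES b ξ ∅) = ⊥ := by
      have h : ES b ξ ∅ = ∅ := by
        ext x
        simp [ES]
      rw [h, Algebra.adjoin_empty]
    rw [h]
    refine ⟨(Algebra.botEquiv k K : (⊥ : Subalgebra k K) ≃ₐ[k] k).toAlgHom, fun x i hi => ?_⟩
    exact absurd hi (Finset.notMem_empty i)
  | insert a S ha ih =>
    have hunion : ES b ξ (insert a S) = ES b ξ S ∪ ES b ξ {a} := by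
      rw [Finset.insert_eq, ES_union, Set.union_comm]
    have h1 := tt_submod (k := k) b ξ {a} S
    rw [← Finset.insert_eq] at h1
    rw [Finset.card_insert_of_notMem ha] at hI
    have h3 := h2 a (Finset.mem_insert_self a S)
    have hS2 : tt k b ξ S ≤ 2 * S.card := by
      have h4 : ∀ T ⊆ S, tt k b ξ T ≤ 2 * T.card := by
        intro T
        induction T using Finset.induction_on with
        | empty => intro _; simp [tt_empty]
        | insert c T hc ihT =>
          intro hT
          have h5 := tt_submod (k := k) b ξ {c} T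
          rw [← Finset.insert_eq] at h5
          have h6 := h2 c (Finset.mem_insert_of_mem (hT (Finset.mem_insert_self c T)))
          have h7 := ihT ((Finset.subset_insert c T).trans hT)
          rw [Finset.card_insert_of_notMem hc]
          omega
      exact h4 S subset_rfl
    obtain ⟨ψ, hψ⟩ := ih (by omega) (fun i hi => h2 i (Finset.mem_insert_of_mem hi))
      (fun i hi => hα i (Finset.mem_insert_of_mem hi))
    obtain ⟨Y, hY⟩ := (AlgebraicIndependent.matroid k K).exists_isBasis (ES b ξ {a})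
    have hind : AlgebraicIndependent (Algebra.adjoin k (ES b ξ S)) (fun y : Y => (y : K)) := by
      refine indep_over (rk_ne_top (ES_finite b ξ S)) (rk_ne_top (ES_finite b ξ {a})) ?_ hY
      rw [← hunion, ← coe_tt, ← coe_tt, ← coe_tt]
      have : tt k b ξ S + tt k b ξ {a} ≤ tt k b ξ (insert a S) := by omega
      exact_mod_cast this
    have hrange : Set.range (fun y : Y => (y : K)) = Y := Subtype.range_coe
    have hη : ∀ j, IsAlgebraic (Algebra.adjoin k (Set.range fun y : Y => (y : K)))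
        (ξ a j / ξ a (b a)) := by
      intro j
      rw [hrange]
      apply mem_closure.1
      rw [hY.closure_eq_closure]
      exact (AlgebraicIndependent.matroid k K).mem_closure_of_mem
        ⟨a, Finset.mem_singleton_self a, j, rfl⟩
    have hkk : (algebraMap k k).comp (ψ : Algebra.adjoin k (ES b ξ S) →+* k) = ψ := by
      ext x; rfl
    obtain ⟨ψ', hψ'⟩ := exists_hom (σ := Fin (r + 1)) (Algebra.adjoin k (ES b ξ S)).val ψ
      (η := fun j => ξ a j / ξ a (b a)) (α := α a) (by
        intro G hG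
        have h4 := linDisj ψ hind hη (G := G) hG
        have h5 := hα a (Finset.mem_insert_self a S) _ h4
        rw [aeval_def, eval₂_map, hkk] at h5
        exact h5) (Algebra.adjoin k (ES b ξ (insert a S))) (by
        intro x hx
        induction hx using Algebra.adjoin_induction with
        | mem x hx =>
          rw [hunion] at hx
          rcases hx with hx | ⟨i, hi, j, rfl⟩
          · exact ⟨C ⟨x, Algebra.subset_adjoin hx⟩, by rw [eval₂_C]; rfl⟩
          · rw [Finset.mem_singleton] at hi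
            subst hi
            exact ⟨X j, by rw [eval₂_X]⟩
        | algebraMap c =>
          exact ⟨C (algebraMap k _ c), by rw [eval₂_C]; rfl⟩
        | add x y _ _ hx hy =>
          obtain ⟨G, hG⟩ := hx
          obtain ⟨G', hG'⟩ := hy
          exact ⟨G + G', by rw [eval₂_add, hG, hG']⟩
        | mul x y _ _ hx hy =>
          obtain ⟨G, hG⟩ := hx
          obtain ⟨G', hG'⟩ := hy
          exact ⟨G * G', by rw [eval₂_mul, hG, hG']⟩)
    refine ⟨ψ', fun x i hi j hx => ?_⟩
    rcases Finset.mem_insert.1 hi with rfl | hi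
    · rw [hψ' x (X j) (by rw [eval₂_X, hx]), eval₂_X]
    · rw [hψ' x (C ⟨ξ i j / ξ i (b i), mem_adjoin_ES hi j⟩) (by rw [eval₂_C, hx]; rfl), eval₂_C]
      exact hψ _ i hi j rfl

end Pool.Agent.K7.H3.ZC
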