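import Mathlib

/-! Combinatorial lemmas: bases of matroids given by rank functions, and the theorem of Rado. -/

set_option autoImplicit false

namespace Pool.Agent.K7.H3.ZC

section greedy

variable {ι : Type} [DecidableEq ι] {ρ : Finset ι → ℕ}

theorem rank_le_card (hsub : ∀ A B, ρ (A ∩ B) + ρ (A ∪ B) ≤ ρ A + ρ B) (h0 : ρ ∅ = 0)
    (h1 : ∀ i, ρ {i} ≤ 1) (A : Finset ι) : ρ A ≤ A.card := by
  induction A using Finset.induction_on with
  | empty => simp [h0]
  | insert a A ha ih =>
    have h2 := hsub {a} A
    rw [← Finset.insert_eq] at h2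
    have h3 := h1 a
    rw [Finset.card_insert_of_notMem ha]
    omega

/-- Existence of a basis. -/
theorem exists_basis (hmono : ∀ A B, A ⊆ B → ρ A ≤ ρ B)
    (hsub : ∀ A B, ρ (A ∩ B) + ρ (A ∪ B) ≤ ρ A + ρ B) (h0 : ρ ∅ = 0)
    (h1 : ∀ i, ρ {i} ≤ 1) (U : Finset ι) : ∃ S ⊆ U, ρ S = S.card ∧ S.card = ρ U := by
  induction U using Finset.induction_on with
  | empty => exact ⟨∅, subset_rfl, by simp [h0], by simp [h0]⟩
  | insert a U ha ih =>
    obtain ⟨S, hSU, hS, hU⟩ := ih
    have hm := hmono U (insert a U) (Finset.subset_insert a U)
    have h2 := hsub {a} U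
    rw [← Finset.insert_eq] at h2
    have h3 := h1 a
    by_cases h : ρ (insert a U) = ρ U
    · exact ⟨S, hSU.trans (Finset.subset_insert a U), hS, by rw [h]; exact hU⟩
    · have haS : a ∉ S := fun h' => ha (hSU h')
      have h4 := hsub (insert a S) U
      have h5 : insert a S ∩ U = S := by
        ext x
        simp only [Finset.mem_inter, Finset.mem_insert]
        constructor
        · rintro ⟨rfl | hx, hxU⟩
          · exact absurd hxU ha
          · exact hx
        · intro hx
          exact ⟨Or.inr hx, hSU hx⟩
      have h6 : insert a S ∪ U = insert a U := by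
        ext x
        simp only [Finset.mem_union, Finset.mem_insert]
        constructor
        · rintro ((rfl | hx) | hx)
          · exact Or.inl rfl
          · exact Or.inr (hSU hx)
          · exact Or.inr hx
        · rintro (rfl | hx)
          · exact Or.inl (Or.inl rfl)
          · exact Or.inr hx
      rw [h5, h6] at h4
      have h7 := rank_le_card hsub h0 h1 (insert a S)
      have h8 : (insert a S).card = S.card + 1 := Finset.card_insert_of_notMem haS
      refine ⟨insert a S, Finset.insert_subset_insert a hSU, ?_, ?_⟩
      · rw [h8] at h7 ⊢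
        omega
      · rw [h8]
        omega

end greedy

section rado

variable {ι α : Type} [DecidableEq ι] [DecidableEq α] [Nonempty α] {ρ : Finset α → ℕ}

/-- **The theorem of Rado** on independent transversals. -/
theorem rado (hmono : ∀ A B, A ⊆ B → ρ A ≤ ρ B)
    (hsub : ∀ A B, ρ (A ∩ B) + ρ (A ∪ B) ≤ ρ A + ρ B) (h0 : ρ ∅ = 0)
    (A : Finset ι) : ∀ (N : ℕ) (E : ι → Finset α), ∑ i ∈ A, (E i).card ≤ N →
      (∀ B ⊆ A, B.card ≤ ρ (B.biUnion E)) →
        ∃ x : ι → α, (∀ i ∈ A, x i ∈ E i) ∧ A.card ≤ ρ (A.image x) := by
  -- the case of sets with at most one element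
  have base : ∀ E : ι → Finset α, (∀ i ∈ A, (E i).card ≤ 1) →
      (∀ B ⊆ A, B.card ≤ ρ (B.biUnion E)) →
        ∃ x : ι → α, (∀ i ∈ A, x i ∈ E i) ∧ A.card ≤ ρ (A.image x) := by
    intro E hall H
    have hne : ∀ i ∈ A, ∃ x, E i = {x} := by
      intro i hi
      have h1 := H {i} (Finset.singleton_subset_iff.2 hi)
      rw [Finset.singleton_biUnion, Finset.card_singleton] at h1
      have h2 : (E i).Nonempty := by
        rw [Finset.nonempty_iff_ne_empty]
        intro h
        rw [h, h0] at h1
        omega
      have h3 := hall i hi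
      have h4 := Finset.card_pos.2 h2
      exact Finset.card_eq_one.1 (by omega)
    have hex : ∀ i, ∃ x, i ∈ A → E i = {x} := by
      intro i
      by_cases hi : i ∈ A
      · obtain ⟨x, hx⟩ := hne i hi
        exact ⟨x, fun _ => hx⟩
      · exact ⟨Classical.arbitrary α, fun h => absurd h hi⟩
    choose x hx using hex
    refine ⟨x, fun i hi => by rw [hx i hi]; exact Finset.mem_singleton_self _, ?_⟩
    have h1 : A.biUnion E = A.image x := by
      ext z
      rw [Finset.mem_biUnion, Finset.mem_image]
      constructor
      · rintro ⟨i, hi, hz⟩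
        rw [hx i hi, Finset.mem_singleton] at hz
        exact ⟨i, hi, hz.symm⟩
      · rintro ⟨i, hi, rfl⟩
        exact ⟨i, hi, by rw [hx i hi]; exact Finset.mem_singleton_self _⟩
    rw [← h1]
    exact H A subset_rfl
  intro N
  induction N with
  | zero =>
    intro E hE H
    refine base E (fun i hi => ?_) H
    have := Finset.single_le_sum (f := fun i => (E i).card) (fun _ _ => Nat.zero_le _) hi
    omega
  | succ N ih =>
    intro E hE H
    by_cases hall : ∀ i ∈ A, (E i).card ≤ 1
    · exact base E hall H
    · push Not at hall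
      obtain ⟨i, hi, hcard⟩ := hall
      obtain ⟨x, hx, y, hy, hxy⟩ := Finset.one_lt_card.1 hcard
      -- removal of an element
      have hrem : ∀ z ∈ E i, (∀ B ⊆ A, B.card ≤ ρ (B.biUnion (Function.update E i ((E i).erase z)))) →
          ∃ x : ι → α, (∀ i ∈ A, x i ∈ E i) ∧ A.card ≤ ρ (A.image x) := by
        intro z hz HB
        obtain ⟨w, hw1, hw2⟩ := ih (Function.update E i ((E i).erase z)) (by
          rw [← Finset.add_sum_erase A _ hi] at hE ⊢
          have h1 : ∑ j ∈ A.erase i, (Function.update E i ((E i).erase z) j).card =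
              ∑ j ∈ A.erase i, (E j).card := by
            refine Finset.sum_congr rfl fun j hj => ?_
            rw [Function.update_of_ne (Finset.ne_of_mem_erase hj)]
          rw [h1, Function.update_self, Finset.card_erase_of_mem hz]
          have : 0 < (E i).card := by omega
          omega) HB
        refine ⟨w, fun j hj => ?_, hw2⟩
        have h1 := hw1 j hj
        by_cases h : j = i
        · subst h
          rw [Function.update_self] at h1
          exact Finset.mem_of_mem_erase h1
        · rwa [Function.update_of_ne h] at h1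
      by_contra hcon
      have hx' := mt (hrem x hx) hcon
      have hy' := mt (hrem y hy) hcon
      push Not at hx' hy'
      obtain ⟨B1, hB1A, hB1⟩ := hx'
      obtain ⟨B2, hB2A, hB2⟩ := hy'
      have hi1 : i ∈ B1 := by
        by_contra h
        have h1 : B1.biUnion (Function.update E i ((E i).erase x)) = B1.biUnion E := by
          refine Finset.biUnion_congr rfl fun j hj => ?_
          rw [Function.update_of_ne]
          rintro rfl
          exact h hj
        rw [h1] at hB1
        exact absurd (H B1 hB1A) (by omega)
      have hi2 : i ∈ B2 := by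
        by_contra h
        have h1 : B2.biUnion (Function.update E i ((E i).erase y)) = B2.biUnion E := by
          refine Finset.biUnion_congr rfl fun j hj => ?_
          rw [Function.update_of_ne]
          rintro rfl
          exact h hj
        rw [h1] at hB2
        exact absurd (H B2 hB2A) (by omega)
      have hsub1 := hsub (B1.biUnion (Function.update E i ((E i).erase x)))
        (B2.biUnion (Function.update E i ((E i).erase y)))
      have hu : (B1 ∪ B2).biUnion E ⊆ B1.biUnion (Function.update E i ((E i).erase x)) ∪
          B2.biUnion (Function.update E i ((E i).erase y)) := by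
        intro z hz
        obtain ⟨j, hj, hzj⟩ := Finset.mem_biUnion.1 hz
        by_cases h : j = i
        · subst h
          by_cases hzx : z = x
          · subst hzx
            refine Finset.mem_union_right _ (Finset.mem_biUnion.2 ⟨j, hi2, ?_⟩)
            rw [Function.update_self]
            exact Finset.mem_erase.2 ⟨hxy, hzj⟩
          · refine Finset.mem_union_left _ (Finset.mem_biUnion.2 ⟨j, hi1, ?_⟩)
            rw [Function.update_self]
            exact Finset.mem_erase.2 ⟨hzx, hzj⟩
        · rcases Finset.mem_union.1 hj with hj | hj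
          · refine Finset.mem_union_left _ (Finset.mem_biUnion.2 ⟨j, hj, ?_⟩)
            rwa [Function.update_of_ne h]
          · refine Finset.mem_union_right _ (Finset.mem_biUnion.2 ⟨j, hj, ?_⟩)
            rwa [Function.update_of_ne h]
      have hint : ((B1 ∩ B2).erase i).biUnion E ⊆
          B1.biUnion (Function.update E i ((E i).erase x)) ∩
          B2.biUnion (Function.update E i ((E i).erase y)) := by
        intro z hz
        obtain ⟨j, hj, hzj⟩ := Finset.mem_biUnion.1 hz
        obtain ⟨hji, hj⟩ := Finset.mem_erase.1 hj
        obtain ⟨hj1, hj2⟩ := Finset.mem_inter.1 hj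
        refine Finset.mem_inter.2 ⟨Finset.mem_biUnion.2 ⟨j, hj1, ?_⟩,
          Finset.mem_biUnion.2 ⟨j, hj2, ?_⟩⟩
        · rwa [Function.update_of_ne hji]
        · rwa [Function.update_of_ne hji]
      have h1 := hmono _ _ hu
      have h2 := hmono _ _ hint
      have h3 := H (B1 ∪ B2) (Finset.union_subset hB1A hB2A)
      have h4 := H ((B1 ∩ B2).erase i) ((Finset.erase_subset _ _).trans
        (Finset.inter_subset_left.trans hB1A))
      have h5 : ((B1 ∩ B2).erase i).card = (B1 ∩ B2).card - 1 :=
        Finset.card_erase_of_mem (Finset.mem_inter.2 ⟨hi1, hi2⟩)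
      have h6 := Finset.card_union_add_card_inter B1 B2
      have h7 : 0 < (B1 ∩ B2).card := Finset.card_pos.2 ⟨i, Finset.mem_inter.2 ⟨hi1, hi2⟩⟩
      omega

end rado

end Pool.Agent.K7.H3.ZC
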