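import Mathlib

/-!
# Transcendence degrees of sets of elements of a field
-/

set_option autoImplicit false

open MvPolynomial

namespace Pool.Agent.K7.H3.ZC

variable {k : Type} [Field k] {K : Type} [Field K] [Algebra k K]

/-- The transcendence degree of a set of elements of a field. -/
noncomputable def rk (k : Type) [Field k] {K : Type} [Field K] [Algebra k K] (S : Set K) : ℕ∞ :=
  (AlgebraicIndependent.matroid k K).eRk S

theorem mem_closure {S : Set K} {x : K} : x ∈ (AlgebraicIndependent.matroid k K).closure S ↔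
    IsAlgebraic (Algebra.adjoin k S) x := by
  rw [AlgebraicIndependent.matroid_closure_eq]
  rfl

theorem rk_mono {S T : Set K} (h : S ⊆ T) : rk k S ≤ rk k T :=
  (AlgebraicIndependent.matroid k K).eRk_mono h

theorem rk_submod (S T : Set K) : rk k (S ∩ T) + rk k (S ∪ T) ≤ rk k S + rk k T :=
  (AlgebraicIndependent.matroid k K).eRk_inter_add_eRk_union_le S T

theorem rk_union_le (S T : Set K) : rk k (S ∪ T) ≤ rk k S + rk k T :=
  (AlgebraicIndependent.matroid k K).eRk_union_le_eRk_add_eRk S T

/-- Two sets of complementary rank are independent. -/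
theorem indep_over {S T Y : Set K} (hS : rk k S ≠ ⊤) (hT : rk k T ≠ ⊤)
    (hST : rk k S + rk k T ≤ rk k (S ∪ T))
    (hY : (AlgebraicIndependent.matroid k K).IsBasis Y T) :
    AlgebraicIndependent (Algebra.adjoin k S) (fun y : Y => (y : K)) := by
  classical
  set M := AlgebraicIndependent.matroid k K with hM
  obtain ⟨B, hB⟩ := M.exists_isBasis S
  have hBS : B.encard = rk k S := hB.encard_eq_eRk
  have hYT : Y.encard = rk k T := hY.encard_eq_eRk
  have hrank : M.eRk (B ∪ Y) = M.eRk (S ∪ T) := by
    rw [hB.eRk_eq_eRk_union Y, Set.union_comm, hY.eRk_eq_eRk_union S, Set.union_comm]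
  have h1 : B.encard + Y.encard ≤ M.eRk (B ∪ Y) := by
    rw [hrank, hBS, hYT]
    exact hST
  have h2 : (B ∪ Y).encard ≤ B.encard + Y.encard := Set.encard_union_le B Y
  have hBfin : B.encard ≠ ⊤ := by rw [hBS]; exact hS
  have hYfin : Y.encard ≠ ⊤ := by rw [hYT]; exact hT
  have hfin : (B ∪ Y).Finite :=
    (Set.encard_ne_top_iff.1 hBfin).union (Set.encard_ne_top_iff.1 hYfin)
  have hind : M.Indep (B ∪ Y) := by
    rw [M.indep_iff_eRk_eq_encard_of_finite hfin]
    exact le_antisymm (M.eRk_le_encard _) (h2.trans h1)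
  have hdisj : Disjoint B Y := by
    rw [Set.disjoint_iff_inter_eq_empty, ← Set.encard_eq_zero]
    have h3 := Set.encard_union_add_encard_inter B Y
    have h4 : B.encard + Y.encard ≤ (B ∪ Y).encard := h1.trans (M.eRk_le_encard _)
    have h5 : (B ∪ Y).encard = B.encard + Y.encard := le_antisymm h2 h4
    rw [h5] at h3
    obtain ⟨b, hb⟩ := ENat.ne_top_iff_exists.1 hBfin
    obtain ⟨y, hy⟩ := ENat.ne_top_iff_exists.1 hYfin
    obtain ⟨z, hz⟩ := ENat.ne_top_iff_exists.1 ((Set.encard_ne_top_iff.2
      ((Set.encard_ne_top_iff.1 hBfin).subset Set.inter_subset_left)) : (B ∩ Y).encard ≠ ⊤)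
    rw [← hb, ← hy, ← hz] at h3
    rw [← hz]
    norm_cast at h3 ⊢
    omega
  have hind' : AlgebraicIndependent k (fun x : ↥(B ∪ Y) => (x : K)) := hind
  have h3 := hind'.adjoin_of_disjoint (s := {x | (x : K) ∈ B}) (t := {x | (x : K) ∈ Y}) (by
    rw [Set.disjoint_left]
    intro x h3 h4
    exact Set.disjoint_left.1 hdisj h3 h4)
  have himage : (fun x : ↥(B ∪ Y) => (x : K)) '' {x | (x : K) ∈ B} = B := by
    ext x
    constructor
    · rintro ⟨y, hy, rfl⟩
      exact hy
    · intro hx
      exact ⟨⟨x, Or.inl hx⟩, hx, rfl⟩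
  rw [himage] at h3
  have h4 : AlgebraicIndependent (Algebra.adjoin k B) (fun y : Y => (y : K)) :=
    h3.comp (fun y : Y => ⟨⟨y, Or.inr y.2⟩, y.2⟩) (fun a b h => by
      have := congrArg (fun z : {x : ↥(B ∪ Y) | (x : K) ∈ Y} => ((z : ↥(B ∪ Y)) : K)) h
      exact Subtype.ext this)
  have h5 := h4.subalgebraAlgebraicClosure
  have hle : ∀ x ∈ Algebra.adjoin k S, x ∈ Subalgebra.algebraicClosure (Algebra.adjoin k B) K := by
    intro x hx
    induction hx using Algebra.adjoin_induction with
    | mem x hx =>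
      have : x ∈ M.closure B := by
        rw [hB.closure_eq_closure]
        exact M.mem_closure_of_mem hx
      exact mem_closure.1 this
    | algebraMap c =>
      exact isAlgebraic_algebraMap (R := Algebra.adjoin k B) (A := K)
        (algebraMap k (Algebra.adjoin k B) c)
    | add x y _ _ hx hy => exact add_mem hx hy
    | mul x y _ _ hx hy => exact mul_mem hx hy
  let f : Algebra.adjoin k S →+* Subalgebra.algebraicClosure (Algebra.adjoin k B) K := {
    toFun := fun a => ⟨a, hle a a.2⟩
    map_one' := rfl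
    map_mul' := fun _ _ => rfl
    map_zero' := rfl
    map_add' := fun _ _ => rfl }
  let _ : Algebra (Algebra.adjoin k S) (Subalgebra.algebraicClosure (Algebra.adjoin k B) K) :=
    f.toAlgebra
  have _ : IsScalarTower (Algebra.adjoin k S)
      (Subalgebra.algebraicClosure (Algebra.adjoin k B) K) K :=
    IsScalarTower.of_algebraMap_eq fun _ => rfl
  refine h5.restrictScalars ?_
  intro a b h
  exact Subtype.ext (congrArg (fun z : Subalgebra.algebraicClosure (Algebra.adjoin k B) K =>
    (z : K)) h)

section specialisation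

variable {K0 : Type} [Field K0] [Algebra k K0] {σ : Type} {η : σ → K0} {ξ : σ → K}

theorem exists_indep_of_spz (H : ∀ G : MvPolynomial σ k, aeval η G = 0 → aeval ξ G = 0)
    {J : Type} {s : J → σ} (hJ : AlgebraicIndependent k (ξ ∘ s)) :
    AlgebraicIndependent k (η ∘ s) := by
  rw [algebraicIndependent_iff] at hJ ⊢
  intro p hp
  apply hJ
  have h1 : aeval η (rename s p) = 0 := by rw [aeval_rename]; exact hp
  have h2 := H _ h1
  rwa [aeval_rename] at h2

theorem encard_range_comp {J : Type} {s : J → σ} (hJ : AlgebraicIndependent k (η ∘ s)) :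
    (Set.range (η ∘ s)).encard ≤ rk k (Set.range η) := by
  have h1 : (AlgebraicIndependent.matroid k K0).Indep (Set.range (η ∘ s)) := hJ.coe_range
  exact h1.encard_le_eRk_of_subset (Set.range_comp_subset_range s η)

theorem rk_le_of_spz (H : ∀ G : MvPolynomial σ k, aeval η G = 0 → aeval ξ G = 0) :
    rk k (Set.range ξ) ≤ rk k (Set.range η) := by
  obtain ⟨B, hB⟩ := (AlgebraicIndependent.matroid k K).exists_isBasis (Set.range ξ)
  have hs : ∀ b : B, ∃ s, ξ s = b := fun b => hB.subset b.2
  choose s hs using hs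
  have hBi : AlgebraicIndependent k (fun b : B => (b : K)) := hB.indep
  have h1 : AlgebraicIndependent k (ξ ∘ s) := by
    convert hBi using 1
    funext b
    exact hs b
  have h2 := exists_indep_of_spz H h1
  have h3 := encard_range_comp h2
  have h4 : (Set.range (η ∘ s)).encard = B.encard := by
    rw [← Set.image_univ, h2.injective.encard_image, Set.encard_univ, ENat.card_coe_set_eq]
  rw [h4, hB.encard_eq_eRk] at h3
  exact h3

theorem spz_symm (H : ∀ G : MvPolynomial σ k, aeval η G = 0 → aeval ξ G = 0)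
    (hrk : rk k (Set.range η) ≤ rk k (Set.range ξ)) (hfin : rk k (Set.range η) ≠ ⊤) :
    ∀ G : MvPolynomial σ k, aeval ξ G = 0 → aeval η G = 0 := by
  obtain ⟨B, hB⟩ := (AlgebraicIndependent.matroid k K).exists_isBasis (Set.range ξ)
  have hs : ∀ b : B, ∃ s, ξ s = b := fun b => hB.subset b.2
  choose s hs using hs
  have hBi : AlgebraicIndependent k (fun b : B => (b : K)) := hB.indep
  have h1 : AlgebraicIndependent k (ξ ∘ s) := by
    convert hBi using 1
    funext b
    exact hs b
  have h2 := exists_indep_of_spz H h1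
  have h4 : (Set.range (η ∘ s)).encard = B.encard := by
    rw [← Set.image_univ, h2.injective.encard_image, Set.encard_univ, ENat.card_coe_set_eq]
  have hind : (AlgebraicIndependent.matroid k K0).Indep (Set.range (η ∘ s)) := h2.coe_range
  have hBe : B.encard = rk k (Set.range ξ) := hB.encard_eq_eRk
  have hne : (Set.range (η ∘ s)).encard ≠ ⊤ := by
    intro h
    have := encard_range_comp h2
    rw [h, top_le_iff] at this
    exact hfin this
  have hbas : (AlgebraicIndependent.matroid k K0).IsBasis (Set.range (η ∘ s)) (Set.range η) := by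
    refine hind.isBasis_of_eRk_ge (Set.encard_ne_top_iff.1 hne)
      (Set.range_comp_subset_range s η) ?_ ?_
    · rw [hind.eRk_eq_encard, h4, hBe]
      exact hrk
    · exact Set.subset_univ _
  intro G hG
  by_contra hne0
  have hg : IsAlgebraic (Algebra.adjoin k (Set.range (η ∘ s))) (aeval η G) := by
    have h5 : ∀ t, η t ∈ Subalgebra.algebraicClosure (Algebra.adjoin k (Set.range (η ∘ s))) K0 := by
      intro t
      have h6 : η t ∈ (AlgebraicIndependent.matroid k K0).closure (Set.range (η ∘ s)) := by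
        rw [hbas.closure_eq_closure]
        exact (AlgebraicIndependent.matroid k K0).mem_closure_of_mem (Set.mem_range_self t)
      exact mem_closure.1 h6
    have h6 : aeval η G ∈ Subalgebra.algebraicClosure (Algebra.adjoin k (Set.range (η ∘ s))) K0 := by
      rw [aeval_def, eval₂_eq]
      refine sum_mem fun m _ => mul_mem ?_ (prod_mem fun i _ => pow_mem (h5 i) _)
      exact isAlgebraic_algebraMap (R := Algebra.adjoin k (Set.range (η ∘ s))) (A := K0)
        (algebraMap k (Algebra.adjoin k (Set.range (η ∘ s))) _)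
    exact h6
  obtain ⟨p, hp0, hp⟩ := hg.exists_nonzero_coeff_and_aeval_eq_zero
    (mem_nonZeroDivisors_of_ne_zero hne0)
  let π : MvPolynomial B k →+* Algebra.adjoin k (Set.range (η ∘ s)) :=
    (h2.aevalEquiv : MvPolynomial B k ≃ₐ[k] _).toAlgHom.toRingHom
  have hπ : Function.Surjective π := h2.aevalEquiv.surjective
  have hπv : ∀ f, ((π f : Algebra.adjoin k (Set.range (η ∘ s))) : K0) = aeval (η ∘ s) f := by
    intro f
    exact h2.algebraMap_aevalEquiv f
  obtain ⟨P, rfl⟩ := Polynomial.map_surjective π hπ p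
  let Q : MvPolynomial σ k := P.eval₂ (rename s : MvPolynomial B k →ₐ[k] MvPolynomial σ k).toRingHom G
  have hQη : aeval η Q = 0 := by
    have h5 : aeval η Q = P.eval₂ ((aeval η : MvPolynomial σ k →ₐ[k] K0).toRingHom.comp
        (rename s : MvPolynomial B k →ₐ[k] MvPolynomial σ k).toRingHom) (aeval η G) :=
      Polynomial.hom_eval₂ P _ (aeval η : MvPolynomial σ k →ₐ[k] K0).toRingHom G
    have h6 : (aeval η : MvPolynomial σ k →ₐ[k] K0).toRingHom.comp
        (rename s : MvPolynomial B k →ₐ[k] MvPolynomial σ k).toRingHom =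
        (algebraMap (Algebra.adjoin k (Set.range (η ∘ s))) K0).comp π := by
      apply RingHom.ext
      intro f
      have h7 : aeval η (rename s f) = aeval (η ∘ s) f := aeval_rename s η f
      exact h7.trans (hπv f).symm
    rw [h5, h6, ← hp, Polynomial.aeval_def, Polynomial.eval₂_map]
  have hQξ := H Q hQη
  have h5 : aeval ξ Q = P.eval₂ ((aeval ξ : MvPolynomial σ k →ₐ[k] K).toRingHom.comp
      (rename s : MvPolynomial B k →ₐ[k] MvPolynomial σ k).toRingHom) (aeval ξ G) :=
    Polynomial.hom_eval₂ P _ (aeval ξ : MvPolynomial σ k →ₐ[k] K).toRingHom G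
  rw [hQξ, hG, Polynomial.eval₂_at_zero] at h5
  have h6 : aeval (ξ ∘ s) (P.coeff 0) = 0 := by
    rw [← aeval_rename]
    exact h5.symm
  have h7 : P.coeff 0 = 0 := (algebraicIndependent_iff.1 h1) _ h6
  apply hp0
  rw [Polynomial.coeff_map, h7, map_zero]

end specialisation

end Pool.Agent.K7.H3.ZC
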