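import Pool.Agent.K7.H3.ZC.Fibre
import Pool.Agent.K7.H3.ZC.Comb

/-!
# Relative versions: independent points and transversals
-/

set_option autoImplicit false

open MvPolynomial

namespace Pool.Agent.K7.H3.ZC

variable {k : Type} [Field k] {K : Type} [Field K] [Algebra k K] {ι : Type} {r : ℕ}

/-- **Independent generic points** over a given point. -/
theorem indep_points_rel [DecidableEq ι] (b : ι → Fin (r + 1)) (ξ : ι → Fin (r + 1) → K)
    (α : ι → Fin (r + 1) → k) (L : Finset ι) (φ : Algebra.adjoin k (ES b ξ L) →ₐ[k] k)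
    (I : Finset ι) (hI : tt k b ξ L + 2 * I.card ≤ tt k b ξ (L ∪ I))
    (h2 : ∀ i ∈ I, tt k b ξ {i} ≤ 2)
    (hα : ∀ i ∈ I, ∀ g : MvPolynomial (Fin (r + 1)) k,
      aeval (fun j => ξ i j / ξ i (b i)) g = 0 → aeval (α i) g = 0) :
    ∃ ψ : Algebra.adjoin k (ES b ξ (L ∪ I)) →ₐ[k] k,
      (∀ (x : Algebra.adjoin k (ES b ξ (L ∪ I))) (y : Algebra.adjoin k (ES b ξ L)),
        (x : K) = y → ψ x = φ y) ∧
      ∀ x : Algebra.adjoin k (ES b ξ (L ∪ I)), ∀ i ∈ I, ∀ j,
        (x : K) = ξ i j / ξ i (b i) → ψ x = α i j := by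
  induction I using Finset.induction_on with
  | empty =>
    rw [Finset.union_empty]
    refine ⟨φ, fun x y hxy => by rw [Subtype.ext hxy], fun x i hi => ?_⟩
    exact absurd hi (Finset.notMem_empty i)
  | insert a S ha ih =>
    have hLS : L ∪ insert a S = insert a (L ∪ S) := by
      ext x
      simp only [Finset.mem_union, Finset.mem_insert]
      tauto
    have hunion : ES b ξ (L ∪ insert a S) = ES b ξ (L ∪ S) ∪ ES b ξ {a} := by
      rw [hLS, Finset.insert_eq, ES_union, Set.union_comm]
    have h1 := tt_submod (k := k) b ξ {a} (L ∪ S)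
    rw [← Finset.insert_eq, ← hLS] at h1
    rw [Finset.card_insert_of_notMem ha] at hI
    have h3 := h2 a (Finset.mem_insert_self a S)
    have hS2 : tt k b ξ (L ∪ S) ≤ tt k b ξ L + 2 * S.card := by
      have h4 : ∀ T ⊆ S, tt k b ξ (L ∪ T) ≤ tt k b ξ L + 2 * T.card := by
        intro T
        induction T using Finset.induction_on with
        | empty => intro _; simp
        | insert c T hc ihT =>
          intro hT
          have h5 := tt_submod (k := k) b ξ {c} (L ∪ T)
          have h8 : L ∪ insert c T = insert c (L ∪ T) := by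
            ext x
            simp only [Finset.mem_union, Finset.mem_insert]
            tauto
          rw [← Finset.insert_eq, ← h8] at h5
          have h6 := h2 c (Finset.mem_insert_of_mem (hT (Finset.mem_insert_self c T)))
          have h7 := ihT ((Finset.subset_insert c T).trans hT)
          rw [Finset.card_insert_of_notMem hc]
          omega
      exact h4 S subset_rfl
    obtain ⟨ψ, hψ0, hψ⟩ := ih (by omega) (fun i hi => h2 i (Finset.mem_insert_of_mem hi))
      (fun i hi => hα i (Finset.mem_insert_of_mem hi))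
    obtain ⟨Y, hY⟩ := (AlgebraicIndependent.matroid k K).exists_isBasis (ES b ξ {a})
    have hind : AlgebraicIndependent (Algebra.adjoin k (ES b ξ (L ∪ S)))
        (fun y : Y => (y : K)) := by
      refine indep_over (rk_ne_top (ES_finite b ξ (L ∪ S))) (rk_ne_top (ES_finite b ξ {a})) ?_ hY
      rw [← hunion, ← coe_tt, ← coe_tt, ← coe_tt]
      have : tt k b ξ (L ∪ S) + tt k b ξ {a} ≤ tt k b ξ (L ∪ insert a S) := by omega
      exact_mod_cast this
    have hrange : Set.range (fun y : Y => (y : K)) = Y := Subtype.range_coe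
    have hη : ∀ j, IsAlgebraic (Algebra.adjoin k (Set.range fun y : Y => (y : K)))
        (ξ a j / ξ a (b a)) := by
      intro j
      rw [hrange]
      apply mem_closure.1
      rw [hY.closure_eq_closure]
      exact (AlgebraicIndependent.matroid k K).mem_closure_of_mem
        ⟨a, Finset.mem_singleton_self a, j, rfl⟩
    have hkk : (algebraMap k k).comp (ψ : Algebra.adjoin k (ES b ξ (L ∪ S)) →+* k) = ψ := by
      ext x; rfl
    obtain ⟨ψ', hψ'⟩ := exists_hom (σ := Fin (r + 1)) (Algebra.adjoin k (ES b ξ (L ∪ S))).val ψ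
      (η := fun j => ξ a j / ξ a (b a)) (α := α a) (by
        intro G hG
        have h4 := linDisj ψ hind hη (G := G) hG
        have h5 := hα a (Finset.mem_insert_self a S) _ h4
        rw [aeval_def, eval₂_map, hkk] at h5
        exact h5) (Algebra.adjoin k (ES b ξ (L ∪ insert a S))) (by
        intro x hx
        induction hx using Algebra.adjoin_induction with
        | mem x hx =>
          rw [hunion] at hx
          rcases hx with hx | ⟨i, hi, j, rfl⟩
          · exact ⟨C ⟨x, Algebra.subset_adjoin hx⟩, by rw [eval₂_C]; rfl⟩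
          · rw [Finset.mem_singleton] at hi
            subst hi
            exact ⟨X j, by rw [eval₂_X]⟩
        | algebraMap c =>
          exact ⟨C (algebraMap k _ c), by rw [eval₂_C]; rfl⟩
        | add x y _ _ hx hy =>
          obtain ⟨G, hG⟩ := hx
          obtain ⟨G', hG'⟩ := hy
          exact ⟨G + G', by rw [eval₂_add, hG, hG']⟩
        | mul x y _ _ hx hy =>
          obtain ⟨G, hG⟩ := hx
          obtain ⟨G', hG'⟩ := hy
          exact ⟨G * G', by rw [eval₂_mul, hG, hG']⟩)
    refine ⟨ψ', fun x y hxy => ?_, fun x i hi j hx => ?_⟩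
    · have hy : (y : K) ∈ Algebra.adjoin k (ES b ξ (L ∪ S)) :=
        Algebra.adjoin_mono (ES_mono Finset.subset_union_left) y.2
      rw [hψ' x (C ⟨y, hy⟩) (by rw [eval₂_C, hxy]; rfl), eval₂_C]
      exact hψ0 _ y rfl
    · rcases Finset.mem_insert.1 hi with rfl | hi
      · rw [hψ' x (X j) (by rw [eval₂_X, hx]), eval₂_X]
      · rw [hψ' x (C ⟨ξ i j / ξ i (b i), mem_adjoin_ES (Finset.mem_union_right L hi) j⟩)
          (by rw [eval₂_C, hx]; rfl), eval₂_C]
        exact hψ _ i hi j rfl

/-- Elements with maximal rank over a set are independent over it. -/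
theorem indep_of_rk {S0 : Set K} (hS0 : S0.Finite) {A : Finset ι} [DecidableEq K] (x : ι → K)
    (h : A.card + rk k S0 ≤ rk k (S0 ∪ (A.image x : Finset K))) :
    AlgebraicIndependent (Algebra.adjoin k S0) (fun i : A => x i) := by
  classical
  have hfin : (A.image x : Set K).Finite := (A.image x).finite_toSet
  have h1 := rk_union_le (k := k) S0 (A.image x : Finset K)
  have h2 : rk k ((A.image x : Finset K) : Set K) ≤ (A.image x).card := by
    have := (AlgebraicIndependent.matroid k K).eRk_le_encard ((A.image x : Finset K) : Set K)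
    rwa [Set.encard_coe_eq_coe_finsetCard] at this
  have h3 : (A.image x).card ≤ A.card := Finset.card_image_le
  obtain ⟨s, hs⟩ := ENat.ne_top_iff_exists.1 (rk_ne_top (k := k) hS0)
  obtain ⟨u, hu⟩ := ENat.ne_top_iff_exists.1 (rk_ne_top (k := k) hfin)
  obtain ⟨w, hw⟩ := ENat.ne_top_iff_exists.1 (rk_ne_top (k := k) (hS0.union hfin))
  have hnat : A.card + s ≤ w ∧ w ≤ s + u ∧ u ≤ (A.image x).card := by
    rw [← hs, ← hw] at h
    rw [← hs, ← hw, ← hu] at h1
    rw [← hu] at h2
    refine ⟨by exact_mod_cast h, by exact_mod_cast h1, by exact_mod_cast h2⟩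
  have hcard : (A.image x).card = A.card := by omega
  have hinj : Set.InjOn x A := Finset.card_image_iff.1 hcard
  have hY : (AlgebraicIndependent.matroid k K).Indep ((A.image x : Finset K) : Set K) := by
    rw [(AlgebraicIndependent.matroid k K).indep_iff_eRk_eq_encard_of_finite hfin,
      Set.encard_coe_eq_coe_finsetCard]
    change rk k _ = _
    rw [← hu]
    have : u = (A.image x).card := by omega
    rw [this]
  have hind := indep_over (S := S0) (T := ((A.image x : Finset K) : Set K)) (rk_ne_top hS0)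
    (rk_ne_top hfin) (by
      rw [← hs, ← hu, ← hw]
      have : s + u ≤ w := by omega
      exact_mod_cast this) hY.isBasis_self
  refine hind.comp (fun i : A => ⟨x i, Finset.mem_coe.2 (Finset.mem_image_of_mem x i.2)⟩) ?_
  intro i j hij
  exact Subtype.ext (hinj i.2 j.2 (congrArg Subtype.val hij))

/-- The ratios with a form as numerator generate the coordinates up to algebraic elements. -/
theorem isAlgebraic_of_form {S : Set K} {y : Fin (r + 1) → K} {w : K} (hw : w ≠ 0) {e : ℕ}
    (he : 0 < e) {l : Fin (r + 1)} (hl : y l ≠ 0)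
    (hS : ∀ j, y j ≠ 0 → IsAlgebraic (Algebra.adjoin k S) (w / y j ^ e)) (j : Fin (r + 1)) :
    IsAlgebraic (Algebra.adjoin k S) (y j / y l) := by
  by_cases hj : y j = 0
  · rw [hj, zero_div]
    exact isAlgebraic_zero
  refine IsAlgebraic.of_pow he ?_
  have h3 : (y j / y l) ^ e = (w / y l ^ e) * (w / y j ^ e)⁻¹ := by
    rw [div_pow]
    field_simp
  rw [h3]
  exact (hS l hl).mul (hS j hj).inv

/-- **Transversals.** If the coordinates in each subset of `A` have a sufficiently large rank over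
`S0`, then there is a specialisation over a given homomorphism such that all points with index in `A`
are on a given hypersurface. -/
theorem exists_put [IsAlgClosed k] [Fintype ι] [DecidableEq ι] {ξ : ι → Fin (r + 1) → K}
    {b : ι → Fin (r + 1)} (hb : ∀ i, ξ i (b i) ≠ 0) {S0 : Set K} (hS0 : S0.Finite)
    (φ : Algebra.adjoin k S0 →ₐ[k] k) {h : MvPolynomial (Fin (r + 1)) k} {e : ℕ} (he : 0 < e)
    (hh : h.IsHomogeneous e) {A : Finset ι}
    (hA : ∀ B ⊆ A, (B.card : ℕ∞) + rk k S0 ≤ rk k (S0 ∪ ES b ξ B)) :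
    ∃ v : ι → Fin (r + 1) → k, (∀ i, v i ≠ 0) ∧ Spz k ξ v ∧
      (∀ i (g : MvPolynomial (Fin (r + 1)) k) (d : ℕ), g.IsHomogeneous d →
        ∀ (l : Fin (r + 1)) (u : Algebra.adjoin k S0), aeval (ξ i) g = u * ξ i l ^ d →
          aeval (v i) g = φ u * v i l ^ d) ∧
      ∀ i ∈ A, aeval (v i) h = 0 := by
  classical
  have hξ : ∀ i, ξ i ≠ 0 := fun i h0 => hb i (congrFun h0 (b i))
  set A1 := A.filter fun i => aeval (ξ i) h ≠ 0 with hA1
  let E : ι → Finset K := fun i =>
    (Finset.univ.filter fun l => ξ i l ≠ 0).image fun l => aeval (ξ i) h / ξ i l ^ e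
  -- the rank function over `S0`
  let ρ : Finset K → ℕ := fun S => (rk k (S0 ∪ (S : Set K))).toNat - (rk k S0).toNat
  have hcoe : ∀ S : Finset K, (((rk k (S0 ∪ (S : Set K))).toNat : ℕ) : ℕ∞) =
      rk k (S0 ∪ (S : Set K)) := fun S =>
    ENat.natCast_toNat (rk_ne_top (hS0.union S.finite_toSet))
  have hcoe0 : (((rk k S0).toNat : ℕ) : ℕ∞) = rk k S0 := ENat.natCast_toNat (rk_ne_top hS0)
  have hle0 : ∀ S : Finset K, (rk k S0).toNat ≤ (rk k (S0 ∪ (S : Set K))).toNat := by
    intro S
    have h1 : rk k S0 ≤ rk k (S0 ∪ (S : Set K)) := rk_mono Set.subset_union_left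
    rw [← hcoe0, ← hcoe S] at h1
    exact_mod_cast h1
  have hmono : ∀ P Q : Finset K, P ⊆ Q →
      (rk k (S0 ∪ (P : Set K))).toNat ≤ (rk k (S0 ∪ (Q : Set K))).toNat := by
    intro P Q hPQ
    have h1 : rk k (S0 ∪ (P : Set K)) ≤ rk k (S0 ∪ (Q : Set K)) :=
      rk_mono (Set.union_subset_union_right _ (Finset.coe_subset.2 hPQ))
    rw [← hcoe P, ← hcoe Q] at h1
    exact_mod_cast h1
  have hsub : ∀ P Q : Finset K,
      (rk k (S0 ∪ ((P ∩ Q : Finset K) : Set K))).toNat +
        (rk k (S0 ∪ ((P ∪ Q : Finset K) : Set K))).toNat ≤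
      (rk k (S0 ∪ (P : Set K))).toNat + (rk k (S0 ∪ (Q : Set K))).toNat := by
    intro P Q
    have h1 := rk_submod (k := k) (S0 ∪ (P : Set K)) (S0 ∪ (Q : Set K))
    have h2 : (S0 ∪ (P : Set K)) ∩ (S0 ∪ (Q : Set K)) = S0 ∪ ((P ∩ Q : Finset K) : Set K) := by
      rw [Finset.coe_inter, Set.union_inter_distrib_left]
    have h3 : (S0 ∪ (P : Set K)) ∪ (S0 ∪ (Q : Set K)) = S0 ∪ ((P ∪ Q : Finset K) : Set K) := by
      rw [Finset.coe_union, ← Set.union_union_distrib_left]
    rw [h2, h3, ← hcoe (P ∩ Q), ← hcoe (P ∪ Q), ← hcoe P, ← hcoe Q] at h1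
    exact_mod_cast h1
  have hempty : (rk k (S0 ∪ ((∅ : Finset K) : Set K))).toNat = (rk k S0).toNat := by
    rw [Finset.coe_empty, Set.union_empty]
  obtain ⟨x, hx, hx'⟩ := rado (ι := ι) (α := K) (ρ := ρ)
    (fun P Q hPQ => by
      have := hmono P Q hPQ
      change _ - _ ≤ _ - _
      omega)
    (fun P Q => by
      have h1 := hsub P Q
      have h2 := hle0 (P ∩ Q)
      have h3 := hle0 P
      have h4 := hle0 Q
      have h5 := hle0 (P ∪ Q)
      change _ - _ + (_ - _) ≤ _ - _ + (_ - _)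
      omega)
    (by
      change (rk k (S0 ∪ ((∅ : Finset K) : Set K))).toNat - (rk k S0).toNat = 0
      omega) A1 _ E le_rfl
    (by
      intro B hB
      have hBA : B ⊆ A := hB.trans (Finset.filter_subset _ _)
      have h1 : rk k (S0 ∪ ES b ξ B) ≤ rk k (S0 ∪ ((B.biUnion E : Finset K) : Set K)) := by
        apply rk_le_of_isAlgebraic
        rintro y (hy | ⟨i, hi, j, rfl⟩)
        · exact isAlgebraic_mem (Or.inl hy)
        · have hne : aeval (ξ i) h ≠ 0 := (Finset.mem_filter.1 (hB hi)).2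
          refine isAlgebraic_of_form hne he (hb i) (fun j hj => ?_) j
          refine isAlgebraic_mem (Or.inr ?_)
          rw [Finset.mem_coe, Finset.mem_biUnion]
          exact ⟨i, hi, Finset.mem_image.2 ⟨j, Finset.mem_filter.2 ⟨Finset.mem_univ _, hj⟩, rfl⟩⟩
      have h2 := (hA B hBA).trans h1
      rw [← hcoe, ← hcoe0] at h2
      have h3 : B.card + (rk k S0).toNat ≤
        (rk k (S0 ∪ ((B.biUnion E : Finset K) : Set K))).toNat := by exact_mod_cast h2
      change _ ≤ _ - _
      omega)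
  have hind : AlgebraicIndependent (Algebra.adjoin k S0) (fun i : A1 => x i) := by
    apply indep_of_rk hS0
    rw [← hcoe, ← hcoe0]
    have h1 := hle0 (A1.image x)
    have h2 : A1.card ≤ (rk k (S0 ∪ ((A1.image x : Finset K) : Set K))).toNat -
      (rk k S0).toNat := hx'
    have h3 : A1.card + (rk k S0).toNat ≤
      (rk k (S0 ∪ ((A1.image x : Finset K) : Set K))).toNat := by omega
    exact_mod_cast h3
  -- the extension with `x i ↦ 0`
  obtain ⟨φ', hφ'⟩ := exists_hom (σ := A1) (Algebra.adjoin k S0).val φ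
    (η := fun i => x i) (α := fun _ => 0) (by
      intro G hG
      have h1 : G = 0 := (algebraicIndependent_iff.1 hind) G hG
      rw [h1, eval₂_zero]) (Algebra.adjoin k (S0 ∪ ((A1.image x : Finset K) : Set K))) (by
      intro z hz
      induction hz using Algebra.adjoin_induction with
      | mem z hz =>
        rcases hz with hz | hz
        · exact ⟨C ⟨z, Algebra.subset_adjoin hz⟩, by rw [eval₂_C]; rfl⟩
        · obtain ⟨i, hi, rfl⟩ := Finset.mem_image.1 (Finset.mem_coe.1 hz)
          exact ⟨X ⟨i, hi⟩, by rw [eval₂_X]⟩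
      | algebraMap c =>
        exact ⟨C (algebraMap k _ c), by rw [eval₂_C]; rfl⟩
      | add x y _ _ hx hy =>
        obtain ⟨G, hG⟩ := hx
        obtain ⟨G', hG'⟩ := hy
        exact ⟨G + G', by rw [eval₂_add, hG, hG']⟩
      | mul x y _ _ hx hy =>
        obtain ⟨G, hG⟩ := hx
        obtain ⟨G', hG'⟩ := hy
        exact ⟨G * G', by rw [eval₂_mul, hG, hG']⟩)
  obtain ⟨v, hv, hv1, hv2⟩ := exists_spz' φ' hξ
  refine ⟨v, hv, hv1, fun i g d hg l u hu => ?_, fun i hi => ?_⟩
  · have hmem : (u : K) ∈ Algebra.adjoin k (S0 ∪ ((A1.image x : Finset K) : Set K)) :=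
      Algebra.adjoin_mono Set.subset_union_left u.2
    have h1 := hv2 i g d hg l ⟨u, hmem⟩ hu
    rw [h1, hφ' ⟨u, hmem⟩ (C u) (by rw [eval₂_C]; rfl), eval₂_C]
    rfl
  · by_cases hne : aeval (ξ i) h = 0
    · have h1 := hv2 i h e hh (b i) 0 (by rw [hne]; simp)
      rw [h1, map_zero, zero_mul]
    · have hi1 : i ∈ A1 := Finset.mem_filter.2 ⟨hi, hne⟩
      obtain ⟨l, hl, hxl⟩ := Finset.mem_image.1 (hx i hi1)
      have hl0 : ξ i l ≠ 0 := (Finset.mem_filter.1 hl).2
      have hmem : x i ∈ Algebra.adjoin k (S0 ∪ ((A1.image x : Finset K) : Set K)) :=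
        Algebra.subset_adjoin (Or.inr (Finset.mem_coe.2 (Finset.mem_image_of_mem x hi1)))
      have h1 := hv2 i h e hh l ⟨x i, hmem⟩ (by
        change _ = x i * _
        rw [← hxl, div_mul_cancel₀ _ (pow_ne_zero _ hl0)])
      rw [h1, hφ' ⟨x i, hmem⟩ (X ⟨i, hi1⟩) (by rw [eval₂_X]), eval₂_X, zero_mul]

end Pool.Agent.K7.H3.ZC
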