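import Pool.Agent.K7.H3.ZC.Val
import Pool.Agent.K7.H3.ZC.Rank

/-!
# Specialisations and homomorphisms
-/

set_option autoImplicit false

open MvPolynomial

namespace Pool.Agent.K7.H3.ZC

/-- `a` is a specialisation of `ξ` over `k`: both are points of `(ℙ^r)^ι` in homogeneous
coordinates. -/
def Spz (k : Type) [Field k] {K L : Type} [Field K] [Field L] [Algebra k K] [Algebra k L]
    {ι : Type} {r : ℕ} (ξ : ι → Fin (r + 1) → K) (a : ι → Fin (r + 1) → L) : Prop :=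
  ∀ (G : MvPolynomial (ι × Fin (r + 1)) k) (d : ι → ℕ), MultiHomogeneous G d →
    aeval (fun p => ξ p.1 p.2) G = 0 → aeval (fun p => a p.1 p.2) G = 0

/-- The affine coordinates. -/
def aff {K ι : Type} [Field K] {r : ℕ} (b : ι → Fin (r + 1)) (ξ : ι → Fin (r + 1) → K) :
    ι × Fin (r + 1) → K := fun p => ξ p.1 p.2 / ξ p.1 (b p.1)

variable {k : Type} [Field k] {K : Type} [Field K] [Algebra k K] {L : Type} [Field L] [Algebra k L]
  {ι : Type} {r : ℕ}

theorem MultiHomogeneous.aeval_smul [Fintype ι] {G : MvPolynomial (ι × Fin (r + 1)) k} {d : ι → ℕ}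
    (hG : MultiHomogeneous G d) (c : ι → K) (x : ι × Fin (r + 1) → K) :
    aeval (fun p => c p.1 * x p) G = (∏ i, c i ^ d i) * aeval x G :=
  hG.eval₂_smul (algebraMap k K) c x

theorem MultiHomogeneous.aeval_aff [Fintype ι] {G : MvPolynomial (ι × Fin (r + 1)) k} {d : ι → ℕ}
    (hG : MultiHomogeneous G d) (b : ι → Fin (r + 1)) (ξ : ι → Fin (r + 1) → K) :
    aeval (aff b ξ) G = (∏ i, (ξ i (b i))⁻¹ ^ d i) * aeval (fun p => ξ p.1 p.2) G := by
  have h := hG.aeval_smul (fun i => (ξ i (b i))⁻¹) (fun p => ξ p.1 p.2)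
  rw [← h]
  have h1 : aff b ξ = fun p : ι × Fin (r + 1) =>
      (fun i => (ξ i (b i))⁻¹) p.1 * (fun p : ι × Fin (r + 1) => ξ p.1 p.2) p := by
    funext p
    change ξ p.1 p.2 / ξ p.1 (b p.1) = (ξ p.1 (b p.1))⁻¹ * ξ p.1 p.2
    rw [div_eq_mul_inv, mul_comm]
  rw [h1]

theorem MultiHomogeneous.aeval_aff_eq_zero [Fintype ι] {G : MvPolynomial (ι × Fin (r + 1)) k}
    {d : ι → ℕ} (hG : MultiHomogeneous G d) {b : ι → Fin (r + 1)} {ξ : ι → Fin (r + 1) → K}
    (hb : ∀ i, ξ i (b i) ≠ 0) : aeval (aff b ξ) G = 0 ↔ aeval (fun p => ξ p.1 p.2) G = 0 := by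
  rw [hG.aeval_aff, mul_eq_zero, or_iff_right]
  exact Finset.prod_ne_zero_iff.2 fun i _ => pow_ne_zero _ (inv_ne_zero (hb i))

theorem X_multiHomogeneous [DecidableEq ι] {R : Type} [CommSemiring R] (i : ι) (j : Fin (r + 1)) :
    MultiHomogeneous (X (i, j) : MvPolynomial (ι × Fin (r + 1)) R) (Pi.single i 1) := by
  classical
  intro m hm i'
  have h1 : m = Finsupp.single (i, j) 1 := by
    have := support_monomial_subset (R := R) (a := 1) hm
    exact Finset.mem_singleton.1 this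
  rw [h1]
  by_cases h : i' = i
  · subst h
    rw [Pi.single_eq_same, Finset.sum_eq_single j]
    · exact Finsupp.single_eq_same
    · intro j' _ hj'
      rw [Finsupp.single_apply, if_neg]
      intro h2
      exact hj' (Prod.ext_iff.1 h2).2.symm
    · intro h2
      exact absurd (Finset.mem_univ _) h2
  · rw [Pi.single_eq_of_ne h]
    refine Finset.sum_eq_zero fun j' _ => ?_
    rw [Finsupp.single_apply, if_neg]
    intro h2
    exact h (Prod.ext_iff.1 h2).1.symm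

theorem Spz.ne_zero {ξ : ι → Fin (r + 1) → K} {a : ι → Fin (r + 1) → L} (h : Spz k ξ a) {i : ι}
    {j : Fin (r + 1)} (hj : a i j ≠ 0) : ξ i j ≠ 0 := by
  classical
  intro h0
  apply hj
  have := h (X (i, j)) _ (X_multiHomogeneous i j) (by rw [aeval_X]; exact h0)
  rwa [aeval_X] at this

/-- The chart criterion. -/
theorem Spz.aff [Fintype ι] {ξ : ι → Fin (r + 1) → K} {a : ι → Fin (r + 1) → L} (h : Spz k ξ a)
    {b : ι → Fin (r + 1)} (hb : ∀ i, a i (b i) ≠ 0) (g : MvPolynomial (ι × Fin (r + 1)) k)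
    (hg : aeval (aff b ξ) g = 0) : aeval (ZC.aff b a) g = 0 := by
  obtain ⟨D, hD⟩ := exists_bound g
  have hξ : ∀ i, ξ i (b i) ≠ 0 := fun i => h.ne_zero (hb i)
  have h1 := homog_eval₂ (algebraMap k K) b D g hD (fun p => ξ p.1 p.2) hξ
  have h2 := homog_eval₂ (algebraMap k L) b D g hD (fun p => a p.1 p.2) hb
  have h3 : eval₂ (algebraMap k K) (fun p : ι × Fin (r + 1) => ξ p.1 p.2 / ξ p.1 (b p.1)) g = 0 := hg
  rw [h3, mul_zero] at h1
  have h4 : eval₂ (algebraMap k L) (fun p : ι × Fin (r + 1) => a p.1 p.2) (homog b D g) = 0 :=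
    h _ _ (homog_multiHomogeneous b D g hD) h1
  rw [h4] at h2
  exact (mul_eq_zero.1 h2.symm).resolve_left
    (Finset.prod_ne_zero_iff.2 fun i _ => pow_ne_zero _ (hb i))

theorem Spz.of_aff [Fintype ι] {ξ : ι → Fin (r + 1) → K} {a : ι → Fin (r + 1) → L}
    {b : ι → Fin (r + 1)} (hξ : ∀ i, ξ i (b i) ≠ 0) (hb : ∀ i, a i (b i) ≠ 0)
    (h : ∀ g : MvPolynomial (ι × Fin (r + 1)) k, aeval (ZC.aff b ξ) g = 0 →
      aeval (ZC.aff b a) g = 0) : Spz k ξ a := fun G d hG h0 =>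
  (hG.aeval_aff_eq_zero hb).1 (h G ((hG.aeval_aff_eq_zero hξ).2 h0))

theorem Spz.refl (ξ : ι → Fin (r + 1) → K) : Spz k ξ ξ := fun _ _ _ h => h

theorem Spz.trans {M : Type} [Field M] [Algebra k M] {ξ : ι → Fin (r + 1) → K}
    {a : ι → Fin (r + 1) → L} {c : ι → Fin (r + 1) → M} (h : Spz k ξ a) (h' : Spz k a c) :
    Spz k ξ c := fun G d hG h0 => h' G d hG (h G d hG h0)

theorem exists_chart {ξ : ι → Fin (r + 1) → K} (hξ : ∀ i, ξ i ≠ 0) :
    ∃ b : ι → Fin (r + 1), ∀ i, ξ i (b i) ≠ 0 := by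
  have h : ∀ i, ∃ j, ξ i j ≠ 0 := fun i => Function.ne_iff.1 (hξ i)
  choose b hb using h
  exact ⟨b, hb⟩

/-- The points over `k` are dense. -/
theorem exists_point [IsAlgClosed k] [Fintype ι] {ξ : ι → Fin (r + 1) → K} (hξ : ∀ i, ξ i ≠ 0)
    {G : MvPolynomial (ι × Fin (r + 1)) k} {d : ι → ℕ} (hG : MultiHomogeneous G d)
    (hG0 : aeval (fun p => ξ p.1 p.2) G ≠ 0) :
    ∃ v : ι → Fin (r + 1) → k, (∀ i, v i ≠ 0) ∧ Spz k ξ v ∧ aeval (fun p => v p.1 p.2) G ≠ 0 := by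
  obtain ⟨b, hb⟩ := exists_chart hξ
  have hprime : (RingHom.ker (aeval (aff b ξ) : MvPolynomial (ι × Fin (r + 1)) k →ₐ[k] K)).IsPrime :=
    RingHom.ker_isPrime _
  have h1 : G ∉ RingHom.ker (aeval (aff b ξ) : MvPolynomial (ι × Fin (r + 1)) k →ₐ[k] K) := by
    rw [RingHom.mem_ker, hG.aeval_aff_eq_zero hb]
    exact hG0
  obtain ⟨v, hv, hv0⟩ := exists_zero _ h1
  refine ⟨fun i j => v (i, j), fun i h0 => ?_, fun G' _ hG' h0 => ?_, hv0⟩
  · have h2 : (X (i, b i) - 1 : MvPolynomial (ι × Fin (r + 1)) k) ∈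
        RingHom.ker (aeval (aff b ξ) : MvPolynomial (ι × Fin (r + 1)) k →ₐ[k] K) := by
      rw [RingHom.mem_ker, map_sub, map_one, aeval_X]
      change ξ i (b i) / ξ i (b i) - 1 = 0
      rw [div_self (hb i), sub_self]
    have h4 := hv _ h2
    rw [map_sub, map_one, aeval_X] at h4
    have h5 : v (i, b i) = 0 := congrFun h0 (b i)
    rw [h5, zero_sub] at h4
    exact one_ne_zero (neg_eq_zero.1 h4)
  · exact hv G' (by rw [RingHom.mem_ker, hG'.aeval_aff_eq_zero hb]; exact h0)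

/-- Homomorphisms from relations. -/
theorem exists_hom {R σ : Type} [CommRing R] [Algebra k R] (f : R →ₐ[k] K) (f' : R →ₐ[k] L)
    {η : σ → K} {α : σ → L}
    (H : ∀ G : MvPolynomial σ R, eval₂ (f : R →+* K) η G = 0 → eval₂ (f' : R →+* L) α G = 0)
    (A' : Subalgebra k K) (hA' : ∀ x ∈ A', ∃ G, eval₂ (f : R →+* K) η G = x) :
    ∃ ψ : A' →ₐ[k] L, ∀ (x : A') (G : MvPolynomial σ R), eval₂ (f : R →+* K) η G = x →
      ψ x = eval₂ (f' : R →+* L) α G := by
  have hA'' : ∀ x : A', ∃ G, eval₂ (f : R →+* K) η G = x := fun x => hA' x x.2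
  choose g hg using hA''
  have key : ∀ (x : A') (G : MvPolynomial σ R), eval₂ (f : R →+* K) η G = x →
      eval₂ (f' : R →+* L) α (g x) = eval₂ (f' : R →+* L) α G := by
    intro x G hG
    have h1 := H (g x - G) (by rw [eval₂_sub, hg, hG, sub_self])
    rw [eval₂_sub] at h1
    exact sub_eq_zero.1 h1
  refine ⟨{ toFun := fun x => eval₂ (f' : R →+* L) α (g x), map_one' := ?_, map_mul' := ?_,
            map_zero' := ?_, map_add' := ?_, commutes' := ?_ }, key⟩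
  · rw [key 1 1 (by rw [eval₂_one]; rfl), eval₂_one]
  · intro x y
    rw [key (x * y) (g x * g y) (by rw [eval₂_mul, hg, hg]; rfl), eval₂_mul]
  · rw [key 0 0 (by rw [eval₂_zero]; rfl), eval₂_zero]
  · intro x y
    rw [key (x + y) (g x + g y) (by rw [eval₂_add, hg, hg]; rfl), eval₂_add]
  · intro c
    have h1 : eval₂ (f : R →+* K) η (C (algebraMap k R c)) = (algebraMap k A' c : A') := by
      rw [eval₂_C]
      exact f.commutes c
    change eval₂ (f' : R →+* L) α (g (algebraMap k A' c)) = _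
    rw [key _ _ h1, eval₂_C]
    exact f'.commutes c

end Pool.Agent.K7.H3.ZC
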