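import Pool.Agent.K7.H3.ZC.Ext

/-!
# Extension of specialisations
-/

set_option autoImplicit false

open MvPolynomial

namespace Pool.Agent.K7.H3.ZC

theorem exists_zero {k : Type} [Field k] [IsAlgClosed k] {σ : Type} [Finite σ]
    (I : Ideal (MvPolynomial σ k)) [I.IsPrime] {g : MvPolynomial σ k} (hg : g ∉ I) :
    ∃ v : σ → k, (∀ f ∈ I, aeval v f = 0) ∧ aeval v g ≠ 0 := by
  by_contra hcon
  push Not at hcon
  apply hg
  have h1 : g ∈ vanishingIdeal k (zeroLocus k I) := by
    rw [mem_vanishingIdeal_iff]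
    intro x hx
    exact hcon x hx
  rwa [vanishingIdeal_zeroLocus_eq_radical, (‹I.IsPrime›).isRadical.radical] at h1

/-- Each prime ideal of a subring of a field is the centre of a valuation ring. -/
theorem exists_valuation {K : Type} [Field K] (A : Subring K) (P : Ideal A) [P.IsPrime] :
    ∃ B : ValuationSubring K, A ≤ B.toSubring ∧
      ∀ a : A, (a : K) ∈ B.nonunits ↔ a ∈ P := by
  obtain ⟨B, hB⟩ := (LocalSubring.ofPrime A P).exists_le_valuationSubring
  obtain ⟨hle, hloc⟩ := hB
  refine ⟨B, (LocalSubring.le_ofPrime A P).trans hle, fun a => ?_⟩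
  have hmem : (a : K) ∈ B := hle (LocalSubring.le_ofPrime A P a.2)
  have key : a ∈ P ↔ ¬ IsUnit (algebraMap A (LocalSubring.ofPrime A P).toSubring a) := by
    rw [IsLocalization.AtPrime.isUnit_to_map_iff (LocalSubring.ofPrime A P).toSubring P a]
    exact (not_not).symm
  rw [key, ValuationSubring.mem_nonunits_iff_exists_mem_maximalIdeal]
  constructor
  · rintro ⟨h1, h2⟩ h3
    have h4 := h3.map (Subring.inclusion hle)
    exact h2 h4
  · intro h1
    refine ⟨hmem, fun h2 => h1 ?_⟩
    apply hloc.1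
    exact h2

section

variable {k : Type} [Field k] {K : Type} [Field K] [Algebra k K]

/-- The valuation ring attached to a homomorphism from a subring of a field to a domain. -/
theorem exists_valuation_hom {A : Subring K} {Ω : Type} [CommRing Ω] [IsDomain Ω] (ψ : A →+* Ω) :
    ∃ B : ValuationSubring K, A ≤ B.toSubring ∧
      ∀ a : A, (a : K) ∈ B.nonunits ↔ ψ a = 0 := by
  have : (RingHom.ker ψ).IsPrime := RingHom.ker_isPrime ψ
  obtain ⟨B, h1, h2⟩ := exists_valuation A (RingHom.ker ψ)
  exact ⟨B, h1, fun a => (h2 a).trans RingHom.mem_ker⟩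

theorem mem_of_isAlgebraic {B : ValuationSubring K} {A : Subalgebra k K}
    (hA : ∀ a ∈ A, a ≠ 0 → a ∈ B ∧ a⁻¹ ∈ B) {z : K} (hz : IsAlgebraic A z) : z ∈ B := by
  obtain ⟨p, hp, hpz⟩ := hz
  let f : A →+* B := {
    toFun := fun a => ⟨a, by
      by_cases h : (a : K) = 0
      · rw [h]; exact B.zero_mem
      · exact (hA a a.2 h).1⟩
    map_one' := rfl
    map_mul' := fun _ _ => rfl
    map_zero' := rfl
    map_add' := fun _ _ => rfl }
  have hlc : (p.leadingCoeff : K) ≠ 0 := by
    intro h
    exact hp (Polynomial.leadingCoeff_eq_zero.1 (Subtype.ext h))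
  have hint : IsIntegral B z := by
    refine ⟨Polynomial.C ⟨(p.leadingCoeff : K)⁻¹, (hA _ p.leadingCoeff.2 hlc).2⟩ * p.map f, ?_, ?_⟩
    · have hinj : Function.Injective f := fun a b h => Subtype.ext (congrArg (fun x : B => (x : K)) h)
      rw [Polynomial.Monic, Polynomial.leadingCoeff_mul, Polynomial.leadingCoeff_C,
        Polynomial.leadingCoeff_map_of_injective hinj]
      apply Subtype.ext
      exact inv_mul_cancel₀ hlc
    · rw [Polynomial.eval₂_mul, Polynomial.eval₂_map]
      have h1 : Polynomial.eval₂ ((algebraMap B K).comp f) z p = 0 := hpz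
      rw [h1, mul_zero]
  obtain ⟨y, hy⟩ := (IsIntegrallyClosed.isIntegral_iff (R := B) (K := K)).1 hint
  rw [← hy]
  exact y.2

/-- Sums in the maximal ideal of a valuation ring. -/
theorem eval₂_sub_mem {B : ValuationSubring K} {σ : Type} {R : Type} [CommRing R]
    (f g : R →+* K) (hf : ∀ a, f a ∈ B) (hfg : ∀ a, f a - g a ∈ B.nonunits)
    {η : σ → K} (hη : ∀ s, η s ∈ B) (G : MvPolynomial σ R) :
    eval₂ f η G ∈ B ∧ eval₂ f η G - eval₂ g η G ∈ B.nonunits := by
  have hadd : ∀ {a b : K}, a ∈ B.nonunits → b ∈ B.nonunits → a + b ∈ B.nonunits := by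
    intro a b ha hb
    rw [ValuationSubring.mem_nonunits_iff] at ha hb ⊢
    exact (Valuation.map_add_lt _ ha hb)
  have hmul : ∀ {a b : K}, a ∈ B.nonunits → b ∈ B → a * b ∈ B.nonunits := by
    intro a b ha hb
    rw [ValuationSubring.mem_nonunits_iff] at ha ⊢
    rw [map_mul]
    exact mul_lt_one_of_lt_of_le ha ((B.valuation_le_one_iff _).2 hb)
  induction G using MvPolynomial.induction_on with
  | C a =>
    rw [eval₂_C, eval₂_C]
    exact ⟨hf a, hfg a⟩
  | add p q hp hq =>
    rw [eval₂_add, eval₂_add]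
    refine ⟨B.add_mem _ _ hp.1 hq.1, ?_⟩
    have := hadd hp.2 hq.2
    convert this using 1
    ring
  | mul_X p i hp =>
    rw [eval₂_mul, eval₂_mul, eval₂_X, eval₂_X]
    refine ⟨B.mul_mem _ _ hp.1 (hη i), ?_⟩
    have := hmul hp.2 (hη i)
    convert this using 1
    ring

/-- If `y` is algebraically independent over `A` then relations over `A` between elements which are
algebraic over `k(y)` specialise. -/
theorem linDisj {A : Subalgebra k K} (ψ : A →ₐ[k] k) {τ : Type} {y : τ → K}
    (hy : AlgebraicIndependent A y) {σ : Type} {η : σ → K}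
    (hη : ∀ s, IsAlgebraic (Algebra.adjoin k (Set.range y)) (η s)) {G : MvPolynomial σ A}
    (hG : aeval η G = 0) : aeval η (MvPolynomial.map (ψ : A →+* k) G) = 0 := by
  classical
  -- the subring `A[y]` and its homomorphism to `k[Y]`
  let A1 : Subring K := (aeval y : MvPolynomial τ A →ₐ[A] K).toRingHom.range
  let e : MvPolynomial τ A ≃+* A1 :=
    RingEquiv.ofBijective (aeval y : MvPolynomial τ A →ₐ[A] K).toRingHom.rangeRestrict
      ⟨fun a b h => hy (congrArg Subtype.val h), RingHom.rangeRestrict_surjective _⟩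
  let ψ1 : A1 →+* MvPolynomial τ k := (MvPolynomial.map (ψ : A →+* k)).comp (e.symm : A1 →+* _)
  obtain ⟨B, hB1, hB2⟩ := exists_valuation_hom ψ1
  have he : ∀ g : MvPolynomial τ A, ((e g : A1) : K) = aeval y g := fun g => rfl
  have hψ1 : ∀ g : MvPolynomial τ A, ψ1 (e g) = MvPolynomial.map (ψ : A →+* k) g := by
    intro g
    change MvPolynomial.map (ψ : A →+* k) (e.symm (e g)) = _
    rw [e.symm_apply_apply]
  have hAB : ∀ a : A, (a : K) ∈ B := by
    intro a
    have : (a : K) = ((e (C a) : A1) : K) := by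
      rw [he, aeval_C]; rfl
    rw [this]
    exact hB1 (e (C a)).2
  have hsub : ∀ a : A, (a : K) - algebraMap k K (ψ a) ∈ B.nonunits := by
    intro a
    have h1 : (a : K) - algebraMap k K (ψ a) =
        ((e (C (a - algebraMap k A (ψ a))) : A1) : K) := by
      rw [he, aeval_C]; rfl
    rw [h1, hB2, hψ1, map_C]
    simp
  -- units
  have hky : ∀ a ∈ Algebra.adjoin k (Set.range y), a ≠ 0 → a ∈ B ∧ a⁻¹ ∈ B := by
    intro a ha hne
    rw [Algebra.adjoin_range_eq_range_aeval] at ha
    obtain ⟨q, rfl⟩ := ha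
    have hq : q ≠ 0 := by
      rintro rfl
      exact hne (map_zero _)
    have h1 : (aeval y q : K) = ((e (MvPolynomial.map (algebraMap k A) q) : A1) : K) := by
      rw [he, aeval_map_algebraMap]
    have h2 : ψ1 (e (MvPolynomial.map (algebraMap k A) q)) = q := by
      rw [hψ1, MvPolynomial.map_map]
      have : (ψ : A →+* k).comp (algebraMap k A) = RingHom.id k := by
        ext c
        exact ψ.commutes c
      rw [this, MvPolynomial.map_id]
    have h3 : (aeval y q : K) ∈ B := by
      rw [h1]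
      exact hB1 (Subtype.prop _)
    refine ⟨h3, ?_⟩
    have h4 : (aeval y q : K) ∉ B.nonunits := by
      rw [h1, hB2, h2]
      exact hq
    rw [ValuationSubring.mem_nonunits_iff, not_lt] at h4
    have h5 : (aeval y q : K) ≠ 0 := hne
    rw [← B.valuation_le_one_iff, map_inv₀]
    exact inv_le_one_of_one_le₀ h4
  have hηB : ∀ s, η s ∈ B := fun s => mem_of_isAlgebraic hky (hη s)
  -- the value
  have h1 := (eval₂_sub_mem (B := B) (algebraMap A K) ((algebraMap k K).comp (ψ : A →+* k))
    hAB hsub hηB G).2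
  have h2 : eval₂ (algebraMap A K) η G = 0 := hG
  have h3 : eval₂ ((algebraMap k K).comp (ψ : A →+* k)) η G =
      aeval η (MvPolynomial.map (ψ : A →+* k) G) := by
    rw [aeval_def, eval₂_map]
  rw [h2, h3, zero_sub] at h1
  by_contra hne
  have halg : IsAlgebraic (Algebra.adjoin k (Set.range y))
      (aeval η (MvPolynomial.map (ψ : A →+* k) G) : K) := by
    have : (aeval η (MvPolynomial.map (ψ : A →+* k) G) : K) ∈
        Subalgebra.algebraicClosure (Algebra.adjoin k (Set.range y)) K := by
      rw [aeval_def, eval₂_eq]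
      refine sum_mem fun m _ => mul_mem ?_ (prod_mem fun i _ => pow_mem (hη i) _)
      exact isAlgebraic_algebraMap (R := Algebra.adjoin k (Set.range y)) (A := K)
        (algebraMap k (Algebra.adjoin k (Set.range y)) _)
    exact this
  have hinv := mem_of_isAlgebraic hky halg.inv
  have h4 : B.valuation (aeval η (MvPolynomial.map (ψ : A →+* k) G)) < 1 := by
    rw [ValuationSubring.mem_nonunits_iff, Valuation.map_neg] at h1
    exact h1
  rw [← B.valuation_le_one_iff, map_inv₀] at hinv
  have h5 : 0 < B.valuation (aeval η (MvPolynomial.map (ψ : A →+* k) G)) := by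
    rw [Valuation.pos_iff]
    exact hne
  have h6 := (inv_le_one₀ h5).1 hinv
  exact absurd h4 (not_lt.2 h6)

/-- **Extension of specialisations.** A homomorphism `ψ` from a subalgebra `A` of `K` to `k`
extends to a specialisation of each point of a product of projective spaces over `K`. -/
theorem exists_spz [IsAlgClosed k] {ι : Type} [Fintype ι] {r : ℕ} {A : Subalgebra k K}
    (ψ : A →ₐ[k] k) {ξ : ι → Fin (r + 1) → K} (hξ : ∀ i, ξ i ≠ 0) :
    ∃ v : ι → Fin (r + 1) → k, (∀ i, v i ≠ 0) ∧
      ∀ (G : MvPolynomial (ι × Fin (r + 1)) A) (d : ι → ℕ), MultiHomogeneous G d →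
        aeval (fun p => ξ p.1 p.2) G = 0 →
          aeval (fun p => v p.1 p.2) (MvPolynomial.map (ψ : A →+* k) G) = 0 := by
  classical
  obtain ⟨B, hB1, hB2⟩ := exists_valuation_hom (A := A.toSubring) (ψ : A →+* k)
  have hAB : ∀ a : A, (a : K) ∈ B := fun a => hB1 a.2
  have hsub : ∀ a : A, (a : K) - algebraMap k K (ψ a) ∈ B.nonunits := by
    intro a
    have h1 := (hB2 (a - algebraMap k A (ψ a))).2 (by
      change ψ (a - algebraMap k A (ψ a)) = 0
      rw [map_sub, ψ.commutes]
      simp)
    exact h1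
  have hkB : ∀ c : k, algebraMap k K c ∈ B := fun c => hAB (algebraMap k A c)
  have hc : ∀ i, ∃ c, ξ i c ≠ 0 ∧ ∀ j, ξ i j / ξ i c ∈ B := by
    intro i
    obtain ⟨c, hc⟩ := Finite.exists_max fun j => B.valuation (ξ i j)
    have hne : ξ i c ≠ 0 := by
      obtain ⟨j, hj⟩ := Function.ne_iff.1 (hξ i)
      intro h0
      have h1 := hc j
      simp only [h0, map_zero] at h1
      exact hj ((Valuation.zero_iff _).1 (le_antisymm h1 zero_le))
    refine ⟨c, hne, fun j => ?_⟩
    rw [← B.valuation_le_one_iff, map_div₀]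
    exact div_le_one_of_le₀ (hc j) zero_le
  choose c hc0 hcB using hc
  let η : ι × Fin (r + 1) → B := fun p => ⟨ξ p.1 p.2 / ξ p.1 (c p.1), hcB p.1 p.2⟩
  let fA : A →+* B := {
    toFun := fun a => ⟨a, hAB a⟩
    map_one' := rfl
    map_mul' := fun _ _ => rfl
    map_zero' := rfl
    map_add' := fun _ _ => rfl }
  let fk : k →+* B := fA.comp (algebraMap k A)
  let res : B →+* IsLocalRing.ResidueField B := IsLocalRing.residue B
  let Φ : MvPolynomial (ι × Fin (r + 1)) k →+* IsLocalRing.ResidueField B :=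
    eval₂Hom (res.comp fk) (fun p => res (η p))
  have hprime : (RingHom.ker Φ).IsPrime := RingHom.ker_isPrime Φ
  have h1 : (1 : MvPolynomial (ι × Fin (r + 1)) k) ∉ RingHom.ker Φ := by
    rw [RingHom.mem_ker, map_one]
    exact one_ne_zero
  obtain ⟨v, hv, -⟩ := exists_zero (RingHom.ker Φ) h1
  refine ⟨fun i j => v (i, j), fun i h0 => ?_, fun G d hG hG0 => ?_⟩
  · have h2 : (X (i, c i) - 1 : MvPolynomial (ι × Fin (r + 1)) k) ∈ RingHom.ker Φ := by
      rw [RingHom.mem_ker, map_sub, map_one]
      change eval₂ (res.comp fk) (fun p => res (η p)) (X (i, c i)) - 1 = 0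
      rw [eval₂_X]
      have h3 : η (i, c i) = 1 := Subtype.ext (div_self (hc0 i))
      rw [h3, map_one, sub_self]
    have h4 := hv _ h2
    rw [map_sub, map_one, aeval_X] at h4
    have h5 : v (i, c i) = 0 := congrFun h0 (c i)
    rw [h5, zero_sub] at h4
    exact one_ne_zero (neg_eq_zero.1 h4)
  · apply hv
    rw [RingHom.mem_ker]
    change eval₂ (res.comp fk) (fun p => res (η p)) (MvPolynomial.map (ψ : A →+* k) G) = 0
    rw [eval₂_map]
    have hcomp : (res.comp fk).comp (ψ : A →+* k) = res.comp fA := by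
      ext a
      change res (fA (algebraMap k A (ψ a))) = res (fA a)
      rw [eq_comm, ← sub_eq_zero, ← map_sub]
      change IsLocalRing.residue B _ = 0
      rw [IsLocalRing.residue_eq_zero_iff]
      have h2 := hsub a
      rw [ValuationSubring.mem_nonunits_iff_exists_mem_maximalIdeal] at h2
      obtain ⟨h3, h4⟩ := h2
      exact h4
    rw [hcomp]
    have h2 : eval₂ fA η G = 0 := by
      apply Subtype.ext
      have h3 : ((eval₂ fA η G : B) : K) = eval₂ (algebraMap A K) (fun p => (η p : K)) G := by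
        have := MvPolynomial.hom_eval₂ G fA B.subtype η
        exact this
      rw [h3]
      have h4 : (fun p => (η p : K)) = fun p : ι × Fin (r + 1) =>
          (fun i => (ξ i (c i))⁻¹) p.1 * (fun p : ι × Fin (r + 1) => ξ p.1 p.2) p := by
        funext p
        change ξ p.1 p.2 / ξ p.1 (c p.1) = (ξ p.1 (c p.1))⁻¹ * ξ p.1 p.2
        rw [div_eq_mul_inv, mul_comm]
      have h5 : eval₂ (algebraMap A K) (fun p : ι × Fin (r + 1) => ξ p.1 p.2) G = 0 := hG0
      have h7 := hG.eval₂_smul (algebraMap A K) (fun i => (ξ i (c i))⁻¹) (fun p => ξ p.1 p.2)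
      rw [h5, mul_zero] at h7
      rw [h4]
      exact h7
    have h6 := MvPolynomial.hom_eval₂ G fA res η
    rw [h2, map_zero] at h6
    exact h6.symm

end

end Pool.Agent.K7.H3.ZC
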